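import Pool.Agent.P8H32.LW.Model
import Pool.Agent.N514.TH.Dens

/-!
# The number of the points of a hypersurface outside of another one, modulo many primes (helper32)

Let `h` be a polynomial in `t_0` of positive degree over `ℤ[t_1, …, t_s]` and let `G` have no common factor
of positive degree in `t_0` with `h`. There is a number field `L` such that for all large primes `p` for
which there is a homomorphism from the ring of integers of `L` to `ℤ/p`, the equation `h = 0` has at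
least `p ^ s / 2` solutions modulo `p` with `G ≠ 0` (theorem of Landau, Lang and Weil from `R410.LW`).
-/

set_option autoImplicit false
set_option linter.all false

open Polynomial NumberField
open Pool.Agent.R410.LW Pool.Agent.R410.BS

namespace Pool.Agent.P8H32.LW

open Pool.Agent.R424.MP (ev CoprimeTo)
open Pool.Agent.N514.TH (evm evm_map Om Ok pr dvd_val_iff dig pr_dig dig_inj)

/-- there are only finitely many homomorphisms from a finitely generated ring to a finite ring -/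
theorem finite_homs (A F : Type) [CommRing A] [Algebra.FiniteType ℤ A] [CommRing F] [Finite F] :
    Finite (A →+* F) := by
  obtain ⟨S, hS⟩ := (inferInstance : Algebra.FiniteType ℤ A).out
  refine Finite.of_injective (fun φ : A →+* F => fun x : S => φ x) ?_
  intro φ ψ h
  have h1 : φ.toIntAlgHom = ψ.toIntAlgHom := by
    refine AlgHom.ext_of_adjoin_eq_top hS ?_
    intro x hx
    exact congrFun h ⟨x, hx⟩
  ext x
  exact congrArg (fun f => f x) h1

/-- The conclusion of the theorem `landau_all` for the field `M` and the number field `L`. -/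
def Lan (M : Type) [Field M] (s : ℕ) (L : Type) [Field L] [NumberField L] : Prop :=
  ∀ (A : Type) [CommRing A] [IsDomain A] [Algebra.FiniteType ℤ A] [Algebra A M]
    [IsFractionRing A M] (u : A), u ≠ 0 → ∃ (C : ℝ) (N : ℕ), 0 ≤ C ∧ N ≠ 0 ∧
      ∀ (k : Type) [Field k] [Finite k], ((N : ℕ) : k) ≠ 0 →
        |(Nat.card {φ : A →+* k // φ u ≠ 0} : ℝ) - Nat.card (𝓞 L →+* k) * (Nat.card k : ℝ) ^ s| *
          √(Nat.card k : ℝ) ≤ C * (Nat.card k : ℝ) ^ s

theorem range_ft {R M : Type} [CommRing R] [Field M]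
    (h2 : @Algebra.FiniteType ℤ R _ _ (Ring.toIntAlgebra R)) (Φ : R →+* M) :
    Algebra.FiniteType ℤ Φ.range := by
  exact Algebra.FiniteType.of_surjective Φ.rangeRestrict.toIntAlgHom Φ.rangeRestrict_surjective

theorem range_frac {R M : Type} [CommRing R] [Field M] (Φ : R →+* M)
    (hcl : Subfield.closure (Set.range Φ) = ⊤) : IsFractionRing Φ.range M := by
  refine frac_of_closure (fun x y hxy => Subtype.ext hxy) ?_
  rw [eq_top_iff, ← hcl, Subfield.closure_le]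
  rintro _ ⟨f, rfl⟩
  exact Subfield.subset_closure ⟨⟨Φ f, f, rfl⟩, rfl⟩

theorem points_of {s : ℕ} {h G : (MvPolynomial (Fin s) ℤ)[X]} {M : Type} [Field M]
    (Φ : (MvPolynomial (Fin s) ℤ)[X] →+* M) (hΦh : Φ h = 0) (hΦG : Φ G ≠ 0)
    (hcl : Subfield.closure (Set.range Φ) = ⊤) (L : Type) [Field L] [NumberField L]
    (hL : Lan M s L) :
    ∃ p₀ : ℕ, ∀ (p : ℕ) [Fact p.Prime], p₀ < p → Nonempty (𝓞 L →+* ZMod p) →
      (p : ℝ) ^ s / 2 ≤
        (({ρ : Fin (s + 1) → ZMod p | evm p ρ h = 0 ∧ evm p ρ G ≠ 0}.ncard : ℕ) : ℝ) := by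
  classical
  let A := Φ.range
  have hft : Algebra.FiniteType ℤ A := range_ft (ft_int _
    (Algebra.FiniteType.trans (S := MvPolynomial (Fin s) ℤ) inferInstance inferInstance)) Φ
  have hfr : IsFractionRing A M := range_frac Φ hcl
  obtain ⟨C, N, hC, hN, hcount⟩ := hL A ⟨Φ G, G, rfl⟩ (fun h0 => hΦG (congrArg Subtype.val h0))
  refine ⟨N + ⌈(2 * C) ^ 2⌉₊, fun p hpF hp hne => ?_⟩
  have hpp := hpF.out
  have hNp : ((N : ℕ) : ZMod p) ≠ 0 := by
    rw [Ne, ZMod.natCast_eq_zero_iff]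
    intro h0
    have := Nat.le_of_dvd (Nat.pos_of_ne_zero hN) h0
    omega
  have h1 := hcount (ZMod p) hNp
  rw [Nat.card_zmod] at h1
  have hfin : Finite (𝓞 L →+* ZMod p) := finite_homs (𝓞 L) (ZMod p)
  have hcard1 : (1 : ℝ) ≤ Nat.card (𝓞 L →+* ZMod p) := by
    have : 0 < Nat.card (𝓞 L →+* ZMod p) := Nat.card_pos
    exact_mod_cast this
  have hpR : (0 : ℝ) < p := by exact_mod_cast hpp.pos
  have hsq : 2 * C ≤ √(p : ℝ) := by
    apply Real.le_sqrt_of_sq_le
    refine (Nat.le_ceil _).trans ?_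
    exact_mod_cast (by omega : ⌈(2 * C) ^ 2⌉₊ ≤ p)
  have hs0 : 0 < √(p : ℝ) := Real.sqrt_pos.2 hpR
  set n₁ : ℝ := (Nat.card {φ : A →+* ZMod p // φ ⟨Φ G, G, rfl⟩ ≠ 0} : ℝ) with hn₁
  have hps : 0 < (p : ℝ) ^ s := by positivity
  have h2 : (p : ℝ) ^ s / 2 ≤ n₁ := by
    have h3 : Nat.card (𝓞 L →+* ZMod p) * (p : ℝ) ^ s - n₁ ≤
        |n₁ - Nat.card (𝓞 L →+* ZMod p) * (p : ℝ) ^ s| := by
      rw [abs_sub_comm]
      exact le_abs_self _
    have h4 : (p : ℝ) ^ s ≤ Nat.card (𝓞 L →+* ZMod p) * (p : ℝ) ^ s :=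
      le_mul_of_one_le_left hps.le hcard1
    have h5 : ((p : ℝ) ^ s - n₁) * √(p : ℝ) ≤ C * (p : ℝ) ^ s := by
      refine le_trans ?_ h1
      exact mul_le_mul_of_nonneg_right (by linarith) hs0.le
    by_contra hcon
    push Not at hcon
    have h6 : (p : ℝ) ^ s / 2 < (p : ℝ) ^ s - n₁ := by linarith
    have h7 : (p : ℝ) ^ s / 2 * √(p : ℝ) < ((p : ℝ) ^ s - n₁) * √(p : ℝ) :=
      mul_lt_mul_of_pos_right h6 hs0
    have h8 : (p : ℝ) ^ s / 2 * (2 * C) ≤ (p : ℝ) ^ s / 2 * √(p : ℝ) :=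
      mul_le_mul_of_nonneg_left hsq (by positivity)
    nlinarith
  refine h2.trans ?_
  -- the points
  let Ψ : (MvPolynomial (Fin s) ℤ)[X] →+* A := Φ.rangeRestrict
  have key : ∀ φ : A →+* ZMod p, evm p (Fin.cons (φ (Ψ X)) (fun i => φ (Ψ (Polynomial.C (MvPolynomial.X i)))) :
      Fin (s + 1) → ZMod p) = φ.comp Ψ := by
    intro φ
    refine Polynomial.ringHom_ext' ?_ ?_
    · refine MvPolynomial.ringHom_ext' ?_ ?_
      · exact RingHom.ext_int _ _
      · intro i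
        simp [evm]
    · simp [evm]
  have h9 : Nat.card {φ : A →+* ZMod p // φ ⟨Φ G, G, rfl⟩ ≠ 0} ≤
      ({ρ : Fin (s + 1) → ZMod p | evm p ρ h = 0 ∧ evm p ρ G ≠ 0}.ncard) := by
    rw [← Nat.card_coe_set_eq]
    refine Nat.card_le_card_of_injective (fun φ => ⟨(Fin.cons (φ.1 (Ψ X)) (fun i =>
      φ.1 (Ψ (Polynomial.C (MvPolynomial.X i)))) : Fin (s + 1) → ZMod p), ?_, ?_⟩) ?_
    · rw [key]
      show φ.1 (Ψ h) = 0
      have e : Ψ h = 0 := Subtype.ext hΦh
      rw [e, map_zero]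
    · rw [key]
      exact φ.2
    · intro φ φ' hφ
      have e1 : (Fin.cons (φ.1 (Ψ X)) (fun i => φ.1 (Ψ (Polynomial.C (MvPolynomial.X i)))) :
          Fin (s + 1) → ZMod p) = Fin.cons (φ'.1 (Ψ X)) (fun i =>
            φ'.1 (Ψ (Polynomial.C (MvPolynomial.X i)))) := congrArg Subtype.val hφ
      have e2 : φ.1.comp Ψ = φ'.1.comp Ψ := by rw [← key, ← key, e1]
      apply Subtype.ext
      ext x
      obtain ⟨f, rfl⟩ := Φ.rangeRestrict_surjective x
      exact RingHom.congr_fun e2 f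
  exact Nat.cast_le.2 h9

theorem many_points {s : ℕ} {h G : (MvPolynomial (Fin s) ℤ)[X]} (hdeg : 0 < h.natDegree)
    (hG : CoprimeTo h G) :
    ∃ (L : Type) (_ : Field L) (_ : NumberField L) (p₀ : ℕ), ∀ (p : ℕ) [Fact p.Prime], p₀ < p →
      Nonempty (𝓞 L →+* ZMod p) →
      (p : ℝ) ^ s / 2 ≤
        (({ρ : Fin (s + 1) → ZMod p | evm p ρ h = 0 ∧ evm p ρ G ≠ 0}.ncard : ℕ) : ℝ) := by
  obtain ⟨M, iM, cM, Φ, hFG, htr, hΦh, hΦC, hcl⟩ := exists_model h hdeg
  obtain ⟨a, b, R, hR, hab⟩ := hG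
  have hΦG : Φ G ≠ 0 := by
    intro h0
    have h1 := congrArg Φ hab
    rw [map_add, map_mul, map_mul, hΦh, h0, mul_zero, mul_zero, add_zero] at h1
    exact hR (hΦC R h1.symm)
  obtain ⟨L, iL, nL, hL⟩ := landau_all hFG htr
  exact ⟨L, iL, nL, points_of Φ hΦh hΦG hcl L hL⟩

end Pool.Agent.P8H32.LW
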