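import Pool.Agent.P8H32.LW.Model2
import Pool.Agent.P8H32.LW.Pts
import Pool.Agent.H323R2.NT1

/-!
# Absolutely irreducible hypersurfaces have many points modulo ALL large primes (helper32)

The theorem of Landau, Lang and Weil of the starting library (`R410.LW`) gives the number of the points of a
hypersurface modulo `p` in terms of a number field `L` which it does not identify. Here `L = ℚ` is proved
for absolutely irreducible hypersurfaces: the points over the primes which split completely in a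
number field `K₁` are counted twice, by the function field over `ℚ` and by the function field over `K₁`, and the
numbers are compared with the prime ideal theorem.
-/

set_option autoImplicit false
set_option linter.all false

open Polynomial NumberField Filter Topology
open Pool.Agent.R410.LW Pool.Agent.R410.BS

namespace Pool.Agent.P8H32.LW

open Pool.Agent.R424.MP (ev CoprimeTo)
open Pool.Agent.N514.TH (evm)

/-- `h` with coefficients in the ring of integers of `K₁` -/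
noncomputable def bc {s : ℕ} (K₁ : Type) [Field K₁] [NumberField K₁] (h : (MvPolynomial (Fin s) ℤ)[X]) :
    (MvPolynomial (Fin s) (𝓞 K₁))[X] :=
  h.map (MvPolynomial.map (algebraMap ℤ (𝓞 K₁)))

/-- `h` is irreducible as a polynomial in `t_0` over `K₁(t_1, …, t_s)`, for `K₁ = ℚ` and all number fields -/
def AbsIrr {s : ℕ} (h : (MvPolynomial (Fin s) ℤ)[X]) : Prop :=
  Irreducible (h.map (algebraMap (MvPolynomial (Fin s) ℤ) (FractionRing (MvPolynomial (Fin s) ℤ)))) ∧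
  ∀ (K₁ : Type) [Field K₁] [NumberField K₁], Irreducible ((bc K₁ h).map
    (algebraMap (MvPolynomial (Fin s) (𝓞 K₁)) (FractionRing (MvPolynomial (Fin s) (𝓞 K₁)))))

section
variable {s : ℕ} {M M₁ K₁ : Type} [Field M] [Field M₁] [Field K₁] [NumberField K₁] {p : ℕ}
  [hp : Fact p.Prime]

theorem bc_inj : Function.Injective (MvPolynomial.map (σ := Fin s) (algebraMap ℤ (𝓞 K₁))) :=
  MvPolynomial.map_injective _ (RingHom.injective_int _)

/-- the value at the point given by `ψ` on the ring of integers and `φ` on the variables -/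
noncomputable def evp (Φ : (MvPolynomial (Fin s) ℤ)[X] →+* M) (ψ : 𝓞 K₁ →+* ZMod p)
    (φ : Φ.range →+* ZMod p) : (MvPolynomial (Fin s) (𝓞 K₁))[X] →+* ZMod p :=
  eval₂RingHom (MvPolynomial.eval₂Hom ψ (fun i => φ (Φ.rangeRestrict (C (MvPolynomial.X i)))))
    (φ (Φ.rangeRestrict X))

theorem evp_bc (Φ : (MvPolynomial (Fin s) ℤ)[X] →+* M) (ψ : 𝓞 K₁ →+* ZMod p)
    (φ : Φ.range →+* ZMod p) (f : (MvPolynomial (Fin s) ℤ)[X]) :
    evp Φ ψ φ (bc K₁ f) = φ (Φ.rangeRestrict f) := by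
  have h : (evp Φ ψ φ).comp (mapRingHom (MvPolynomial.map (algebraMap ℤ (𝓞 K₁)))) =
      φ.comp Φ.rangeRestrict := by
    refine Polynomial.ringHom_ext' ?_ ?_
    · refine MvPolynomial.ringHom_ext' ?_ ?_
      · exact RingHom.ext_int _ _
      · intro i
        simp [evp]
    · simp [evp]
  exact RingHom.congr_fun h f

theorem evp_C (Φ : (MvPolynomial (Fin s) ℤ)[X] →+* M) (ψ : 𝓞 K₁ →+* ZMod p)
    (φ : Φ.range →+* ZMod p) (x : 𝓞 K₁) : evp Φ ψ φ (C (MvPolynomial.C x)) = ψ x := by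
  simp [evp]

theorem evp_ker {h : (MvPolynomial (Fin s) ℤ)[X]} (hdeg : 0 < h.natDegree)
    (Φ : (MvPolynomial (Fin s) ℤ)[X] →+* M) (hΦh : Φ h = 0)
    (Φ₁ : (MvPolynomial (Fin s) (𝓞 K₁))[X] →+* M₁) (hΦ₁h : Φ₁ (bc K₁ h) = 0)
    (hΦ₁ : ∀ f, Φ₁ f = 0 → f.natDegree < (bc K₁ h).natDegree → f = 0)
    (ψ : 𝓞 K₁ →+* ZMod p) (φ : Φ.range →+* ZMod p)
    (hφ : φ (Φ.rangeRestrict (C h.leadingCoeff)) ≠ 0) (f : (MvPolynomial (Fin s) (𝓞 K₁))[X])
    (hf : Φ₁ f = 0) : evp Φ ψ φ f = 0 := by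
  have hd1 : (bc K₁ h).natDegree = h.natDegree := by
    unfold bc
    exact natDegree_map_eq_of_injective bc_inj h
  have hlc : (bc K₁ h).leadingCoeff = MvPolynomial.map (algebraMap ℤ (𝓞 K₁)) h.leadingCoeff := by
    rw [leadingCoeff, hd1]
    unfold bc
    rw [coeff_map]
    rfl
  obtain ⟨m, q, r, h1, h2⟩ := pdiv (bc K₁ h) (by rw [hd1]; exact hdeg) f.natDegree f le_rfl
  have h3 : Φ₁ r = 0 := by
    have h4 := congrArg Φ₁ h1
    rw [map_mul, map_add, map_mul, hf, hΦ₁h, mul_zero, zero_mul, zero_add] at h4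
    exact h4.symm
  have h5 := hΦ₁ r h3 h2
  rw [h5, add_zero] at h1
  have h6 := congrArg (evp Φ ψ φ) h1
  rw [map_mul, map_mul, evp_bc] at h6
  have e : Φ.rangeRestrict h = 0 := Subtype.ext hΦh
  rw [e, map_zero, zero_mul, hlc] at h6
  have e2 : evp Φ ψ φ (C (MvPolynomial.map (algebraMap ℤ (𝓞 K₁)) h.leadingCoeff ^ m)) =
      φ (Φ.rangeRestrict (C h.leadingCoeff)) ^ m := by
    rw [← evp_bc (K₁ := K₁) Φ ψ φ, C_pow, map_pow]
    unfold bc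
    rw [Polynomial.map_C]
  rw [e2] at h6
  exact (mul_eq_zero.1 h6).resolve_left (pow_ne_zero _ hφ)

theorem pairs_le {h : (MvPolynomial (Fin s) ℤ)[X]} (hdeg : 0 < h.natDegree)
    (Φ : (MvPolynomial (Fin s) ℤ)[X] →+* M) (hΦh : Φ h = 0)
    (Φ₁ : (MvPolynomial (Fin s) (𝓞 K₁))[X] →+* M₁) (hΦ₁h : Φ₁ (bc K₁ h) = 0)
    (hΦ₁ : ∀ f, Φ₁ f = 0 → f.natDegree < (bc K₁ h).natDegree → f = 0)
    [Algebra.FiniteType ℤ Φ₁.range] :
    Nat.card (𝓞 K₁ →+* ZMod p) *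
      Nat.card {φ : Φ.range →+* ZMod p // φ (Φ.rangeRestrict (C h.leadingCoeff)) ≠ 0} ≤
    Nat.card {φ : Φ₁.range →+* ZMod p //
      φ (Φ₁.rangeRestrict (bc K₁ (C h.leadingCoeff))) ≠ 0} := by
  classical
  have hfin : Finite (Φ₁.range →+* ZMod p) := finite_homs _ _
  have hker : ∀ (ψ : 𝓞 K₁ →+* ZMod p) (φ : Φ.range →+* ZMod p),
      φ (Φ.rangeRestrict (C h.leadingCoeff)) ≠ 0 →
      ∃ φ₁ : Φ₁.range →+* ZMod p, ∀ f, φ₁ (Φ₁.rangeRestrict f) = evp Φ ψ φ f := by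
    intro ψ φ hφ
    have hle : RingHom.ker Φ₁.rangeRestrict ≤ RingHom.ker (evp Φ ψ φ) := by
      intro f hf
      rw [RingHom.mem_ker] at hf ⊢
      exact evp_ker hdeg Φ hΦh Φ₁ hΦ₁h hΦ₁ ψ φ hφ f (congrArg Subtype.val hf)
    refine ⟨RingHom.liftOfSurjective Φ₁.rangeRestrict Φ₁.rangeRestrict_surjective
      ⟨evp Φ ψ φ, hle⟩, fun f => ?_⟩
    exact RingHom.liftOfRightInverse_comp_apply _ _ _ _ _
  choose g hg using fun x : (𝓞 K₁ →+* ZMod p) ×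
    {φ : Φ.range →+* ZMod p // φ (Φ.rangeRestrict (C h.leadingCoeff)) ≠ 0} => hker x.1 x.2.1 x.2.2
  rw [← Nat.card_prod]
  refine Nat.card_le_card_of_injective (fun x : (𝓞 K₁ →+* ZMod p) ×
    {φ : Φ.range →+* ZMod p // φ (Φ.rangeRestrict (C h.leadingCoeff)) ≠ 0} =>
      (⟨g x, by
        rw [hg x, evp_bc]
        exact x.2.2⟩ : {φ : Φ₁.range →+* ZMod p //
          φ (Φ₁.rangeRestrict (bc K₁ (C h.leadingCoeff))) ≠ 0})) ?_
  rintro ⟨ψ, φ, hφ⟩ ⟨ψ', φ', hφ'⟩ heq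
  have h1 : g (ψ, ⟨φ, hφ⟩) = g (ψ', ⟨φ', hφ'⟩) := congrArg Subtype.val heq
  have h2 : ∀ f, evp Φ ψ φ f = evp Φ ψ' φ' f := fun f => by
    have e1 := hg (ψ, ⟨φ, hφ⟩) f
    have e2 := hg (ψ', ⟨φ', hφ'⟩) f
    rw [h1] at e1
    exact e1.symm.trans e2
  have h3 : ψ = ψ' := by
    ext x
    have := h2 (C (MvPolynomial.C x))
    rwa [evp_C, evp_C] at this
  have h4 : φ = φ' := by
    ext x
    obtain ⟨f, rfl⟩ := Φ.rangeRestrict_surjective x
    have := h2 (bc K₁ f)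
    rwa [evp_bc, evp_bc] at this
  subst h3
  subst h4
  rfl

end

/-- comparison of the numbers of the homomorphisms -/
theorem hom_mul_le {s : ℕ} {h : (MvPolynomial (Fin s) ℤ)[X]} (hdeg : 0 < h.natDegree) {M : Type}
    [Field M] (Φ : (MvPolynomial (Fin s) ℤ)[X] →+* M) (hΦh : Φ h = 0)
    (hΦ0 : Φ (C h.leadingCoeff) ≠ 0) (hcl : Subfield.closure (Set.range Φ) = ⊤) (L : Type) [Field L]
    [NumberField L] (hL : Lan M s L) {M₁ K₁ L₁ : Type} [Field M₁] [Field K₁] [NumberField K₁]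
    [Field L₁] [NumberField L₁]
    (Φ₁ : (MvPolynomial (Fin s) (𝓞 K₁))[X] →+* M₁) (hΦ₁h : Φ₁ (bc K₁ h) = 0)
    (hΦ₁0 : Φ₁ (bc K₁ (C h.leadingCoeff)) ≠ 0)
    (hΦ₁ : ∀ f, Φ₁ f = 0 → f.natDegree < (bc K₁ h).natDegree → f = 0)
    (hcl₁ : Subfield.closure (Set.range Φ₁) = ⊤) (hL₁ : Lan M₁ s L₁)
    (D : ℕ) (hD : ∀ p : ℕ, p.Prime → Nat.card (𝓞 K₁ →+* ZMod p) ≤ D) :
    ∃ p₀ : ℕ, ∀ p : ℕ, p.Prime → p₀ < p →
      Nat.card (𝓞 K₁ →+* ZMod p) * Nat.card (𝓞 L →+* ZMod p) ≤ Nat.card (𝓞 L₁ →+* ZMod p) := by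
  classical
  have hft : Algebra.FiniteType ℤ Φ.range := range_ft (ft_int _
    (Algebra.FiniteType.trans (S := MvPolynomial (Fin s) ℤ) inferInstance inferInstance)) Φ
  have hfr : IsFractionRing Φ.range M := range_frac Φ hcl
  have hft₁ : Algebra.FiniteType ℤ Φ₁.range := by
    have i1 : Algebra.FiniteType ℤ (MvPolynomial (Fin s) (𝓞 K₁)) :=
      Algebra.FiniteType.trans (S := 𝓞 K₁) inferInstance inferInstance
    exact range_ft (ft_int _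
      (Algebra.FiniteType.trans (S := MvPolynomial (Fin s) (𝓞 K₁)) i1 inferInstance)) Φ₁
  have hfr₁ : IsFractionRing Φ₁.range M₁ := range_frac Φ₁ hcl₁
  obtain ⟨c, N, hc, hN, hcount⟩ := hL Φ.range (Φ.rangeRestrict (C h.leadingCoeff))
    (fun h0 => hΦ0 (congrArg Subtype.val h0))
  obtain ⟨c₁, N₁, hc₁, hN₁, hcount₁⟩ := hL₁ Φ₁.range (Φ₁.rangeRestrict (bc K₁ (C h.leadingCoeff)))
    (fun h0 => hΦ₁0 (congrArg Subtype.val h0))
  refine ⟨N + N₁ + ⌈(c₁ + D * c) ^ 2⌉₊, fun p hpp hp => ?_⟩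
  have hpF : Fact p.Prime := ⟨hpp⟩
  have hNp : ((N : ℕ) : ZMod p) ≠ 0 := by
    rw [Ne, ZMod.natCast_eq_zero_iff]
    intro h0
    have := Nat.le_of_dvd (Nat.pos_of_ne_zero hN) h0
    omega
  have hNp₁ : ((N₁ : ℕ) : ZMod p) ≠ 0 := by
    rw [Ne, ZMod.natCast_eq_zero_iff]
    intro h0
    have := Nat.le_of_dvd (Nat.pos_of_ne_zero hN₁) h0
    omega
  have h1 := hcount (ZMod p) hNp
  have h2 := hcount₁ (ZMod p) hNp₁
  rw [Nat.card_zmod] at h1 h2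
  have h3 := pairs_le (p := p) hdeg Φ hΦh Φ₁ hΦ₁h hΦ₁
  have hpR : (0 : ℝ) < p := by exact_mod_cast hpp.pos
  have hs0 : 0 < √(p : ℝ) := Real.sqrt_pos.2 hpR
  have hps : 0 < (p : ℝ) ^ s := by positivity
  have hsq : c₁ + D * c < √(p : ℝ) := by
    apply Real.lt_sqrt_of_sq_lt
    refine lt_of_le_of_lt (Nat.le_ceil _) ?_
    exact_mod_cast (by omega : ⌈(c₁ + D * c) ^ 2⌉₊ < p)
  set n : ℝ := (Nat.card {φ : Φ.range →+* ZMod p //
    φ (Φ.rangeRestrict (C h.leadingCoeff)) ≠ 0} : ℝ) with hn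
  set n₁ : ℝ := (Nat.card {φ : Φ₁.range →+* ZMod p //
    φ (Φ₁.rangeRestrict (bc K₁ (C h.leadingCoeff))) ≠ 0} : ℝ) with hn₁
  have h3' : (Nat.card (𝓞 K₁ →+* ZMod p) : ℝ) * n ≤ n₁ := by
    rw [hn, hn₁]
    exact_mod_cast h3
  have hDp : (Nat.card (𝓞 K₁ →+* ZMod p) : ℝ) ≤ D := by exact_mod_cast hD p hpp
  have hK0 : (0 : ℝ) ≤ (Nat.card (𝓞 K₁ →+* ZMod p) : ℝ) := Nat.cast_nonneg _
  set k : ℝ := (Nat.card (𝓞 K₁ →+* ZMod p) : ℝ) with hk
  set l : ℝ := (Nat.card (𝓞 L →+* ZMod p) : ℝ) with hl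
  set l₁ : ℝ := (Nat.card (𝓞 L₁ →+* ZMod p) : ℝ) with hl₁
  have h4 : (l * (p : ℝ) ^ s - n) * √(p : ℝ) ≤ c * (p : ℝ) ^ s := by
    refine le_trans (mul_le_mul_of_nonneg_right ?_ hs0.le) h1
    rw [abs_sub_comm]
    exact le_abs_self _
  have h5 : (n₁ - l₁ * (p : ℝ) ^ s) * √(p : ℝ) ≤ c₁ * (p : ℝ) ^ s :=
    le_trans (mul_le_mul_of_nonneg_right (le_abs_self _) hs0.le) h2
  have h6 : (k * l - l₁) * (p : ℝ) ^ s * √(p : ℝ) ≤ (c₁ + D * c) * (p : ℝ) ^ s := by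
    have h7 : (k * l - l₁) * (p : ℝ) ^ s * √(p : ℝ) =
        k * ((l * (p : ℝ) ^ s - n) * √(p : ℝ)) + (k * n - n₁) * √(p : ℝ) +
          (n₁ - l₁ * (p : ℝ) ^ s) * √(p : ℝ) := by ring
    have h8 : k * ((l * (p : ℝ) ^ s - n) * √(p : ℝ)) ≤ D * (c * (p : ℝ) ^ s) :=
      (mul_le_mul_of_nonneg_left h4 hK0).trans
        (mul_le_mul_of_nonneg_right hDp (by positivity))
    have h9 : (k * n - n₁) * √(p : ℝ) ≤ 0 :=
      mul_nonpos_of_nonpos_of_nonneg (by linarith) hs0.le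
    rw [h7]
    nlinarith
  have h7 : k * l - l₁ < 1 := by
    by_contra hcon
    push Not at hcon
    have h8 : 1 * (p : ℝ) ^ s * √(p : ℝ) ≤ (k * l - l₁) * (p : ℝ) ^ s * √(p : ℝ) := by
      gcongr
    have h9 : (c₁ + D * c) * (p : ℝ) ^ s < √(p : ℝ) * (p : ℝ) ^ s :=
      mul_lt_mul_of_pos_right hsq hps
    nlinarith
  have h8 : ((Nat.card (𝓞 K₁ →+* ZMod p) * Nat.card (𝓞 L →+* ZMod p) : ℕ) : ℝ) <
      ((Nat.card (𝓞 L₁ →+* ZMod p) + 1 : ℕ) : ℝ) := by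
    push_cast
    rw [← hk, ← hl, ← hl₁]
    linarith
  have h9 : Nat.card (𝓞 K₁ →+* ZMod p) * Nat.card (𝓞 L →+* ZMod p) <
      Nat.card (𝓞 L₁ →+* ZMod p) + 1 := by exact_mod_cast h8
  omega

end Pool.Agent.P8H32.LW
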