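import Pool.Agent.P8H32.LW.Abs

/-!
# The field of constants of an absolutely irreducible hypersurface is `ℚ` (helper32)
-/

set_option autoImplicit false
set_option linter.all false

open Polynomial NumberField Filter Topology
open Pool.Agent.R410.LW Pool.Agent.R410.BS

namespace Pool.Agent.P8H32.LW

open Pool.Agent.R424.MP (ev CoprimeTo)
open Pool.Agent.N514.TH (evm)

theorem two_embeddings (L : Type) [Field L] [NumberField L] (h2 : 2 ≤ Module.finrank ℚ L) :
    ∃ (K₁ : Type) (_ : Field K₁) (_ : NumberField K₁) (i₁ i₂ : L →+* K₁) (θ : 𝓞 L),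
      i₁ (θ : L) ≠ i₂ (θ : L) := by
  classical
  let pb := Field.powerBasisOfFiniteOfSeparable ℚ L
  let K₁ := SplittingField (minpoly ℚ pb.gen)
  have hnf : NumberField K₁ := { to_charZero := inferInstance, to_finiteDimensional := inferInstance }
  have hc := AlgHom.card_of_powerBasis (L := K₁) pb (Algebra.IsSeparable.isSeparable ℚ pb.gen)
    (SplittingField.splits _)
  have hfin := pb.finrank
  rw [Fintype.card_eq_nat_card] at hc
  have h3 : 1 < Nat.card (L →ₐ[ℚ] K₁) := by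
    rw [hc]
    omega
  have hF : Finite (L →ₐ[ℚ] K₁) := Nat.finite_of_card_ne_zero (by omega)
  obtain ⟨i₁, i₂, hne⟩ := Finite.one_lt_card_iff_nontrivial.1 h3
  refine ⟨K₁, inferInstance, hnf, i₁, i₂, ?_⟩
  by_contra hcon
  push Not at hcon
  apply hne
  ext x
  obtain ⟨a, b, -, rfl⟩ := IsFractionRing.div_surjective (A := 𝓞 L) x
  have ha : i₁ (algebraMap (𝓞 L) L a) = i₂ (algebraMap (𝓞 L) L a) := hcon a
  have hb : i₁ (algebraMap (𝓞 L) L b) = i₂ (algebraMap (𝓞 L) L b) := hcon b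
  rw [map_div₀, map_div₀, ha, hb]

theorem hom_of_finrank_one (L : Type) [Field L] [NumberField L] (h1 : Module.finrank ℚ L = 1)
    (R : Type) [CommRing R] : Nonempty (𝓞 L →+* R) := by
  have h2 : (⊥ : IntermediateField ℚ L) = ⊤ := IntermediateField.bot_eq_top_iff_finrank_eq_one.2 h1
  have h3 : Function.Surjective (algebraMap ℚ L) := by
    intro x
    have hx : x ∈ (⊥ : IntermediateField ℚ L) := by
      rw [h2]
      trivial
    exact IntermediateField.mem_bot.1 hx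
  let e : ℚ ≃+* L := RingEquiv.ofBijective (algebraMap ℚ L) ⟨(algebraMap ℚ L).injective, h3⟩
  exact ⟨(Int.castRingHom R).comp (Rat.ringOfIntegersEquiv.toRingHom.comp
    (RingOfIntegers.mapRingEquiv e.symm).toRingHom)⟩

theorem finrank_one {s : ℕ} {h : (MvPolynomial (Fin s) ℤ)[X]} (hdeg : 0 < h.natDegree)
    (habs : AbsIrr h) {M : Type} [Field M] (Φ : (MvPolynomial (Fin s) ℤ)[X] →+* M) (hΦh : Φ h = 0)
    (hΦ0 : Φ (C h.leadingCoeff) ≠ 0) (hcl : Subfield.closure (Set.range Φ) = ⊤) (L : Type) [Field L]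
    [NumberField L] (hL : Lan M s L) : Module.finrank ℚ L = 1 := by
  classical
  by_contra hne
  have hpos : 0 < Module.finrank ℚ L := Module.finrank_pos
  obtain ⟨K₁, iK, nK, i₁, i₂, θ, hθ⟩ := two_embeddings L (by omega)
  obtain ⟨m, hm, htwo⟩ := Pool.Agent.H323R2.NT.two_homs L K₁ i₁ i₂ θ hθ
  have hd1 : (bc K₁ h).natDegree = h.natDegree := by
    unfold bc
    exact natDegree_map_eq_of_injective bc_inj h
  have hft : Algebra.FiniteType ℤ (𝓞 K₁) := inferInstance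
  have halg : Algebra.IsAlgebraic ℤ (𝓞 K₁) := inferInstance
  obtain ⟨M₁, iM, cM, Φ₁, hFG, htr, hΦ₁h, hΦ₁, hcl₁⟩ :=
    exists_model2 (𝓞 K₁) (bc K₁ h) (habs.2 K₁) (by rw [hd1]; exact hdeg)
  obtain ⟨L₁, iL, nL, hL₁⟩ := landau_all hFG htr
  have hlc : h.leadingCoeff ≠ 0 := by
    rw [Ne, leadingCoeff_eq_zero]
    rintro rfl
    rw [natDegree_zero] at hdeg
    exact lt_irrefl _ hdeg
  have hΦ₁0 : Φ₁ (bc K₁ (C h.leadingCoeff)) ≠ 0 := by
    intro h0
    have h1 := hΦ₁ _ h0 (by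
      rw [hd1]
      unfold bc
      rw [Polynomial.map_C, natDegree_C]
      exact hdeg)
    unfold bc at h1
    rw [Polynomial.map_C, C_eq_zero] at h1
    exact hlc (bc_inj (by rw [h1, map_zero]))
  obtain ⟨p₀, hp₀⟩ := hom_mul_le hdeg Φ hΦh hΦ0 hcl L hL Φ₁ hΦ₁h hΦ₁0 hΦ₁ hcl₁ hL₁
    (Module.finrank ℚ K₁) (fun p hp => by
      have := H332.PIT.hc_cast_le (K := K₁) hp
      exact_mod_cast this)
  have key : ∀ p : ℕ, p.Prime → max p₀ m < p →
      2 * (Nat.card (𝓞 K₁ →+* ZMod p) : ℝ) ≤ (Nat.card (𝓞 L₁ →+* ZMod p) : ℝ) := by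
    intro p hp hlt
    have hpF : Fact p.Prime := ⟨hp⟩
    have hfin : Finite (𝓞 K₁ →+* ZMod p) := finite_homs _ _
    have h1 := hp₀ p hp (lt_of_le_of_lt (le_max_left _ _) hlt)
    rcases isEmpty_or_nonempty (𝓞 K₁ →+* ZMod p) with hE | hN
    · rw [Nat.card_of_isEmpty]
      simp
    · have h2 : 2 ≤ Nat.card (𝓞 L →+* ZMod p) := by
        refine htwo p hp (fun h3 => ?_) hN
        have h4 := Nat.le_of_dvd (Nat.pos_of_ne_zero hm) h3
        have h5 := le_max_right p₀ m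
        omega
      have h3 : 2 * Nat.card (𝓞 K₁ →+* ZMod p) ≤ Nat.card (𝓞 L₁ →+* ZMod p) := by
        refine le_trans ?_ h1
        rw [mul_comm 2]
        exact Nat.mul_le_mul_left _ h2
      exact_mod_cast h3
  have hpitK := Pool.Agent.H484R2.pit K₁
  have hpitL := Pool.Agent.H484R2.pit L₁
  have hπ := Pool.Agent.H484R2.primeCounting_tendsto_real
  set B : ℝ := ∑ p ∈ (Finset.range (max p₀ m + 1)).filter Nat.Prime,
    2 * (Nat.card (𝓞 K₁ →+* ZMod p) : ℝ) with hB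
  have hsum : ∀ N : ℕ, 2 * ∑ p ∈ (Finset.range (N + 1)).filter Nat.Prime,
      (Nat.card (𝓞 K₁ →+* ZMod p) : ℝ) ≤
      ∑ p ∈ (Finset.range (N + 1)).filter Nat.Prime, (Nat.card (𝓞 L₁ →+* ZMod p) : ℝ) + B := by
    intro N
    rw [Finset.mul_sum]
    have h1 : ∀ p ∈ (Finset.range (N + 1)).filter Nat.Prime,
        2 * (Nat.card (𝓞 K₁ →+* ZMod p) : ℝ) ≤ (Nat.card (𝓞 L₁ →+* ZMod p) : ℝ) +
          (if p < max p₀ m + 1 then 2 * (Nat.card (𝓞 K₁ →+* ZMod p) : ℝ) else 0) := by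
      intro p hp
      have hpp := (Finset.mem_filter.1 hp).2
      by_cases hlt : p < max p₀ m + 1
      · rw [if_pos hlt]
        have : (0 : ℝ) ≤ (Nat.card (𝓞 L₁ →+* ZMod p) : ℝ) := Nat.cast_nonneg _
        linarith
      · rw [if_neg hlt, add_zero]
        exact key p hpp (by omega)
    refine (Finset.sum_le_sum h1).trans ?_
    rw [Finset.sum_add_distrib, ← Finset.sum_filter, hB]
    refine add_le_add le_rfl ?_
    refine Finset.sum_le_sum_of_subset_of_nonneg ?_ fun p _ _ => by positivity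
    intro p hp
    rw [Finset.mem_filter, Finset.mem_filter] at hp
    rw [Finset.mem_filter, Finset.mem_range]
    exact ⟨hp.2, hp.1.2⟩
  have hlim1 : Tendsto (fun N : ℕ => 2 * ((∑ p ∈ (Finset.range (N + 1)).filter Nat.Prime,
      (Nat.card (𝓞 K₁ →+* ZMod p) : ℝ)) / (Nat.primeCounting N : ℝ))) atTop (𝓝 (2 * 1)) :=
    hpitK.const_mul 2
  have hlim2 : Tendsto (fun N : ℕ => (∑ p ∈ (Finset.range (N + 1)).filter Nat.Prime,
      (Nat.card (𝓞 L₁ →+* ZMod p) : ℝ)) / (Nat.primeCounting N : ℝ) + B / (Nat.primeCounting N : ℝ))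
      atTop (𝓝 (1 + 0)) := hpitL.add (tendsto_const_nhds.div_atTop hπ)
  have hle := le_of_tendsto_of_tendsto hlim1 hlim2 (by
    filter_upwards [hπ.eventually_gt_atTop 0] with N hN
    rw [← add_div, mul_div_assoc', div_le_div_iff_of_pos_right hN]
    exact hsum N)
  norm_num at hle

/-- **Absolutely irreducible hypersurfaces have many points modulo all large primes.** -/
theorem abs_points {s : ℕ} {h G : (MvPolynomial (Fin s) ℤ)[X]} (hdeg : 0 < h.natDegree)
    (habs : AbsIrr h) (hG : CoprimeTo h G) :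
    ∃ p₀ : ℕ, ∀ (p : ℕ) [Fact p.Prime], p₀ < p →
      (p : ℝ) ^ s / 2 ≤
        (({ρ : Fin (s + 1) → ZMod p | evm p ρ h = 0 ∧ evm p ρ G ≠ 0}.ncard : ℕ) : ℝ) := by
  have halg : Algebra.IsAlgebraic ℤ ℤ := inferInstance
  obtain ⟨M, iM, cM, Φ, hFG, htr, hΦh, hΦ0, hcl⟩ := exists_model2 ℤ h habs.1 hdeg
  have hC : ∀ c : MvPolynomial (Fin s) ℤ, Φ (C c) = 0 → c = 0 := by
    intro c hc
    have h1 := hΦ0 (C c) hc (by rw [natDegree_C]; exact hdeg)
    rwa [C_eq_zero] at h1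
  obtain ⟨a, b, R, hR, hab⟩ := hG
  have hΦG : Φ G ≠ 0 := by
    intro h0
    have h1 := congrArg Φ hab
    rw [map_add, map_mul, map_mul, hΦh, h0, mul_zero, mul_zero, add_zero] at h1
    exact hR (hC R h1.symm)
  have hlc : h.leadingCoeff ≠ 0 := by
    rw [Ne, leadingCoeff_eq_zero]
    rintro rfl
    rw [natDegree_zero] at hdeg
    exact lt_irrefl _ hdeg
  obtain ⟨L, iL, nL, hL⟩ := landau_all hFG htr
  have hone := finrank_one hdeg habs Φ hΦh (fun h0 => hlc (hC _ h0)) hcl L hL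
  obtain ⟨p₀, hp₀⟩ := points_of Φ hΦh hΦG hcl L hL
  exact ⟨p₀, fun p _ hp => hp₀ p hp (hom_of_finrank_one L hone _)⟩

end Pool.Agent.P8H32.LW
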