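import Pool.Agent.P8H32.LW.Abs

/-!
# Gauss's lemma and coprimality for hypersurfaces given by polynomials in several variables (helper32)
-/

set_option autoImplicit false
set_option linter.all false

open Polynomial NumberField

namespace Pool.Agent.P8H32.LW

open Pool.Agent.R424.MP (ev CoprimeTo)

theorem irr_frac {s : ℕ} {k : Type} [Field k] {H : MvPolynomial (Fin (s + 1)) k}
    (hH : Irreducible H) (h0 : H.degreeOf 0 ≠ 0) :
    Irreducible ((MvPolynomial.finSuccEquiv k s H).map
      (algebraMap (MvPolynomial (Fin s) k) (FractionRing (MvPolynomial (Fin s) k)))) := by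
  have h1 : Irreducible (MvPolynomial.finSuccEquiv k s H) :=
    (MulEquiv.irreducible_iff (MvPolynomial.finSuccEquiv k s)).2 hH
  have h2 : (MvPolynomial.finSuccEquiv k s H).natDegree ≠ 0 := by
    rwa [MvPolynomial.natDegree_finSuccEquiv]
  have h3 := h1.isPrimitive h2
  letI : NormalizedGCDMonoid (MvPolynomial (Fin s) k) :=
    Classical.choice inferInstance
  exact (h3.irreducible_iff_irreducible_map_fraction_map).1 h1

theorem irr_desc {A B : Type} [CommRing A] [IsDomain A] [CommRing B] [IsDomain B] (ψ : A →+* B)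
    (hψ : Function.Injective ψ) {h : A[X]}
    (hi : Irreducible ((h.map ψ).map (algebraMap B (FractionRing B)))) :
    Irreducible (h.map (algebraMap A (FractionRing A))) := by
  let j : FractionRing A →+* FractionRing B := IsFractionRing.map hψ
  have hj : j.comp (algebraMap A (FractionRing A)) = (algebraMap B (FractionRing B)).comp ψ :=
    IsLocalization.map_comp _
  have h1 : (h.map (algebraMap A (FractionRing A))).map j =
      (h.map ψ).map (algebraMap B (FractionRing B)) := by
    rw [Polynomial.map_map, Polynomial.map_map, hj]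
  have hloc : IsLocalHom (mapRingHom j) := ⟨fun a ha => (Polynomial.isUnit_map j).1 ha⟩
  refine Irreducible.of_map (f := mapRingHom j) ?_
  rw [coe_mapRingHom, h1]
  exact hi

theorem fse_map {s : ℕ} {R S : Type} [CommRing R] [CommRing S] (φ : R →+* S)
    (f : MvPolynomial (Fin (s + 1)) R) :
    (MvPolynomial.finSuccEquiv R s f).map (MvPolynomial.map φ) =
      MvPolynomial.finSuccEquiv S s (MvPolynomial.map φ f) := by
  have h : (mapRingHom (MvPolynomial.map φ)).comp
      (RingHomClass.toRingHom (MvPolynomial.finSuccEquiv R s)) =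
      (RingHomClass.toRingHom (MvPolynomial.finSuccEquiv S s)).comp (MvPolynomial.map φ) := by
    refine MvPolynomial.ringHom_ext ?_ ?_
    · intro r
      simp [MvPolynomial.finSuccEquiv_apply]
    · intro i
      refine Fin.cases ?_ (fun i => ?_) i
      · simp [MvPolynomial.finSuccEquiv_X_zero]
      · simp [MvPolynomial.finSuccEquiv_X_succ]
  exact RingHom.congr_fun h f

theorem degreeOf_map {σ : Type} {R S : Type} [CommRing R] [CommRing S] (φ : R →+* S)
    (hφ : Function.Injective φ) (f : MvPolynomial σ R) (i : σ) :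
    (MvPolynomial.map φ f).degreeOf i = f.degreeOf i := by
  classical
  rw [MvPolynomial.degreeOf_def, MvPolynomial.degreeOf_def, MvPolynomial.degrees_map_of_injective f hφ]

/-- absolutely irreducible polynomials in several variables -/
theorem absIrr_of {s : ℕ} {f : MvPolynomial (Fin (s + 1)) ℤ}
    (hf : Irreducible (f.map (Int.castRingHom (AlgebraicClosure ℚ)))) (h0 : f.degreeOf 0 ≠ 0) :
    AbsIrr (MvPolynomial.finSuccEquiv ℤ s f) := by
  have hk : ∀ (O : Type) [CommRing O] [IsDomain O] (φ : O →+* AlgebraicClosure ℚ),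
      Function.Injective φ → Irreducible (((MvPolynomial.finSuccEquiv ℤ s f).map
        (MvPolynomial.map (Int.castRingHom O))).map
        (algebraMap (MvPolynomial (Fin s) O) (FractionRing (MvPolynomial (Fin s) O)))) := by
    intro O _ _ φ hφ
    refine irr_desc (MvPolynomial.map φ) (MvPolynomial.map_injective φ hφ) ?_
    have e : φ.comp (Int.castRingHom O) = Int.castRingHom (AlgebraicClosure ℚ) := RingHom.ext_int _ _
    have e' : (MvPolynomial.map (σ := Fin s) φ).comp (MvPolynomial.map (Int.castRingHom O)) =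
        MvPolynomial.map (Int.castRingHom (AlgebraicClosure ℚ)) := by
      refine RingHom.ext fun x => ?_
      rw [RingHom.comp_apply, MvPolynomial.map_map, e]
    rw [Polynomial.map_map (MvPolynomial.map (Int.castRingHom O)) (MvPolynomial.map φ), e', fse_map]
    refine irr_frac hf ?_
    rwa [degreeOf_map _ (RingHom.injective_int _)]
  refine ⟨?_, fun K₁ _ _ => ?_⟩
  · have h1 := hk ℤ (Int.castRingHom _) (RingHom.injective_int _)
    have e : MvPolynomial.map (σ := Fin s) (Int.castRingHom ℤ) = RingHom.id _ := by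
      rw [RingHom.ext_int (Int.castRingHom ℤ) (RingHom.id ℤ)]
      exact RingHom.ext fun x => MvPolynomial.map_id x
    rw [e, Polynomial.map_id] at h1
    exact h1
  · let i : K₁ →ₐ[ℚ] AlgebraicClosure ℚ := IsAlgClosed.lift
    have h1 := hk (𝓞 K₁) ((i : K₁ →+* AlgebraicClosure ℚ).comp (algebraMap (𝓞 K₁) K₁))
      ((i : K₁ →+* AlgebraicClosure ℚ).injective.comp RingOfIntegers.coe_injective)
    exact h1

/-- a nonzero multiple of a polynomial over the fraction field has integral coefficients -/
theorem clear_den {A : Type} [CommRing A] [IsDomain A] (q : (FractionRing A)[X]) :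
    ∃ (r : A) (q' : A[X]), r ≠ 0 ∧ q'.map (algebraMap A (FractionRing A)) =
      C (algebraMap A (FractionRing A) r) * q := by
  obtain ⟨r, hr, h⟩ := IsLocalization.integerNormalization_spec (nonZeroDivisors A) q
  refine ⟨r, IsLocalization.integerNormalization (nonZeroDivisors A) q, nonZeroDivisors.ne_zero hr, ?_⟩
  rw [h]
  ext i
  rw [coeff_smul, coeff_C_mul, Algebra.smul_def]

theorem fse_rename {s : ℕ} {R : Type} [CommRing R] (r : MvPolynomial (Fin s) R) :
    MvPolynomial.finSuccEquiv R s (MvPolynomial.rename Fin.succ r) = C r := by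
  induction r using MvPolynomial.induction_on with
  | C a => simp [MvPolynomial.finSuccEquiv_apply]
  | add p q hp hq => rw [map_add, map_add, hp, hq, C_add]
  | mul_X p i hp =>
    rw [map_mul, map_mul, hp, MvPolynomial.rename_X, MvPolynomial.finSuccEquiv_X_succ, C_mul]

/-- coprimality over the field of rational functions -/
theorem cop_frac {s : ℕ} {h g : (MvPolynomial (Fin s) ℤ)[X]}
    (hirr : Irreducible (h.map (algebraMap (MvPolynomial (Fin s) ℤ)
      (FractionRing (MvPolynomial (Fin s) ℤ)))))
    (hnd : ¬ h.map (algebraMap (MvPolynomial (Fin s) ℤ) (FractionRing (MvPolynomial (Fin s) ℤ))) ∣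
      g.map (algebraMap (MvPolynomial (Fin s) ℤ) (FractionRing (MvPolynomial (Fin s) ℤ)))) :
    CoprimeTo h g := by
  set A := MvPolynomial (Fin s) ℤ with hA
  set K := FractionRing A with hK
  have hinj : Function.Injective (algebraMap A K) := IsFractionRing.injective A K
  obtain ⟨a, b, hab⟩ := (hirr.coprime_iff_not_dvd (n := g.map (algebraMap A K))).2 hnd
  obtain ⟨r, a', hr, ha'⟩ := clear_den a
  obtain ⟨t, b', ht, hb'⟩ := clear_den b
  refine ⟨C t * a', C r * b', r * t, mul_ne_zero hr ht, ?_⟩
  apply Polynomial.map_injective _ hinj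
  rw [Polynomial.map_add, Polynomial.map_mul, Polynomial.map_mul, Polynomial.map_mul,
    Polynomial.map_mul, ha', hb', Polynomial.map_C, Polynomial.map_C, Polynomial.map_C, map_mul, C_mul]
  linear_combination (C (algebraMap A K r) * C (algebraMap A K t)) * hab

theorem irr_K {s : ℕ} {f : MvPolynomial (Fin (s + 1)) ℤ}
    (hf : Irreducible (f.map (Int.castRingHom ℚ))) (h0 : f.degreeOf 0 ≠ 0) :
    Irreducible ((MvPolynomial.finSuccEquiv ℤ s f).map (algebraMap (MvPolynomial (Fin s) ℤ)
      (FractionRing (MvPolynomial (Fin s) ℤ)))) := by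
  have hZ : Function.Injective (Int.castRingHom ℚ) := RingHom.injective_int _
  refine irr_desc (MvPolynomial.map (Int.castRingHom ℚ)) (MvPolynomial.map_injective _ hZ) ?_
  rw [fse_map]
  refine irr_frac hf ?_
  rwa [degreeOf_map _ hZ]

/-- irreducible polynomials over `ℚ` and coprimality -/
theorem cop_of {s : ℕ} {f g : MvPolynomial (Fin (s + 1)) ℤ}
    (hf : Irreducible (f.map (Int.castRingHom ℚ))) (h0 : f.degreeOf 0 ≠ 0)
    (hg : ¬ f.map (Int.castRingHom ℚ) ∣ g.map (Int.castRingHom ℚ)) :
    CoprimeTo (MvPolynomial.finSuccEquiv ℤ s f) (MvPolynomial.finSuccEquiv ℤ s g) := by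
  have hZ : Function.Injective (Int.castRingHom ℚ) := RingHom.injective_int _
  refine cop_frac (irr_K hf h0) ?_
  have hinj : Function.Injective (algebraMap (MvPolynomial (Fin s) ℤ)
    (FractionRing (MvPolynomial (Fin s) ℤ))) := IsFractionRing.injective _ _
  rintro ⟨q, hq⟩
  obtain ⟨r, q', hr, hq'⟩ := clear_den q
  have h1 : MvPolynomial.finSuccEquiv ℤ s f * q' = C r * MvPolynomial.finSuccEquiv ℤ s g := by
    apply Polynomial.map_injective _ hinj
    rw [Polynomial.map_mul, Polynomial.map_mul, hq', hq, Polynomial.map_C]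
    ring
  have h2 : f * (MvPolynomial.finSuccEquiv ℤ s).symm q' =
      MvPolynomial.rename Fin.succ r * g := by
    apply (MvPolynomial.finSuccEquiv ℤ s).injective
    rw [map_mul, map_mul, AlgEquiv.apply_symm_apply, fse_rename]
    exact h1
  have h3 : f.map (Int.castRingHom ℚ) ∣
      (MvPolynomial.rename Fin.succ r).map (Int.castRingHom ℚ) * g.map (Int.castRingHom ℚ) := by
    rw [← map_mul, ← h2, map_mul]
    exact dvd_mul_right _ _
  rcases hf.prime.dvd_or_dvd h3 with h4 | h4
  · have h5 : (MvPolynomial.rename Fin.succ r).map (Int.castRingHom ℚ) ≠ 0 := by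
      intro h6
      have h7 := MvPolynomial.map_injective _ hZ (h6.trans (map_zero _).symm)
      exact hr (MvPolynomial.rename_injective _ (Fin.succ_injective _)
        (h7.trans (map_zero _).symm))
    obtain ⟨t, h6⟩ := h4
    have ht : t ≠ 0 := by
      rintro rfl
      rw [mul_zero] at h6
      exact h5 h6
    have h8 := congrArg (MvPolynomial.degreeOf 0) h6
    rw [MvPolynomial.degreeOf_mul_eq hf.ne_zero ht, degreeOf_map _ hZ, degreeOf_map _ hZ] at h8
    have h7 : (MvPolynomial.rename Fin.succ r).degreeOf 0 = 0 := by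
      rw [← MvPolynomial.natDegree_finSuccEquiv, fse_rename, natDegree_C]
    omega
  · exact hg h4

/-- irreducible polynomials are coprime to their derivatives -/
theorem cop_deriv {s : ℕ} {f : MvPolynomial (Fin (s + 1)) ℤ}
    (hf : Irreducible (f.map (Int.castRingHom ℚ))) (h0 : f.degreeOf 0 ≠ 0) :
    CoprimeTo (MvPolynomial.finSuccEquiv ℤ s f) (derivative (MvPolynomial.finSuccEquiv ℤ s f)) := by
  have h1 := irr_K hf h0
  have hinj : Function.Injective (algebraMap (MvPolynomial (Fin s) ℤ)
    (FractionRing (MvPolynomial (Fin s) ℤ))) := IsFractionRing.injective _ _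
  refine cop_frac h1 ?_
  have hnd : ((MvPolynomial.finSuccEquiv ℤ s f).map (algebraMap (MvPolynomial (Fin s) ℤ)
      (FractionRing (MvPolynomial (Fin s) ℤ)))).natDegree ≠ 0 := by
    rw [natDegree_map_eq_of_injective hinj, MvPolynomial.natDegree_finSuccEquiv]
    exact h0
  have hch : CharZero (FractionRing (MvPolynomial (Fin s) ℤ)) :=
    charZero_of_injective_algebraMap hinj
  rw [← Polynomial.derivative_map]
  intro hd
  have h2 := Polynomial.natDegree_derivative_lt hnd
  have h3 : derivative ((MvPolynomial.finSuccEquiv ℤ s f).map (algebraMap (MvPolynomial (Fin s) ℤ)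
      (FractionRing (MvPolynomial (Fin s) ℤ)))) ≠ 0 := by
    intro h4
    exact hnd (Polynomial.natDegree_eq_zero_of_derivative_eq_zero h4)
  have h4 := Polynomial.natDegree_le_of_dvd hd h3
  omega

end Pool.Agent.P8H32.LW
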