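import Pool.Agent.P8H32.LW.Pro
import Pool.Agent.P8H32.LW.Gauss

/-!
# Prime divisors of the values of ARBITRARY irreducible polynomials in several variables (helper32)
-/

set_option autoImplicit false
set_option linter.all false

namespace Pool.Agent.P8H32.LW

open MvPolynomial
open Pool.Agent.R424.MP (ev CoprimeTo)
open Pool.Agent.N514.TH (Ok)
open Pool.Agent.N24.RW

theorem ev_fse {s : ℕ} (z : Fin (s + 1) → ℤ) (f : MvPolynomial (Fin (s + 1)) ℤ) :
    ev (z 0) (fun i => z i.succ) (finSuccEquiv ℤ s f) = eval z f := by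
  have e : z = (Fin.cons (z 0) (fun i => z i.succ) : Fin (s + 1) → ℤ) := by
    funext i
    refine Fin.cases ?_ (fun i => ?_) i
    · rfl
    · rfl
  conv_rhs => rw [e]
  rw [eval_eq_eval_mv_eval', Polynomial.eval_map]
  rfl

section
variable {ι : Type} [Fintype ι]

theorem exists_var {f : MvPolynomial ι ℤ} (hf : Irreducible (f.map (Int.castRingHom ℚ))) :
    ∃ l : ι, f.degreeOf l ≠ 0 := by
  by_contra hcon
  push Not at hcon
  have h1 : f.totalDegree = 0 := by
    rw [totalDegree_eq_zero_iff]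
    intro m hm i
    have h2 := monomial_le_degreeOf i hm
    rw [hcon i] at h2
    omega
  rw [totalDegree_eq_zero_iff_eq_C] at h1
  rw [h1, map_C] at hf
  by_cases h2 : (Int.castRingHom ℚ) (coeff 0 f) = 0
  · rw [h2, map_zero] at hf
    exact hf.ne_zero rfl
  · exact hf.not_isUnit ((isUnit_iff_ne_zero.2 h2).map C)

theorem exists_perm (l : ι) : ∃ (s : ℕ) (σ : Fin (s + 1) ≃ ι), σ 0 = l := by
  classical
  have : Nonempty ι := ⟨l⟩
  obtain ⟨s, hs⟩ := Nat.exists_eq_succ_of_ne_zero (Fintype.card_ne_zero (α := ι))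
  let e : Fin (s + 1) ≃ ι := (Fintype.equivFinOfCardEq hs).symm
  refine ⟨s, (Equiv.swap 0 (e.symm l)).trans e, ?_⟩
  simp

theorem ren_irr {s : ℕ} (σ : Fin (s + 1) ≃ ι) {k : Type} [Field k] {f : MvPolynomial ι ℤ}
    (hf : Irreducible (f.map (Int.castRingHom k))) :
    Irreducible ((rename σ.symm f).map (Int.castRingHom k)) := by
  rw [map_rename]
  exact (MulEquiv.irreducible_iff (renameEquiv k σ.symm)).2 hf

theorem ren_dvd {s : ℕ} (σ : Fin (s + 1) ≃ ι) {k : Type} [Field k] {f g : MvPolynomial ι ℤ}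
    (hf : ¬ f.map (Int.castRingHom k) ∣ g.map (Int.castRingHom k)) :
    ¬ (rename σ.symm f).map (Int.castRingHom k) ∣ (rename σ.symm g).map (Int.castRingHom k) := by
  rw [map_rename, map_rename]
  intro h
  apply hf
  have h1 := map_dvd (renameEquiv k σ) h
  have h2 : ∀ x : MvPolynomial ι k, renameEquiv k σ (rename σ.symm x) = x := by
    intro x
    rw [renameEquiv_apply, rename_rename]
    simp
  rw [h2, h2] at h1
  exact h1

theorem ren_deg {s : ℕ} {σ : Fin (s + 1) ≃ ι} {l : ι} (hσ : σ 0 = l) (f : MvPolynomial ι ℤ) :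
    (rename σ.symm f).degreeOf 0 = f.degreeOf l := by
  have h : σ.symm l = 0 := by
    rw [← hσ, Equiv.symm_apply_apply]
  rw [← h]
  exact degreeOf_rename_of_injective σ.symm.injective l

theorem ren_eval {s : ℕ} (σ : Fin (s + 1) ≃ ι) (c : ι → ℤ) (f : MvPolynomial ι ℤ) :
    eval (fun i => c (σ i)) (rename σ.symm f) = eval c f := by
  rw [eval_rename]
  congr 1
  congr 1
  funext i
  simp

/-- **Arbitrary hypersurfaces**: outside a pronull set the values of `f` have prime divisors above `D`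
which do not divide the value of `G`. -/
theorem gen_null {f G : MvPolynomial ι ℤ} (hf : Irreducible (f.map (Int.castRingHom ℚ)))
    (hG : ¬ f.map (Int.castRingHom ℚ) ∣ G.map (Int.castRingHom ℚ)) (D : ℕ) :
    ProNull {v : ι → ℤ | ¬ (eval v f ≠ 0 ∧ ∃ p : ℕ, p.Prime ∧ (p : ℤ) ∣ eval v f ∧ D < p ∧
      ¬ (p : ℤ) ∣ eval v G)} := by
  obtain ⟨l, hl⟩ := exists_var hf
  obtain ⟨s, σ, hσ⟩ := exists_perm l
  have hd : (rename σ.symm f).degreeOf 0 ≠ 0 := by rwa [ren_deg hσ]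
  have hdeg : 0 < (finSuccEquiv ℤ s (rename σ.symm f)).natDegree := by
    rw [natDegree_finSuccEquiv]
    exact Nat.pos_of_ne_zero hd
  have h1 := badD_null hdeg (cop_of (ren_irr σ hf) hd (ren_dvd σ hG)) D
  refine Clo.mono ?_ (Clo.pull (f := σ) σ.injective h1)
  intro v hv
  change (fun i => v (σ i)) ∈ BadD _ _ _
  unfold BadD
  rw [Set.mem_ofPred_eq] at hv ⊢
  intro hcon
  apply hv
  have e : ∀ g : MvPolynomial ι ℤ, ev (v (σ 0)) (fun i => v (σ i.succ))
      (finSuccEquiv ℤ s (rename σ.symm g)) = eval v g := by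
    intro g
    rw [← ren_eval σ v g]
    exact ev_fse (fun i => v (σ i)) _
  rw [e, e] at hcon
  exact hcon

/-- **Arbitrary hypersurfaces, exact divisibility.** -/
theorem gen_exact {f G : MvPolynomial ι ℤ} (hf : Irreducible (f.map (Int.castRingHom ℚ)))
    (hG : ¬ f.map (Int.castRingHom ℚ) ∣ G.map (Int.castRingHom ℚ)) (D : ℕ) :
    ProNull {v : ι → ℤ | ¬ ∃ p : ℕ, p.Prime ∧ D < p ∧ (p : ℤ) ∣ eval v f ∧
      ¬ (p : ℤ) ^ 2 ∣ eval v f ∧ ¬ (p : ℤ) ∣ eval v G} := by
  obtain ⟨l, hl⟩ := exists_var hf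
  obtain ⟨s, σ, hσ⟩ := exists_perm l
  have hd : (rename σ.symm f).degreeOf 0 ≠ 0 := by rwa [ren_deg hσ]
  have hdeg : 0 < (finSuccEquiv ℤ s (rename σ.symm f)).natDegree := by
    rw [natDegree_finSuccEquiv]
    exact Nat.pos_of_ne_zero hd
  have h1 := badE_null hdeg (cop_deriv (ren_irr σ hf) hd)
    (cop_of (ren_irr σ hf) hd (ren_dvd σ hG)) D
  refine Clo.mono ?_ (Clo.pull (f := σ) σ.injective h1)
  intro v hv
  change (fun i => v (σ i)) ∈ BadE _ _ _
  unfold BadE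
  rw [Set.mem_ofPred_eq] at hv ⊢
  rintro ⟨p, hp, hD, hOk⟩
  apply hv
  have e : ∀ g : MvPolynomial ι ℤ, ev (v (σ 0)) (fun i => v (σ i.succ))
      (finSuccEquiv ℤ s (rename σ.symm g)) = eval v g := by
    intro g
    rw [← ren_eval σ v g]
    exact ev_fse (fun i => v (σ i)) _
  unfold Ok at hOk
  rw [e, e] at hOk
  exact ⟨p, hp, hD, hOk.1, hOk.2.1, hOk.2.2⟩

/-- a common denominator of the coefficients -/
theorem clear_coeff (A : MvPolynomial ι ℚ) : ∃ (d : ℤ) (A' : MvPolynomial ι ℤ), d ≠ 0 ∧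
    A'.map (Int.castRingHom ℚ) = C (d : ℚ) * A := by
  classical
  induction A using MvPolynomial.induction_on with
  | C a =>
    refine ⟨a.den, C a.num, by exact_mod_cast a.den_ne_zero, ?_⟩
    rw [map_C, ← C_mul]
    congr 1
    change ((a.num : ℤ) : ℚ) = _
    push_cast
    rw [Rat.den_mul_eq_num]
  | add p q hp hq =>
    obtain ⟨d, A', h1, h2⟩ := hp
    obtain ⟨d', B', h1', h2'⟩ := hq
    refine ⟨d * d', C d' * A' + C d * B', mul_ne_zero h1 h1', ?_⟩
    rw [map_add, map_mul, map_mul, h2, h2', map_C, map_C]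
    change C ((d' : ℤ) : ℚ) * _ + C ((d : ℤ) : ℚ) * _ = _
    push_cast
    rw [C_mul]
    ring
  | mul_X p i hp =>
    obtain ⟨d, A', h1, h2⟩ := hp
    refine ⟨d, A' * X i, h1, ?_⟩
    rw [map_mul, h2, map_X]
    ring

/-- `e` is the exact order of the polynomial `c` along the hypersurface `f = 0`: `f ^ e` divides `c` over
`ℚ`, and `f ^ (e + 1)` does not. -/
def OrderAlong (f c : MvPolynomial ι ℤ) (e : ℕ) : Prop :=
  f.map (Int.castRingHom ℚ) ^ e ∣ c.map (Int.castRingHom ℚ) ∧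
    ¬ f.map (Int.castRingHom ℚ) ^ (e + 1) ∣ c.map (Int.castRingHom ℚ)

theorem OrderAlong.exists_cofactor {f c : MvPolynomial ι ℤ} {e : ℕ} (h : OrderAlong f c e) :
    ∃ (d : ℤ) (g : MvPolynomial ι ℤ), d ≠ 0 ∧ C d * c = f ^ e * g ∧
      ¬ f.map (Int.castRingHom ℚ) ∣ g.map (Int.castRingHom ℚ) := by
  obtain ⟨⟨G, hG⟩, h2⟩ := h
  obtain ⟨d, g, hd, hg⟩ := clear_coeff G
  have hC : (C (d : ℚ) : MvPolynomial ι ℚ) = (C d : MvPolynomial ι ℤ).map (Int.castRingHom ℚ) := by
    rw [map_C]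
    rfl
  refine ⟨d, g, hd, ?_, fun h3 => h2 ?_⟩
  · apply map_injective (Int.castRingHom ℚ) (RingHom.injective_int _)
    rw [map_mul (MvPolynomial.map (Int.castRingHom ℚ)) (C d) c,
      map_mul (MvPolynomial.map (Int.castRingHom ℚ)) (f ^ e) g, ← hC, hG, hg, map_pow]
    ring
  · rw [hg] at h3
    have hu : IsUnit (C (d : ℚ) : MvPolynomial ι ℚ) :=
      (isUnit_iff_ne_zero.2 (Int.cast_ne_zero.2 hd)).map C
    rw [hu.dvd_mul_left] at h3
    rw [hG, pow_succ]
    exact mul_dvd_mul_left _ h3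

end

end Pool.Agent.P8H32.LW
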