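import Pool.Agent.P8H32.LW.AbsL
import Pool.Agent.P8H32.LW.Gen
import Pool.Agent.P8H32.CV.Prin

/-!
# Exact prime divisors in given sets of primes of the values of polynomials with an absolutely
# irreducible simple factor (helper32)
-/

set_option autoImplicit false
set_option linter.all false

namespace Pool.Agent.P8H32.LW

open MvPolynomial
open Pool.Agent.R424.MP (ev CoprimeTo)
open Pool.Agent.N514.TH (evm Ok Om mem_Om)
open Pool.Agent.N24.RW
open Pool.Agent.N676.OR (DensityZero Big Hit)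

/-- **Many residue classes modulo ALL large primes**: `h` absolutely irreducible, `G` coprime to `h`. -/
theorem abs_exact {s : ℕ} {h G : Polynomial (MvPolynomial (Fin s) ℤ)} (hdeg : 0 < h.natDegree)
    (habs : AbsIrr h) (hsq : CoprimeTo h (Polynomial.derivative h)) (hG : CoprimeTo h G) :
    ∃ p₀ : ℕ, ∀ (p : ℕ) [Fact p.Prime], p₀ < p →
      1 / 4 * (1 / (p : ℝ)) * (((p ^ 2 : ℕ) : ℝ) ^ (s + 1)) ≤ (((Om h G p).ncard : ℕ) : ℝ) := by
  obtain ⟨p₀, hp₀⟩ := abs_points hdeg habs (cop_mul hsq hG)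
  refine ⟨p₀, fun p hpF hp => ?_⟩
  have h1 := hp₀ p hp
  have h2 := card_lift (p := p) h G
  have hpp := hpF.out
  have hp1 : 1 ≤ p := hpp.one_lt.le
  have hpR : (0 : ℝ) < p := by exact_mod_cast hpp.pos
  have hp2 : (2 : ℝ) ≤ p := by exact_mod_cast hpp.two_le
  set n : ℕ := {ρ : Fin (s + 1) → ZMod p | evm p ρ h = 0 ∧
    evm p ρ (Polynomial.derivative h * G) ≠ 0}.ncard with hn
  have h3 : (n : ℝ) * (p : ℝ) ^ s * ((p : ℝ) - 1) ≤ (((Om h G p).ncard : ℕ) : ℝ) := by
    have h4 : (((n * p ^ s * (p - 1) : ℕ) : ℕ) : ℝ) ≤ (((Om h G p).ncard : ℕ) : ℝ) := by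
      exact_mod_cast h2
    rw [Nat.cast_mul, Nat.cast_mul, Nat.cast_sub hp1, Nat.cast_one, Nat.cast_pow] at h4
    exact h4
  refine le_trans ?_ h3
  have e : (1 : ℝ) / 4 * (1 / p) * ((p ^ 2 : ℕ) : ℝ) ^ (s + 1) =
      ((p : ℝ) ^ s / 2) * (p : ℝ) ^ s * (p / 2) := by
    push_cast
    rw [pow_succ, ← pow_mul, mul_comm 2 s, pow_mul]
    field_simp
    ring
  rw [e]
  have h5 : (p : ℝ) / 2 ≤ (p : ℝ) - 1 := by linarith
  have h6 : 0 ≤ (p : ℝ) - 1 := by linarith
  gcongr

/-- the vectors at which no prime of `P` above `D` divides `h` exactly once and does not divide `G` -/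
theorem absE_null {s : ℕ} {h G : Polynomial (MvPolynomial (Fin s) ℤ)} (hdeg : 0 < h.natDegree)
    (habs : AbsIrr h) (hsq : CoprimeTo h (Polynomial.derivative h)) (hG : CoprimeTo h G)
    {P : Set ℕ} (hP : Big P) :
    ProNull {z : Fin (s + 1) → ℤ | ¬ ∃ p ∈ P, p.Prime ∧ Ok h G p z} := by
  classical
  obtain ⟨p₀, hp₀⟩ := abs_exact hdeg habs hsq hG
  set w : ℕ → ℝ := fun p => if p ∈ P then 1 / 4 * (1 / (p : ℝ)) else 0 with hw
  have hns : ¬ Summable (fun p : ℕ => if p.Prime then w p else 0) := by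
    intro hsum
    have h1 := hsum.mul_left 4
    have h2 : Set.indicator {p : ℕ | p.Prime ∧ p ∈ P} (fun p : ℕ => 1 / (p : ℝ)) =
        fun p : ℕ => 4 * (if p.Prime then w p else 0) := by
      funext p
      by_cases h : p.Prime
      · by_cases h' : p ∈ P
        · rw [Set.indicator_of_mem (show p ∈ {p : ℕ | p.Prime ∧ p ∈ P} from ⟨h, h'⟩), if_pos h, hw]
          simp only [h', if_true]
          ring
        · rw [Set.indicator_of_notMem (show p ∉ {p : ℕ | p.Prime ∧ p ∈ P} from fun h3 => h' h3.2),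
            if_pos h, hw]
          simp [h']
      · rw [Set.indicator_of_notMem (show p ∉ {p : ℕ | p.Prime ∧ p ∈ P} from fun h3 => h h3.1),
          if_neg h, mul_zero]
    apply hP
    rw [h2]
    exact h1
  have h1 := t_CRIT (Fin (s + 1)) (fun p => p ^ 2) (fun p hp => Nat.one_le_pow _ _ hp.pos)
    (fun p p' hp hp' hne => Nat.Coprime.pow 2 2 ((Nat.coprime_primes hp hp').2 hne))
    (fun p => if p ∈ P then Om h G p else ∅) p₀ w
    (fun p => by
      simp only [hw]
      split_ifs <;> positivity) hns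
    (fun p hp hlt => by
      have : Fact p.Prime := ⟨hp⟩
      by_cases hpP : p ∈ P
      · simp only [hw, hpP, if_true]
        rw [Fintype.card_fin]
        exact hp₀ p hlt
      · simp [hw, hpP])
  refine Clo.mono ?_ h1
  intro z hz p hp hlt hin
  apply hz
  by_cases hpP : p ∈ P
  · rw [if_pos hpP] at hin
    exact ⟨p, hpP, hp, (mem_Om h G p hp.one_lt.le z).1 hin⟩
  · rw [if_neg hpP] at hin
    exact absurd hin (Set.notMem_empty _)

section
variable {ι : Type} [Fintype ι]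

/-- irreducibility over `ℚ` from irreducibility over the algebraic closure -/
theorem irrQ_of {f : MvPolynomial ι ℤ}
    (hf : Irreducible (f.map (Int.castRingHom (AlgebraicClosure ℚ)))) :
    Irreducible (f.map (Int.castRingHom ℚ)) := by
  let j : ℚ →+* AlgebraicClosure ℚ := algebraMap ℚ (AlgebraicClosure ℚ)
  have hj : (f.map (Int.castRingHom ℚ)).map j = f.map (Int.castRingHom (AlgebraicClosure ℚ)) := by
    rw [map_map]
    congr 1
  have hloc : IsLocalHom (MvPolynomial.map (σ := ι) j) := by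
    refine ⟨fun a ha => ?_⟩
    rw [isUnit_iff_totalDegree_of_isReduced] at ha ⊢
    refine ⟨?_, ?_⟩
    · have h1 := ha.1
      rw [coeff_map, isUnit_iff_ne_zero] at h1
      rw [isUnit_iff_ne_zero]
      intro h2
      rw [h2, map_zero] at h1
      exact h1 rfl
    · rw [← ha.2, totalDegree, totalDegree, support_map_of_injective a j.injective]
  refine Irreducible.of_map (f := MvPolynomial.map (σ := ι) j) ?_
  rw [hj]
  exact hf

/-- **Exact prime divisors in a given set**: `f` absolutely irreducible, `G` not divisible by `f`. -/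
theorem abs_null {f G : MvPolynomial ι ℤ}
    (hf : Irreducible (f.map (Int.castRingHom (AlgebraicClosure ℚ))))
    (hG : ¬ f.map (Int.castRingHom ℚ) ∣ G.map (Int.castRingHom ℚ)) {P : Set ℕ} (hP : Big P) :
    ProNull {v : ι → ℤ | ¬ ∃ p ∈ P, p.Prime ∧ (p : ℤ) ∣ eval v f ∧
      ¬ (p : ℤ) ^ 2 ∣ eval v f ∧ ¬ (p : ℤ) ∣ eval v G} := by
  have hfQ := irrQ_of hf
  obtain ⟨l, hl⟩ := exists_var hfQ
  obtain ⟨s, σ, hσ⟩ := exists_perm l
  have hd : (rename σ.symm f).degreeOf 0 ≠ 0 := by rwa [ren_deg hσ]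
  have hdeg : 0 < (finSuccEquiv ℤ s (rename σ.symm f)).natDegree := by
    rw [natDegree_finSuccEquiv]
    exact Nat.pos_of_ne_zero hd
  have h1 := absE_null hdeg (absIrr_of (ren_irr σ hf) hd) (cop_deriv (ren_irr σ hfQ) hd)
    (cop_of (ren_irr σ hfQ) hd (ren_dvd σ hG)) hP
  refine Clo.mono ?_ (Clo.pull (f := σ) σ.injective h1)
  intro v hv
  rw [Set.mem_ofPred_eq] at hv ⊢
  rintro ⟨p, hpP, hp, hOk⟩
  apply hv
  have e : ∀ g : MvPolynomial ι ℤ, ev (v (σ 0)) (fun i => v (σ i.succ))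
      (finSuccEquiv ℤ s (rename σ.symm g)) = eval v g := by
    intro g
    rw [← ren_eval σ v g]
    exact ev_fse (fun i => v (σ i)) _
  unfold Ok at hOk
  rw [e, e] at hOk
  exact ⟨p, hpP, hp, hOk.1, hOk.2.1, hOk.2.2⟩

/-- The polynomial `F` with integral coefficients has an absolutely irreducible factor of
multiplicity one: `F = H G` over `ℚ`, where `H` is irreducible over the algebraic closure of `ℚ` and does
not divide `G`. -/
def AbsFactor (F : MvPolynomial ι ℤ) : Prop :=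
  ∃ H G : MvPolynomial ι ℚ, Irreducible (H.map (algebraMap ℚ (AlgebraicClosure ℚ))) ∧
    F.map (Int.castRingHom ℚ) = H * G ∧ ¬ H ∣ G

theorem pro_hit_abs {P : Set ℕ} (hP : Big P) {F : MvPolynomial ι ℤ} (hF : AbsFactor F) :
    ProNull {c : ι → ℤ | ¬ Hit P (eval c F)} := by
  obtain ⟨H, G, hH, hFG, hHG⟩ := hF
  obtain ⟨d₁, H₁, hd₁, e₁⟩ := clear_coeff H
  obtain ⟨d₂, G₁, hd₂, e₂⟩ := clear_coeff G
  have hu : ∀ {d : ℤ}, d ≠ 0 → IsUnit (C (d : ℚ) : MvPolynomial ι ℚ) := fun {d} hd =>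
    (isUnit_iff_ne_zero.2 (Int.cast_ne_zero.2 hd)).map C
  have hirr : Irreducible (H₁.map (Int.castRingHom (AlgebraicClosure ℚ))) := by
    have h1 : H₁.map (Int.castRingHom (AlgebraicClosure ℚ)) =
        (H₁.map (Int.castRingHom ℚ)).map (algebraMap ℚ (AlgebraicClosure ℚ)) := by
      rw [map_map]
      congr 1
    rw [h1, e₁, map_mul]
    exact (irreducible_isUnit_mul ((hu hd₁).map _)).2 hH
  have hnd : ¬ H₁.map (Int.castRingHom ℚ) ∣ (C d₁ * C d₂ * G₁).map (Int.castRingHom ℚ) := by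
    rw [e₁, map_mul, map_mul, e₂, map_C, map_C]
    intro h3
    have h4 : C ((Int.castRingHom ℚ) d₁) = (C (d₁ : ℚ) : MvPolynomial ι ℚ) := rfl
    have h5 : C ((Int.castRingHom ℚ) d₂) = (C (d₂ : ℚ) : MvPolynomial ι ℚ) := rfl
    rw [h4, h5, (hu hd₁).mul_left_dvd, ((hu hd₁).mul (hu hd₂)).dvd_mul_left, (hu hd₂).dvd_mul_left] at h3
    exact hHG h3
  have key : C (d₁ * d₂) * F = H₁ * G₁ := by
    apply map_injective (Int.castRingHom ℚ) (RingHom.injective_int _)
    rw [map_mul (MvPolynomial.map (Int.castRingHom ℚ)) (C (d₁ * d₂)) F,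
      map_mul (MvPolynomial.map (Int.castRingHom ℚ)) H₁ G₁, e₁, e₂, hFG, map_C]
    change C ((d₁ * d₂ : ℤ) : ℚ) * _ = _
    push_cast
    rw [C_mul]
    ring
  refine Clo.mono ?_ (abs_null hirr hnd hP)
  intro c hc
  rw [Set.mem_ofPred_eq] at hc ⊢
  rintro ⟨p, hpP, hp, h1, h2, h3⟩
  apply hc
  have hpp : Prime (p : ℤ) := Nat.prime_iff_prime_int.1 hp
  have h4 : d₁ * d₂ * eval c F = eval c H₁ * eval c G₁ := by
    have h4' := congrArg (eval c) key
    rw [map_mul (eval c) (C (d₁ * d₂)) F, map_mul (eval c) H₁ G₁, eval_C] at h4'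
    exact h4'
  rw [map_mul, map_mul, eval_C, eval_C] at h3
  have h5 : ¬ (p : ℤ) ∣ d₁ * d₂ := fun h => h3 (h.mul_right _)
  have h6 : ¬ (p : ℤ) ∣ eval c G₁ := fun h => h3 (h.mul_left _)
  refine ⟨p, hpP, hp, ?_, fun h7 => h2 ?_⟩
  · have h7 : (p : ℤ) ∣ d₁ * d₂ * eval c F := by
      rw [h4]
      exact h1.mul_right _
    exact (hpp.dvd_or_dvd h7).resolve_left h5
  · have h8 : (p : ℤ) ^ 2 ∣ eval c H₁ * eval c G₁ := by
      rw [← h4]
      exact h7.mul_left _
    have hco : IsCoprime ((p : ℤ) ^ 2) (eval c G₁) :=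
      IsCoprime.pow_left ((Prime.coprime_iff_not_dvd hpp).2 h6)
    exact hco.dvd_of_dvd_mul_right h8

/-- finitely many sets of primes -/
theorem pro_hits_abs {PP : Set (Set ℕ)} (hf : PP.Finite) (hP : ∀ P ∈ PP, Big P)
    {F : MvPolynomial ι ℤ} (hF : AbsFactor F) :
    ProNull {c : ι → ℤ | ¬ ∀ P ∈ PP, Hit P (eval c F)} := by
  classical
  have hne : Nonempty ι := by
    obtain ⟨H, G, hH, hFG, hHG⟩ := hF
    by_contra h0
    rw [not_nonempty_iff] at h0
    have h1 : H.map (algebraMap ℚ (AlgebraicClosure ℚ)) =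
        C (coeff 0 (H.map (algebraMap ℚ (AlgebraicClosure ℚ)))) := eq_C_of_isEmpty _
    rw [h1] at hH
    by_cases h2 : coeff 0 (H.map (algebraMap ℚ (AlgebraicClosure ℚ))) = 0
    · rw [h2, map_zero] at hH
      exact hH.ne_zero rfl
    · exact hH.not_isUnit ((isUnit_iff_ne_zero.2 h2).map C)
  induction PP, hf using Set.Finite.induction_on with
  | empty =>
    refine Clo.mono (B := ∅) ?_ (Clo.finite Set.finite_empty)
    intro c hc
    exact absurd (fun P hP => absurd hP (Set.notMem_empty _)) hc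
  | @insert P QQ _ _ ih =>
    refine Clo.mono ?_ (Clo.union (pro_hit_abs (hP P (Set.mem_insert _ _)) hF)
      (ih fun Q hQ => hP Q (Set.mem_insert_of_mem _ hQ)))
    intro c hc
    by_cases h1 : Hit P (eval c F)
    · right
      intro h2
      apply hc
      intro Q hQ
      rcases Set.mem_insert_iff.1 hQ with rfl | hQ
      · exact h1
      · exact h2 Q hQ
    · left
      exact h1

end

end Pool.Agent.P8H32.LW
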