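import Pool.Agent.P8H32.LW.Pts

/-!
# Residue classes modulo `p ^ 2` for which an arbitrary squarefree polynomial is divisible exactly by `p`
# and a coprime polynomial is not divisible by `p` (helper32)
-/

set_option autoImplicit false
set_option linter.all false

open Polynomial NumberField

namespace Pool.Agent.P8H32.LW

open Pool.Agent.R424.MP (ev CoprimeTo)
open Pool.Agent.N514.TH (evm evm_map Om Ok pr dvd_val_iff dig pr_dig dig_inj isUnit_of_pr)

theorem cop_mul {s : ℕ} {h g₁ g₂ : (MvPolynomial (Fin s) ℤ)[X]} (h₁ : CoprimeTo h g₁)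
    (h₂ : CoprimeTo h g₂) : CoprimeTo h (g₁ * g₂) := by
  obtain ⟨a₁, b₁, R₁, hR₁, e₁⟩ := h₁
  obtain ⟨a₂, b₂, R₂, hR₂, e₂⟩ := h₂
  refine ⟨a₁ * a₂ * h + a₁ * b₂ * g₂ + a₂ * b₁ * g₁, b₁ * b₂, R₁ * R₂, mul_ne_zero hR₁ hR₂, ?_⟩
  rw [C_mul, ← e₁, ← e₂]
  ring

section
variable {s p : ℕ} [hp : Fact p.Prime]

theorem evm_cons (t : Fin s → ZMod (p ^ 2)) (x : ZMod (p ^ 2)) (f : (MvPolynomial (Fin s) ℤ)[X]) :
    evm (p ^ 2) (Fin.cons x t : Fin (s + 1) → ZMod (p ^ 2)) f =
      (f.map (MvPolynomial.eval₂Hom (Int.castRingHom (ZMod (p ^ 2))) t)).eval x := by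
  rw [Polynomial.eval_map]
  rfl

/-- at most one lift of the first coordinate is a zero modulo `p ^ 2` -/
theorem lift_unique (h : (MvPolynomial (Fin s) ℤ)[X]) (t : Fin s → ZMod (p ^ 2)) (z w w' : ZMod p)
    (hd : pr p (evm (p ^ 2) (Fin.cons (dig p z w) t : Fin (s + 1) → ZMod (p ^ 2)) (derivative h)) ≠ 0)
    (h1 : evm (p ^ 2) (Fin.cons (dig p z w) t : Fin (s + 1) → ZMod (p ^ 2)) h = 0)
    (h2 : evm (p ^ 2) (Fin.cons (dig p z w') t : Fin (s + 1) → ZMod (p ^ 2)) h = 0) : w = w' := by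
  rw [evm_cons] at h1 h2 hd
  rw [← derivative_map] at hd
  set g := h.map (MvPolynomial.eval₂Hom (Int.castRingHom (ZMod (p ^ 2))) t) with hg
  set x := dig p z w with hx
  set y := dig p z w' - dig p z w with hy
  have hy2 : y ^ 2 = 0 := by
    have e : y = (p : ZMod (p ^ 2)) * ((w'.val : ZMod (p ^ 2)) - (w.val : ZMod (p ^ 2))) := by
      rw [hy]
      unfold Pool.Agent.N514.TH.dig
      push_cast
      ring
    have e2 : (p : ZMod (p ^ 2)) ^ 2 = 0 := by
      have := ZMod.natCast_self (p ^ 2)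
      exact_mod_cast this
    rw [e, mul_pow, e2, zero_mul]
  have h3 := Polynomial.eval_add_of_sq_eq_zero g x y hy2
  have e3 : x + y = dig p z w' := by rw [hx, hy]; ring
  rw [e3, h2, h1, zero_add] at h3
  have h4 := isUnit_of_pr _ hd
  have h5 : y = 0 := by
    calc y = (eval x (derivative g) * (eval x (derivative g))⁻¹) * y := by rw [h4, one_mul]
      _ = (eval x (derivative g))⁻¹ * (eval x (derivative g) * y) := by ring
      _ = 0 := by rw [← h3, mul_zero]
  have h6 : dig p z w' = dig p z w := sub_eq_zero.1 h5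
  exact (dig_inj h6).2.symm

theorem card_lift (h G : (MvPolynomial (Fin s) ℤ)[X]) :
    ({ρ : Fin (s + 1) → ZMod p | evm p ρ h = 0 ∧ evm p ρ (derivative h * G) ≠ 0}.ncard) * p ^ s *
      (p - 1) ≤ (Om h G p).ncard := by
  classical
  have : NeZero (p ^ 2) := ⟨pow_ne_zero _ hp.out.ne_zero⟩
  set S : Set (Fin (s + 1) → ZMod p) :=
    {ρ | evm p ρ h = 0 ∧ evm p ρ (derivative h * G) ≠ 0} with hS
  let S' : Finset (Fin (s + 1) → ZMod p) := S.toFinite.toFinset
  have hS' : ∀ ρ, ρ ∈ S' ↔ ρ ∈ S := fun ρ => Set.Finite.mem_toFinset _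
  let F : (Fin (s + 1) → ZMod p) × (Fin s → ZMod p) × ZMod p → (Fin (s + 1) → ZMod (p ^ 2)) :=
    fun q => Fin.cons (dig p (q.1 0) q.2.2) (fun i => dig p (q.1 i.succ) (q.2.1 i))
  have hF0 : ∀ q, F q 0 = dig p (q.1 0) q.2.2 := fun q => rfl
  have hFs : ∀ q (i : Fin s), F q i.succ = dig p (q.1 i.succ) (q.2.1 i) := fun q i => rfl
  have hpr : ∀ q, (fun i => pr p (F q i)) = q.1 := by
    intro q
    funext i
    refine Fin.cases ?_ (fun i => ?_) i
    · rw [hF0, pr_dig]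
    · rw [hFs, pr_dig]
  have hred : ∀ q (f : (MvPolynomial (Fin s) ℤ)[X]), pr p (evm (p ^ 2) (F q) f) = evm p q.1 f := by
    intro q f
    rw [evm_map (p ^ 2) p (pr p) (F q) f, hpr]
  have hinj : Function.Injective F := by
    intro q q' hq
    have h0 := congrFun hq 0
    rw [hF0, hF0] at h0
    have h1 : ∀ i : Fin s, dig p (q.1 i.succ) (q.2.1 i) = dig p (q'.1 i.succ) (q'.2.1 i) := by
      intro i
      have := congrFun hq i.succ
      rwa [hFs, hFs] at this
    have e1 : q.1 = q'.1 := by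
      funext i
      refine Fin.cases ?_ (fun i => ?_) i
      · exact (dig_inj h0).1
      · exact (dig_inj (h1 i)).1
    have e2 : q.2.1 = q'.2.1 := funext fun i => (dig_inj (h1 i)).2
    have e3 : q.2.2 = q'.2.2 := (dig_inj h0).2
    exact Prod.ext e1 (Prod.ext e2 e3)
  let all : Finset ((Fin (s + 1) → ZMod p) × (Fin s → ZMod p) × ZMod p) :=
    S' ×ˢ (Finset.univ ×ˢ Finset.univ)
  have hall : all.card = S.ncard * (p ^ s * p) := by
    rw [Finset.card_product, Finset.card_product, Finset.card_univ, Finset.card_univ, ZMod.card,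
      Fintype.card_fun, Fintype.card_fin, ZMod.card, Set.ncard_eq_toFinset_card S S.toFinite]
  have hgood : (all.filter fun q => evm (p ^ 2) (F q) h ≠ 0).card ≤ (Om h G p).ncard := by
    rw [← Set.ncard_coe_finset]
    refine Set.ncard_le_ncard_of_injOn F ?_ hinj.injOn (Set.toFinite _)
    intro q hq
    rw [Finset.mem_coe, Finset.mem_filter] at hq
    obtain ⟨hq1, hq2⟩ := hq
    have hqS := (hS' _).1 (Finset.mem_product.1 hq1).1
    refine ⟨?_, ?_, ?_⟩
    · rw [dvd_val_iff, hred]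
      exact hqS.1
    · rw [Ne, ZMod.val_eq_zero]
      exact hq2
    · rw [dvd_val_iff, hred]
      have h1 := hqS.2
      rw [map_mul] at h1
      exact right_ne_zero_of_mul h1
  have hbad : (all.filter fun q => ¬ evm (p ^ 2) (F q) h ≠ 0).card ≤ S.ncard * p ^ s := by
    have e : (S' ×ˢ (Finset.univ : Finset (Fin s → ZMod p))).card = S.ncard * p ^ s := by
      rw [Finset.card_product, Finset.card_univ, Fintype.card_fun, Fintype.card_fin, ZMod.card,
        Set.ncard_eq_toFinset_card S S.toFinite]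
    rw [← e]
    refine Finset.card_le_card_of_injOn (fun q => (q.1, q.2.1)) ?_ ?_
    · intro q hq
      rw [Finset.mem_coe, Finset.mem_filter] at hq
      rw [Finset.mem_coe, Finset.mem_product]
      exact ⟨(Finset.mem_product.1 hq.1).1, Finset.mem_univ _⟩
    · rintro ⟨ρ, v, w⟩ hq ⟨ρ', v', w'⟩ hq' heq
      have e1 : ρ = ρ' := congrArg Prod.fst heq
      have e2 : v = v' := congrArg Prod.snd heq
      subst e1
      subst e2
      rw [Finset.mem_coe, Finset.mem_filter, not_not] at hq hq'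
      obtain ⟨hq1, hq2⟩ := hq
      obtain ⟨hq1', hq2'⟩ := hq'
      have hqS := (hS' _).1 (Finset.mem_product.1 hq1).1
      have hd : pr p (evm (p ^ 2) (F (ρ, v, w)) (derivative h)) ≠ 0 := by
        rw [hred]
        have h1 := hqS.2
        rw [map_mul] at h1
        exact left_ne_zero_of_mul h1
      have e3 : w = w' := lift_unique h (fun i => dig p (ρ i.succ) (v i)) (ρ 0) w w' hd hq2 hq2'
      rw [e3]
  have hsum := Finset.card_filter_add_card_filter_not (s := all)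
    (fun q => evm (p ^ 2) (F q) h ≠ 0)
  rw [hall] at hsum
  have h1 : 1 ≤ p := hp.out.one_lt.le
  have h2 : S.ncard * p ^ s * (p - 1) + S.ncard * p ^ s = S.ncard * (p ^ s * p) := by
    obtain ⟨q, rfl⟩ : ∃ q, p = q + 1 := ⟨p - 1, by omega⟩
    simp only [Nat.add_sub_cancel]
    ring
  omega

end

/-- **Many residue classes**: `h` any squarefree polynomial of positive degree in `t_0`, `G` coprime to
`h`. -/
theorem many_exact {s : ℕ} {h G : (MvPolynomial (Fin s) ℤ)[X]} (hdeg : 0 < h.natDegree)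
    (hsq : CoprimeTo h (derivative h)) (hG : CoprimeTo h G) :
    ∃ (L : Type) (_ : Field L) (_ : NumberField L) (p₀ : ℕ), ∀ (p : ℕ) [Fact p.Prime], p₀ < p →
      Nonempty (𝓞 L →+* ZMod p) →
      1 / 4 * (1 / (p : ℝ)) * (((p ^ 2 : ℕ) : ℝ) ^ (s + 1)) ≤ (((Om h G p).ncard : ℕ) : ℝ) := by
  obtain ⟨L, iL, nL, p₀, hp₀⟩ := many_points hdeg (cop_mul hsq hG)
  refine ⟨L, iL, nL, p₀, fun p hpF hp hne => ?_⟩
  have h1 := hp₀ p hp hne
  have h2 := card_lift (p := p) h G
  have hpp := hpF.out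
  have hp1 : 1 ≤ p := hpp.one_lt.le
  have hpR : (0 : ℝ) < p := by exact_mod_cast hpp.pos
  have hp2 : (2 : ℝ) ≤ p := by exact_mod_cast hpp.two_le
  set n : ℕ := {ρ : Fin (s + 1) → ZMod p | evm p ρ h = 0 ∧ evm p ρ (derivative h * G) ≠ 0}.ncard
    with hn
  have h3 : (n : ℝ) * (p : ℝ) ^ s * ((p : ℝ) - 1) ≤ (((Om h G p).ncard : ℕ) : ℝ) := by
    have h4 : (((n * p ^ s * (p - 1) : ℕ) : ℕ) : ℝ) ≤ (((Om h G p).ncard : ℕ) : ℝ) := by
      exact_mod_cast h2
    rw [Nat.cast_mul, Nat.cast_mul, Nat.cast_sub hp1, Nat.cast_one, Nat.cast_pow] at h4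
    exact h4
  refine le_trans ?_ h3
  have e : (1 : ℝ) / 4 * (1 / p) * ((p ^ 2 : ℕ) : ℝ) ^ (s + 1) =
      ((p : ℝ) ^ s / 2) * (p : ℝ) ^ s * (p / 2) := by
    push_cast
    rw [pow_succ, ← pow_mul, mul_comm 2 s, pow_mul]
    field_simp
    ring
  rw [e]
  have h5 : (p : ℝ) / 2 ≤ (p : ℝ) - 1 := by linarith
  have h6 : 0 ≤ (p : ℝ) - 1 := by linarith
  gcongr

end Pool.Agent.P8H32.LW
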