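import Pool.Agent.R410.BS.Pln
import Pool.Agent.R424.MP.Cnt

/-!
# The function field of a factor of a polynomial in `t_0` over `ℤ[t_1, …, t_s]` (helper32)
-/

set_option autoImplicit false
set_option linter.all false

open Polynomial
open Pool.Agent.R410.LW

namespace Pool.Agent.P8H32.LW

theorem trdeg_aux {s : ℕ} {R M : Type} [CommRing R] [IsDomain R] [Field M] [CharZero M] [Algebra R M]
    [FaithfulSMul R M] [Algebra.IsAlgebraic R M] (hR : Algebra.trdeg ℤ R = s) :
    Algebra.trdeg ℚ M = s := by
  have : CharZero R := ⟨fun a b h => by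
    have h1 := congrArg (algebraMap R M) h
    rw [map_natCast, map_natCast] at h1
    exact Nat.cast_injective h1⟩
  have e3 := trdeg_add_eq ℤ R (A := M)
  have e2 : Algebra.trdeg R M = 0 := trdeg_eq_zero_iff.2 inferInstance
  have e5 := trdeg_add_eq ℤ ℚ (A := M)
  have e4 : Algebra.trdeg ℤ ℚ = 0 := by
    have : Algebra.IsAlgebraic ℤ ℚ :=
      IsLocalization.isAlgebraic (R := ℤ) (S := ℚ) (nonZeroDivisors ℤ)
    exact trdeg_eq_zero_iff.2 this
  rw [e4, zero_add] at e5
  rw [e5, ← e3, hR, e2, add_zero]

/-- For a polynomial `h` of positive degree in the first variable: a field `M` of transcendence degree `s`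
over `ℚ` generated by a zero `(θ, t_1, …, t_s)` of `h` with algebraically independent `t_i`. -/
theorem exists_model {s : ℕ} (h : (MvPolynomial (Fin s) ℤ)[X]) (hdeg : 0 < h.natDegree) :
    ∃ (M : Type) (_ : Field M) (_ : CharZero M) (Φ : (MvPolynomial (Fin s) ℤ)[X] →+* M),
      FG M ∧ Algebra.trdeg ℚ M = s ∧ Φ h = 0 ∧
        (∀ c : MvPolynomial (Fin s) ℤ, Φ (C c) = 0 → c = 0) ∧
        Subfield.closure (Set.range Φ) = ⊤ := by
  classical
  let R := MvPolynomial (Fin s) ℤ
  let K := FractionRing R
  have hinjR : Function.Injective (algebraMap R K) := IsFractionRing.injective R K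
  set hK : K[X] := h.map (algebraMap R K) with hhK
  have hdK : 0 < hK.natDegree := by
    rw [hhK, natDegree_map_eq_of_injective hinjR]
    exact hdeg
  obtain ⟨π, hπ, hπd⟩ := exists_irreducible_of_natDegree_pos hdK
  haveI : Fact (Irreducible π) := ⟨hπ⟩
  let M := AdjoinRoot π
  have hc : CharZero K := charZero_of_injective_algebraMap (R := R) (A := K) hinjR
  have hcM : CharZero M := charZero_of_injective_algebraMap (algebraMap K M).injective
  let Φ : R[X] →+* M := (AdjoinRoot.mk π).comp (mapRingHom (algebraMap R K))
  have hΦC : ∀ c : R, Φ (C c) = algebraMap K M (algebraMap R K c) := by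
    intro c
    show AdjoinRoot.mk π ((C c).map (algebraMap R K)) = _
    rw [Polynomial.map_C]
    rfl
  have hΦinj : ∀ c : R, Φ (C c) = 0 → c = 0 := by
    intro c hc0
    rw [hΦC, map_eq_zero] at hc0
    exact (map_eq_zero_iff _ hinjR).1 hc0
  have hclos : Subfield.closure (Set.range Φ) = ⊤ := by
    rw [eq_top_iff]
    intro z _
    obtain ⟨q, rfl⟩ := AdjoinRoot.mk_surjective z
    have hK' : ∀ k : K, AdjoinRoot.mk π (C k) ∈ Subfield.closure (Set.range Φ) := by
      intro k
      obtain ⟨a, b, -, rfl⟩ := IsFractionRing.div_surjective (A := R) k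
      have e : AdjoinRoot.mk π (C (algebraMap R K a / algebraMap R K b)) = Φ (C a) / Φ (C b) := by
        rw [hΦC, hΦC]
        exact map_div₀ (algebraMap K M) (algebraMap R K a) (algebraMap R K b)
      rw [e]
      exact div_mem (Subfield.subset_closure ⟨_, rfl⟩) (Subfield.subset_closure ⟨_, rfl⟩)
    have hX : AdjoinRoot.mk π X ∈ Subfield.closure (Set.range Φ) := by
      have e : AdjoinRoot.mk π X = Φ X := by
        show _ = AdjoinRoot.mk π (X.map (algebraMap R K))
        rw [Polynomial.map_X]
      rw [e]
      exact Subfield.subset_closure ⟨_, rfl⟩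
    induction q using Polynomial.induction_on' with
    | add p q hp hq => rw [map_add]; exact add_mem (hp trivial) (hq trivial)
    | monomial n a =>
      rw [← C_mul_X_pow_eq_monomial, map_mul, map_pow]
      exact mul_mem (hK' a) (pow_mem hX n)
  refine ⟨M, inferInstance, hcM, Φ, ?_, ?_, ?_, hΦinj, hclos⟩
  · -- finitely generated
    refine ⟨insert (Φ X) (Finset.univ.image fun i : Fin s => Φ (C (MvPolynomial.X i))), ?_⟩
    rw [eq_top_iff, ← hclos, Subfield.closure_le]
    rintro _ ⟨f, rfl⟩
    set T := Subfield.closure ((insert (Φ X) (Finset.univ.image fun i : Fin s =>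
      Φ (C (MvPolynomial.X i))) : Finset M) : Set M) with hT
    have hc1 : ∀ c : R, Φ (C c) ∈ T := by
      intro c
      induction c using MvPolynomial.induction_on with
      | C a =>
        have e : Φ (C (MvPolynomial.C a)) = ((a : ℤ) : M) := by
          exact eq_intCast (Φ.comp (C.comp MvPolynomial.C)) a
        rw [e]
        exact intCast_mem T a
      | add p q hp hq => rw [C_add, map_add]; exact add_mem hp hq
      | mul_X p i hp =>
        rw [C_mul, map_mul]
        refine mul_mem hp (Subfield.subset_closure ?_)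
        rw [Finset.mem_coe, Finset.mem_insert, Finset.mem_image]
        exact Or.inr ⟨i, Finset.mem_univ _, rfl⟩
    show Φ f ∈ T
    induction f using Polynomial.induction_on' with
    | add p q hp hq => rw [map_add]; exact add_mem hp hq
    | monomial n a =>
      rw [← C_mul_X_pow_eq_monomial, map_mul, map_pow]
      refine mul_mem (hc1 a) (pow_mem (Subfield.subset_closure ?_) n)
      rw [Finset.mem_coe, Finset.mem_insert]
      exact Or.inl rfl
  · -- the transcendence degree
    have hst : IsScalarTower R K M := inferInstance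
    have hinjM : Function.Injective (algebraMap R M) := by
      rw [IsScalarTower.algebraMap_eq R K M]
      exact (algebraMap K M).injective.comp hinjR
    have hfs : FaithfulSMul R M := (faithfulSMul_iff_algebraMap_injective _ _).2 hinjM
    have hπ0 : π ≠ 0 := hπ.ne_zero
    have hfin : FiniteDimensional K M := (AdjoinRoot.powerBasis hπ0).finite
    have h1 : Algebra.IsAlgebraic R K := IsLocalization.isAlgebraic (R := R) (S := K) (nonZeroDivisors R)
    have h2 : Algebra.IsAlgebraic K M := inferInstance
    have h3 : Algebra.IsAlgebraic R M := Algebra.IsAlgebraic.trans R K M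
    have e1 : Algebra.trdeg ℤ R = s := by
      rw [MvPolynomial.trdeg_of_isDomain]
      simp
    exact trdeg_aux e1
  · -- the zero
    obtain ⟨q, hq⟩ := hπd
    show AdjoinRoot.mk π hK = 0
    rw [AdjoinRoot.mk_eq_zero]
    exact ⟨q, hq⟩

end Pool.Agent.P8H32.LW
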