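import Pool.Agent.P8H32.LW.Model

/-!
# The function field of an irreducible polynomial in `t_0` over `O[t_1, …, t_s]`, `O` a ring of integers, and
# division with remainder after multiplication with powers of the leading coefficient (helper32)
-/

set_option autoImplicit false
set_option linter.all false

open Polynomial
open Pool.Agent.R410.LW

namespace Pool.Agent.P8H32.LW

/-- division with remainder -/
theorem pdiv {B : Type} [CommRing B] [IsDomain B] (h : B[X]) (hd : 0 < h.natDegree) :
    ∀ (n : ℕ) (f : B[X]), f.natDegree ≤ n →
      ∃ (m : ℕ) (q r : B[X]), C (h.leadingCoeff ^ m) * f = h * q + r ∧ r.natDegree < h.natDegree := by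
  intro n
  induction n with
  | zero =>
    intro f hf
    exact ⟨0, 0, f, by simp, by omega⟩
  | succ n ih =>
    intro f hf
    by_cases hlt : f.natDegree < h.natDegree
    · exact ⟨0, 0, f, by simp, hlt⟩
    push Not at hlt
    have hh0 : h ≠ 0 := by
      rintro rfl
      rw [natDegree_zero] at hd
      exact lt_irrefl _ hd
    set g : B[X] := C h.leadingCoeff * f - C f.leadingCoeff * X ^ (f.natDegree - h.natDegree) * h
      with hg
    have hg1 : g.natDegree ≤ n := by
      by_cases hg0 : g = 0
      · rw [hg0, natDegree_zero]
        exact Nat.zero_le _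
      have h1 : g.natDegree ≤ f.natDegree := by
        rw [hg]
        refine (natDegree_sub_le _ _).trans (max_le (natDegree_C_mul_le _ _) ?_)
        refine (natDegree_mul_le).trans ?_
        have := natDegree_C_mul_X_pow_le f.leadingCoeff (f.natDegree - h.natDegree)
        omega
      have h2 : g.coeff f.natDegree = 0 := by
        rw [hg, coeff_sub, coeff_C_mul, mul_assoc, coeff_C_mul]
        have h3 : (X ^ (f.natDegree - h.natDegree) * h).coeff f.natDegree = h.leadingCoeff := by
          have h4 : f.natDegree = h.natDegree + (f.natDegree - h.natDegree) := by omega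
          conv_lhs => rw [h4]
          rw [← h4, coeff_X_pow_mul']
          rw [if_pos (Nat.sub_le _ _)]
          have h5 : f.natDegree - (f.natDegree - h.natDegree) = h.natDegree := by omega
          rw [h5]
          rfl
        rw [h3]
        change h.leadingCoeff * f.leadingCoeff - f.leadingCoeff * h.leadingCoeff = 0
        ring
      have h3 : g.natDegree ≠ f.natDegree := by
        intro h4
        have h5 : g.leadingCoeff = 0 := by
          rw [leadingCoeff, h4]
          exact h2
        exact hg0 (leadingCoeff_eq_zero.1 h5)
      omega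
    obtain ⟨m, q, r, h1, h2⟩ := ih g hg1
    refine ⟨m + 1, q + C (h.leadingCoeff ^ m) * (C f.leadingCoeff *
      X ^ (f.natDegree - h.natDegree)), r, ?_, h2⟩
    have h3 : C (h.leadingCoeff ^ (m + 1)) * f = C (h.leadingCoeff ^ m) * g +
        C (h.leadingCoeff ^ m) * (C f.leadingCoeff * X ^ (f.natDegree - h.natDegree)) * h := by
      rw [hg, pow_succ, C_mul]
      ring
    rw [h3, h1]
    ring

/-- The function field of `h` over `O[t_1, …, t_s]`. -/
theorem exists_model2 {s : ℕ} (O : Type) [CommRing O] [IsDomain O] [CharZero O]
    [Algebra.FiniteType ℤ O] [Algebra.IsAlgebraic ℤ O] (h : (MvPolynomial (Fin s) O)[X])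
    (hirr : Irreducible (h.map (algebraMap (MvPolynomial (Fin s) O)
      (FractionRing (MvPolynomial (Fin s) O))))) (hdeg : 0 < h.natDegree) :
    ∃ (M : Type) (_ : Field M) (_ : CharZero M) (Φ : (MvPolynomial (Fin s) O)[X] →+* M),
      FG M ∧ Algebra.trdeg ℚ M = s ∧ Φ h = 0 ∧
        (∀ f, Φ f = 0 → f.natDegree < h.natDegree → f = 0) ∧
        Subfield.closure (Set.range Φ) = ⊤ := by
  classical
  let R := MvPolynomial (Fin s) O
  let K := FractionRing R
  have hinjR : Function.Injective (algebraMap R K) := IsFractionRing.injective R K
  set π : K[X] := h.map (algebraMap R K) with hhK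
  haveI : Fact (Irreducible π) := ⟨hirr⟩
  let M := AdjoinRoot π
  have hcR : CharZero R := charZero_of_injective_algebraMap (R := O) (A := R) (MvPolynomial.C_injective _ _)
  have hc : CharZero K := charZero_of_injective_algebraMap (R := R) (A := K) hinjR
  have hcM : CharZero M := charZero_of_injective_algebraMap (algebraMap K M).injective
  let Φ : R[X] →+* M := (AdjoinRoot.mk π).comp (mapRingHom (algebraMap R K))
  have hΦ0 : ∀ f, Φ f = 0 → f.natDegree < h.natDegree → f = 0 := by
    intro f hf hlt
    have h1 : AdjoinRoot.mk π (f.map (algebraMap R K)) = 0 := hf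
    rw [AdjoinRoot.mk_eq_zero] at h1
    have h2 : f.map (algebraMap R K) = 0 := by
      by_contra h3
      have h4 := natDegree_le_of_dvd h1 h3
      rw [hhK, natDegree_map_eq_of_injective hinjR, natDegree_map_eq_of_injective hinjR] at h4
      omega
    exact (Polynomial.map_eq_zero_iff hinjR).1 h2
  have hΦC : ∀ c : R, Φ (C c) = algebraMap K M (algebraMap R K c) := by
    intro c
    show AdjoinRoot.mk π ((C c).map (algebraMap R K)) = _
    rw [Polynomial.map_C]
    rfl
  have hclos : Subfield.closure (Set.range Φ) = ⊤ := by
    rw [eq_top_iff]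
    intro z _
    obtain ⟨q, rfl⟩ := AdjoinRoot.mk_surjective z
    have hK' : ∀ k : K, AdjoinRoot.mk π (C k) ∈ Subfield.closure (Set.range Φ) := by
      intro k
      obtain ⟨a, b, -, rfl⟩ := IsFractionRing.div_surjective (A := R) k
      have e : AdjoinRoot.mk π (C (algebraMap R K a / algebraMap R K b)) = Φ (C a) / Φ (C b) := by
        rw [hΦC, hΦC]
        exact map_div₀ (algebraMap K M) (algebraMap R K a) (algebraMap R K b)
      rw [e]
      exact div_mem (Subfield.subset_closure ⟨_, rfl⟩) (Subfield.subset_closure ⟨_, rfl⟩)
    have hX : AdjoinRoot.mk π X ∈ Subfield.closure (Set.range Φ) := by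
      have e : AdjoinRoot.mk π X = Φ X := by
        show _ = AdjoinRoot.mk π (X.map (algebraMap R K))
        rw [Polynomial.map_X]
      rw [e]
      exact Subfield.subset_closure ⟨_, rfl⟩
    induction q using Polynomial.induction_on' with
    | add p q hp hq => rw [map_add]; exact add_mem (hp trivial) (hq trivial)
    | monomial n a =>
      rw [← C_mul_X_pow_eq_monomial, map_mul, map_pow]
      exact mul_mem (hK' a) (pow_mem hX n)
  refine ⟨M, inferInstance, hcM, Φ, ?_, ?_, ?_, hΦ0, hclos⟩
  · -- finitely generated
    obtain ⟨S, hS⟩ := (inferInstance : Algebra.FiniteType ℤ O).out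
    refine ⟨insert (Φ X) ((Finset.univ.image fun i : Fin s => Φ (C (MvPolynomial.X i))) ∪
      S.image fun x => Φ (C (MvPolynomial.C x))), ?_⟩
    rw [eq_top_iff, ← hclos, Subfield.closure_le]
    rintro _ ⟨f, rfl⟩
    set T := Subfield.closure ((insert (Φ X) ((Finset.univ.image fun i : Fin s =>
      Φ (C (MvPolynomial.X i))) ∪ S.image fun x => Φ (C (MvPolynomial.C x))) : Finset M) : Set M)
      with hT
    have hO : ∀ x : O, Φ (C (MvPolynomial.C x)) ∈ T := by
      intro x
      have hx : x ∈ Algebra.adjoin ℤ (S : Set O) := by
        rw [hS]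
        trivial
      induction hx using Algebra.adjoin_induction with
      | mem x hx =>
        refine Subfield.subset_closure ?_
        rw [Finset.mem_coe, Finset.mem_insert, Finset.mem_union, Finset.mem_image, Finset.mem_image]
        exact Or.inr (Or.inr ⟨x, hx, rfl⟩)
      | algebraMap a =>
        have e : Φ (C (MvPolynomial.C (algebraMap ℤ O a))) = ((a : ℤ) : M) :=
          eq_intCast (Φ.comp ((C.comp MvPolynomial.C).comp (algebraMap ℤ O))) a
        rw [e]
        exact intCast_mem T a
      | add x y _ _ h1 h2 =>
        rw [map_add, map_add, map_add]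
        exact add_mem h1 h2
      | mul x y _ _ h1 h2 =>
        rw [map_mul, map_mul, map_mul]
        exact mul_mem h1 h2
    have hc1 : ∀ c : R, Φ (C c) ∈ T := by
      intro c
      induction c using MvPolynomial.induction_on with
      | C a => exact hO a
      | add p q hp hq => rw [C_add, map_add]; exact add_mem hp hq
      | mul_X p i hp =>
        rw [C_mul, map_mul]
        refine mul_mem hp (Subfield.subset_closure ?_)
        rw [Finset.mem_coe, Finset.mem_insert, Finset.mem_union, Finset.mem_image]
        exact Or.inr (Or.inl ⟨i, Finset.mem_univ _, rfl⟩)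
    show Φ f ∈ T
    induction f using Polynomial.induction_on' with
    | add p q hp hq => rw [map_add]; exact add_mem hp hq
    | monomial n a =>
      rw [← C_mul_X_pow_eq_monomial, map_mul, map_pow]
      refine mul_mem (hc1 a) (pow_mem (Subfield.subset_closure ?_) n)
      rw [Finset.mem_coe, Finset.mem_insert]
      exact Or.inl rfl
  · -- the transcendence degree
    have hst : IsScalarTower R K M := inferInstance
    have hinjM : Function.Injective (algebraMap R M) := by
      rw [IsScalarTower.algebraMap_eq R K M]
      exact (algebraMap K M).injective.comp hinjR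
    have hfs : FaithfulSMul R M := (faithfulSMul_iff_algebraMap_injective _ _).2 hinjM
    have hπ0 : π ≠ 0 := hirr.ne_zero
    have hfin : FiniteDimensional K M := (AdjoinRoot.powerBasis hπ0).finite
    have h1 : Algebra.IsAlgebraic R K := IsLocalization.isAlgebraic (R := R) (S := K) (nonZeroDivisors R)
    have h2 : Algebra.IsAlgebraic K M := inferInstance
    have h3 : Algebra.IsAlgebraic R M := Algebra.IsAlgebraic.trans R K M
    have e0 : Algebra.trdeg ℤ O = 0 := trdeg_eq_zero_iff.2 inferInstance
    have e1 : Algebra.trdeg O R = s := by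
      rw [MvPolynomial.trdeg_of_isDomain]
      simp
    have e2 := trdeg_add_eq ℤ O (A := R)
    rw [e0, e1, zero_add] at e2
    exact trdeg_aux e2.symm
  · -- the zero
    show AdjoinRoot.mk π (h.map (algebraMap R K)) = 0
    rw [AdjoinRoot.mk_eq_zero]

end Pool.Agent.P8H32.LW
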