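import Pool.Agent.P8H32.LW.Gen
import Pool.Agent.N618.RO.Base

/-!
# Orders along irreducible hypersurfaces: common cofactors, countable data (helper32)
-/

set_option autoImplicit false
set_option linter.all false

namespace Pool.Agent.P8H32.LW

open MvPolynomial

section
variable {ι : Type} [Fintype ι]

/-- A finite set of polynomials of known orders along `f = 0`: there is one polynomial `G` which is not
divisible by `f`, such that for every prime which does not divide `G (v)`, the `c x (v)` are up to units at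
`p` the powers of `f (v)`. -/
theorem common_cofactor {X : Type} [Fintype X] {f : MvPolynomial ι ℤ}
    (hf : Irreducible (f.map (Int.castRingHom ℚ))) (c : X → MvPolynomial ι ℤ) (e : X → ℕ)
    (he : ∀ x, OrderAlong f (c x) (e x)) :
    ∃ G : MvPolynomial ι ℤ, ¬ f.map (Int.castRingHom ℚ) ∣ G.map (Int.castRingHom ℚ) ∧
      ∀ (v : ι → ℤ) (p : ℕ), p.Prime → ¬ (p : ℤ) ∣ eval v G → ∀ x, ∃ d g : ℤ,
        d * eval v (c x) = eval v f ^ e x * g ∧ ¬ (p : ℤ) ∣ d ∧ ¬ (p : ℤ) ∣ g := by
  classical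
  choose d g hd h1 h2 using fun x => (he x).exists_cofactor
  refine ⟨∏ x, (C (d x) * g x), ?_, ?_⟩
  · intro hdvd
    rw [map_prod] at hdvd
    obtain ⟨x, -, hx⟩ := (hf.prime.dvd_finset_prod_iff _).1 hdvd
    rw [map_mul, map_C] at hx
    have hu : IsUnit (C ((Int.castRingHom ℚ) (d x)) : MvPolynomial ι ℚ) :=
      (isUnit_iff_ne_zero.2 (Int.cast_ne_zero.2 (hd x))).map C
    rw [hu.dvd_mul_left] at hx
    exact h2 x hx
  · intro v p hp hG x
    refine ⟨d x, eval v (g x), ?_, ?_, ?_⟩
    · have h3 := congrArg (eval v) (h1 x)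
      rw [eval_mul, eval_mul, eval_C, map_pow] at h3
      exact h3
    · intro h3
      apply hG
      rw [map_prod]
      refine Dvd.dvd.trans ?_ (Finset.dvd_prod_of_mem _ (Finset.mem_univ x))
      rw [eval_mul, eval_C]
      exact h3.mul_right _
    · intro h3
      apply hG
      rw [map_prod]
      refine Dvd.dvd.trans ?_ (Finset.dvd_prod_of_mem _ (Finset.mem_univ x))
      rw [eval_mul]
      exact h3.mul_left _

theorem countable_mvι : Countable (MvPolynomial ι ℤ) := by
  have h := Pool.Agent.N618.RO.countable_mv (Fintype.card ι)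
  exact Function.Injective.countable
    (f := rename (R := ℤ) (Fintype.equivFin ι)) (rename_injective _ (Fintype.equivFin ι).injective)

/-- an irreducible polynomial, a polynomial which is not divisible by it, and a bound -/
def DatG (ι : Type) : Type :=
  {x : MvPolynomial ι ℤ × MvPolynomial ι ℤ × ℕ // Irreducible (x.1.map (Int.castRingHom ℚ)) ∧
    ¬ x.1.map (Int.castRingHom ℚ) ∣ x.2.1.map (Int.castRingHom ℚ)}

instance : Countable (DatG ι) := by
  have := countable_mvι (ι := ι)
  unfold DatG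
  infer_instance

/-- the values of `f` have no prime divisors above `D` which do not divide the values of `G` -/
def BadG (x : DatG ι) : Set (ι → ℤ) :=
  {v | ¬ (eval v x.1.1 ≠ 0 ∧ ∃ p : ℕ, p.Prime ∧ (p : ℤ) ∣ eval v x.1.1 ∧ x.1.2.2 < p ∧
    ¬ (p : ℤ) ∣ eval v x.1.2.1)}

theorem badG_null (x : DatG ι) : Pool.Agent.N24.RW.ProNull (BadG x) := gen_null x.2.1 x.2.2 _

/-- the same for primes which divide the value of `f` exactly once -/
def BadGE (x : DatG ι) : Set (ι → ℤ) :=
  {v | ¬ ∃ p : ℕ, p.Prime ∧ x.1.2.2 < p ∧ (p : ℤ) ∣ eval v x.1.1 ∧ ¬ (p : ℤ) ^ 2 ∣ eval v x.1.1 ∧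
    ¬ (p : ℤ) ∣ eval v x.1.2.1}

theorem badGE_null (x : DatG ι) : Pool.Agent.N24.RW.ProNull (BadGE x) := gen_exact x.2.1 x.2.2 _

theorem pro_fin' {M : ℕ} (B : Fin M → Set (ι → ℤ))
    (hB : ∀ l, Pool.Agent.N24.RW.ProNull (B l)) :
    Pool.Agent.N24.RW.ProNull {x | ∃ l, x ∈ B l} := by
  induction M with
  | zero =>
    refine Pool.Agent.N24.RW.Clo.mono (B := {x | MvPolynomial.eval x (1 : MvPolynomial ι ℤ) = 0}) ?_
      (Pool.Agent.N24.RW.Clo.poly 1 one_ne_zero)
    rintro x ⟨l, -⟩
    exact l.elim0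
  | succ M ih =>
    refine Pool.Agent.N24.RW.Clo.mono ?_ (Pool.Agent.N24.RW.Clo.union (hB 0)
      (ih (fun l => B l.succ) fun l => hB l.succ))
    rintro x ⟨l, hl⟩
    refine Fin.cases (fun hl => Or.inl hl) (fun l hl => Or.inr ⟨l, hl⟩) l hl

end

end Pool.Agent.P8H32.LW
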