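import Pool.Agent.P8H32.LW.Ord
import Pool.Agent.N18.KM.Pink

/-!
# Families of subvarieties of the powers of elliptic schemes, ARBITRARY irreducible hypersurfaces of the
# space of parameters (helper32)
-/

set_option autoImplicit false
set_option linter.all false

namespace Pool.Agent.P8H32.LW

open MvPolynomial MeasureTheory Filter Topology
open Pool.Agent.R424.MP Pool.Agent.R424.TG Pool.Agent.R424.PT
open Pool.Agent.N24.RW
open Pool.Agent.N24.KM (Rarely)
open Pool.Agent.Results.MP_28d749_ag.RandomMultisections (curve)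

section
variable {ι : Type} [Fintype ι]

/-- The local criterion for the members of a family, orders along arbitrary irreducible
hypersurfaces. -/
theorem localPinkG {r q N : ℕ} {κ : Type} [Finite κ] {m M : ℕ}
    (supp : κ → Finset ((Coord r q ⊕ Fin N) →₀ ℕ))
    (c : κ → ((Coord r q ⊕ Fin N) →₀ ℕ) → MvPolynomial ι ℤ)
    (f : Fin M → MvPolynomial ι ℤ) (hf : ∀ l, Irreducible ((f l).map (Int.castRingHom ℚ)))
    (e : Fin M → κ → ((Coord r q ⊕ Fin N) →₀ ℕ) → ℕ)
    (he : ∀ l j, ∀ β ∈ supp j, OrderAlong (f l) (c j β) (e l j β)) (hgen : GenericP m supp e) :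
    ∃ G : Fin M → MvPolynomial ι ℤ,
      (∀ l, ¬ (f l).map (Int.castRingHom ℚ) ∣ (G l).map (Int.castRingHom ℚ)) ∧
      ∀ v : ι → ℤ, (∀ l, ∃ p : ℕ, p.Prime ∧ (p : ℤ) ∣ eval v (f l) ∧ ¬ (p : ℤ) ^ 2 ∣ eval v (f l) ∧
        ¬ (p : ℤ) ∣ eval v (G l)) →
        NoAtypicalP m (OnX supp (fun j β => ((eval v (c j β) : ℤ) : ℂ)) :
          ∀ x : Fin 2 ⊕ Fin r → ℂ, (Fin q → (curve (x (Sum.inl 0)) (x (Sum.inl 1))).Point) →
            Prop) := by
  classical
  have := Fintype.ofFinite κ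
  let X := Σ j : κ, {β // β ∈ supp j}
  choose G hG hG2 using fun l : Fin M => common_cofactor (X := X) (hf l) (fun x => c x.1 x.2)
    (fun x => e l x.1 x.2) (fun x => he l x.1 _ x.2.2)
  refine ⟨G, hG, fun v hgood => ?_⟩
  choose p hp hph hp2 hpG using hgood
  refine coreP m supp _ e hgen p hp fun l j β hβ V hV => ?_
  obtain ⟨d', g, h1, h2, h3⟩ := hG2 l v (p l) (hp l) (hpG l) ⟨j, β, hβ⟩
  obtain ⟨u, hu⟩ := hph l
  have hpu : ¬ (p l : ℤ) ∣ u := by
    rintro ⟨u', rfl⟩
    exact hp2 l ⟨u', by rw [hu]; ring⟩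
  have h4 : V.valuation ((eval v (f l) : ℤ) : ℂ) = V.valuation (p l : ℂ) := by
    rw [hu]
    push_cast
    rw [map_mul, Pool.Agent.W466.ZP.int_unit V (hp l) hV _ hpu, mul_one]
  have h5 : ((d' : ℤ) : ℂ) * ((eval v (c j β) : ℤ) : ℂ) =
      ((eval v (f l) : ℤ) : ℂ) ^ e l j β * ((g : ℤ) : ℂ) := by
    exact_mod_cast h1
  have h6 := congrArg V.valuation h5
  rw [map_mul, map_mul, map_pow, h4, Pool.Agent.W466.ZP.int_unit V (hp l) hV _ h2,
    Pool.Agent.W466.ZP.int_unit V (hp l) hV _ h3, one_mul, mul_one] at h6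
  exact h6

/-- the exceptional parameters of one family are a pronull set -/
theorem pinkG_null {r q N : ℕ} {κ : Type} [Finite κ] {m M : ℕ}
    (supp : κ → Finset ((Coord r q ⊕ Fin N) →₀ ℕ))
    (c : κ → ((Coord r q ⊕ Fin N) →₀ ℕ) → MvPolynomial ι ℤ)
    (f : Fin M → MvPolynomial ι ℤ) (hf : ∀ l, Irreducible ((f l).map (Int.castRingHom ℚ)))
    (e : Fin M → κ → ((Coord r q ⊕ Fin N) →₀ ℕ) → ℕ)
    (he : ∀ l j, ∀ β ∈ supp j, OrderAlong (f l) (c j β) (e l j β)) (hgen : GenericP m supp e) :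
    ProNull {v : ι → ℤ | ¬ NoAtypicalP m (OnX supp (fun j β => ((eval v (c j β) : ℤ) : ℂ)) :
        ∀ x : Fin 2 ⊕ Fin r → ℂ, (Fin q → (curve (x (Sum.inl 0)) (x (Sum.inl 1))).Point) →
          Prop)} := by
  obtain ⟨G, hG, hloc⟩ := localPinkG supp c f hf e he hgen
  refine Clo.mono ?_ (pro_fin' (fun l => BadGE (⟨(f l, G l, 0), hf l, hG l⟩ : DatG ι))
    fun l => badGE_null _)
  intro v hv
  by_contra hcon
  apply hv
  refine hloc v fun l => ?_
  by_contra hl
  refine hcon ⟨l, fun h => hl ?_⟩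
  obtain ⟨p, h1, h2, h3, h4, h5⟩ := h
  exact ⟨p, h1, h3, h4, h5⟩

end

/-- There is ONE set `E` of natural density zero, such that for ALL families of subvarieties of the powers of
elliptic schemes as in `ManyParameters` (all `r`, `q`, `N`, `m`, all systems of equations whose coefficients
`a j β` are polynomials with integral coefficients in the parameters `t_i`, `i ∈ ι`, all polynomials
`f_1, …, f_M` in the parameters which are irreducible over `ℚ`, such that the coefficients have the orders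
`e` along the hypersurfaces `f_l = 0` and the tropicalizations along these hypersurfaces satisfy the
condition `GenericP`): for all but finitely many `n` outside `E` the member `X_t` of the family with the
parameters `t = c n` has no atypical intersection with algebraic subgroups of the fibres (`NoAtypicalP`). -/
def PinkGoodAll {ι : Type} [Fintype ι] (c : ℕ → ι → ℤ) : Prop :=
  ∃ E : Set ℕ,
    Tendsto (fun T : ℕ => (({n : ℕ | n < T ∧ n ∈ E}.ncard : ℕ) : ℝ) / (T : ℝ)) atTop (𝓝 0) ∧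
    ∀ (r q N m M : ℕ) (κ : Type) [Finite κ] (supp : κ → Finset ((Coord r q ⊕ Fin N) →₀ ℕ))
      (a : κ → ((Coord r q ⊕ Fin N) →₀ ℕ) → MvPolynomial ι ℤ)
      (f : Fin M → MvPolynomial ι ℤ), (∀ l, Irreducible ((f l).map (Int.castRingHom ℚ))) →
      ∀ e : Fin M → κ → ((Coord r q ⊕ Fin N) →₀ ℕ) → ℕ,
        (∀ l j, ∀ β ∈ supp j, OrderAlong (f l) (a j β) (e l j β)) → GenericP m supp e →
        {n : ℕ | n ∉ E ∧ ¬ NoAtypicalP m (OnX supp (fun j β => ((eval (c n) (a j β) : ℤ) : ℂ)) :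
          ∀ x : Fin 2 ⊕ Fin r → ℂ,
            (Fin q → (curve (x (Sum.inl 0)) (x (Sum.inl 1))).Point) → Prop)}.Finite

/-- **Sequences which are rarely in pronull sets are good.** -/
theorem pinkG_master {ι : Type} [Fintype ι] {c : ℕ → ι → ℤ} (hc : ∀ x : DatG ι, Rarely c (BadGE x)) :
    PinkGoodAll c := by
  obtain ⟨E, hE, hfin⟩ := Pool.Agent.N18.KM.one_set c (fun x : DatG ι => BadGE x) hc
  refine ⟨E, hE, ?_⟩
  intro r q N m M κ _ supp a f hf e he hgen
  obtain ⟨G, hG, hloc⟩ := localPinkG supp a f hf e he hgen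
  have h1 : (⋃ l : Fin M, {n : ℕ | n ∉ E ∧ c n ∈
      BadGE (⟨(f l, G l, 0), hf l, hG l⟩ : DatG ι)}).Finite :=
    Set.finite_iUnion fun l => hfin _
  refine h1.subset ?_
  rintro n ⟨hn, hbad⟩
  by_contra hcon
  apply hbad
  refine hloc (c n) fun l => ?_
  by_contra hl
  refine hcon (Set.mem_iUnion.2 ⟨l, hn, fun h => hl ?_⟩)
  obtain ⟨p, h1, h2, h3, h4, h5⟩ := h
  exact ⟨p, h1, h3, h4, h5⟩

end Pool.Agent.P8H32.LW
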