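import Pool.Agent.P8H32.LW.Lift
import Pool.Agent.Helper932.SplitPrimes
import Pool.Agent.N24.RW.Crit
import Pool.Agent.N24.RW.Clo

/-!
# Prime divisors of the values of ARBITRARY polynomials: the exceptional vectors are pronull (helper32)

`h` is any polynomial of positive degree in `t_0` over `ℤ[t_1, …, t_s]`, `G` has no common factor of positive
degree in `t_0` with `h`. The set of the integral vectors at which no prime above `D` divides `h` and not `G`
is pronull; if `h` is squarefree the same is true for the primes which divide `h` exactly once.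
-/

set_option autoImplicit false
set_option linter.all false

open Polynomial NumberField

namespace Pool.Agent.P8H32.LW

open Pool.Agent.R424.MP (ev CoprimeTo)
open Pool.Agent.N514.TH (evm ev_cast Om Ok mem_Om)
open Pool.Agent.Y722.HS (red)
open Pool.Agent.N24.RW

variable {s : ℕ}

lemma not_summable_w (L : Type) [Field L] [NumberField L] {δ : ℝ} (hδ : 0 < δ) {w : ℕ → ℝ}
    (hw0 : ∀ p, 0 ≤ w p) (hw : ∀ p, p.Prime → Nonempty (𝓞 L →+* ZMod p) → δ * (1 / (p : ℝ)) ≤ w p) :
    ¬ Summable (fun p : ℕ => if p.Prime then w p else 0) := by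
  intro hs
  apply Pool.Agent.Helper932.not_summable_split (K := L)
  have h1 := (hs.mul_left δ⁻¹).comp_injective
    (Subtype.val_injective (p := fun p : ℕ => p.Prime ∧ Nonempty (𝓞 L →+* ZMod p)))
  refine Summable.of_nonneg_of_le (fun p => by positivity) (fun p => ?_) h1
  obtain ⟨p, hp, hne⟩ := p
  simp only [Function.comp_apply]
  rw [if_pos hp]
  have h2 := hw p hp hne
  have h3 : δ⁻¹ * (δ * (1 / (p : ℝ))) ≤ δ⁻¹ * w p := mul_le_mul_of_nonneg_left h2 (by positivity)
  rwa [← mul_assoc, inv_mul_cancel₀ hδ.ne', one_mul] at h3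

/-- no prime above `D` divides `h` exactly once and does not divide `G` -/
def BadE (h G : (MvPolynomial (Fin s) ℤ)[X]) (D : ℕ) : Set (Fin (s + 1) → ℤ) :=
  {z | ¬ ∃ p : ℕ, p.Prime ∧ D < p ∧ Ok h G p z}

/-- **The exceptional vectors are pronull**, exact divisibility. -/
theorem badE_null {h G : (MvPolynomial (Fin s) ℤ)[X]} (hdeg : 0 < h.natDegree)
    (hsq : CoprimeTo h (derivative h)) (hG : CoprimeTo h G) (D : ℕ) : ProNull (BadE h G D) := by
  classical
  obtain ⟨L, iL, nL, p₀, hp₀⟩ := many_exact hdeg hsq hG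
  have h1 := t_CRIT (Fin (s + 1)) (fun p => p ^ 2) (fun p hp => Nat.one_le_pow _ _ hp.pos)
    (fun p p' hp hp' hne => Nat.Coprime.pow 2 2 ((Nat.coprime_primes hp hp').2 hne))
    (fun p => Om h G p) (max D p₀)
    (fun p => if Nonempty (𝓞 L →+* ZMod p) then 1 / 4 * (1 / (p : ℝ)) else 0)
    (fun p => by split_ifs <;> positivity)
    (not_summable_w L (δ := 1 / 4) (by norm_num) (fun p => by split_ifs <;> positivity)
      (fun p _ hne => by rw [if_pos hne]))
    (fun p hp hlt => by
      have : Fact p.Prime := ⟨hp⟩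
      by_cases hne : Nonempty (𝓞 L →+* ZMod p)
      · rw [if_pos hne, Fintype.card_fin]
        exact hp₀ p (lt_of_le_of_lt (le_max_right _ _) hlt) hne
      · rw [if_neg hne, zero_mul]
        positivity)
  refine Clo.mono ?_ h1
  intro z hz p hp hlt hin
  exact hz ⟨p, hp, lt_of_le_of_lt (le_max_left _ _) hlt, (mem_Om h G p hp.one_lt.le z).1 hin⟩

/-- the value of `h` is zero, or no prime above `D` divides `h` and does not divide `G` -/
def BadD (h G : (MvPolynomial (Fin s) ℤ)[X]) (D : ℕ) : Set (Fin (s + 1) → ℤ) :=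
  {z | ¬ (ev (z 0) (fun i => z i.succ) h ≠ 0 ∧ ∃ p : ℕ, p.Prime ∧
    (p : ℤ) ∣ ev (z 0) (fun i => z i.succ) h ∧ D < p ∧
    ¬ (p : ℤ) ∣ ev (z 0) (fun i => z i.succ) G)}

lemma zero_null {h : (MvPolynomial (Fin s) ℤ)[X]} (hh : h ≠ 0) :
    ProNull {z : Fin (s + 1) → ℤ | ev (z 0) (fun i => z i.succ) h = 0} := by
  have h1 : (MvPolynomial.finSuccEquiv ℤ s).symm h ≠ 0 := by
    intro h0
    apply hh
    rw [← (MvPolynomial.finSuccEquiv ℤ s).apply_symm_apply h, h0, map_zero]
  refine Clo.mono ?_ (Clo.poly _ h1)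
  intro z hz
  have e : z = (Fin.cons (z 0) (fun i => z i.succ) : Fin (s + 1) → ℤ) := by
    funext i
    refine Fin.cases ?_ (fun i => ?_) i
    · rfl
    · rfl
  change MvPolynomial.eval z ((MvPolynomial.finSuccEquiv ℤ s).symm h) = 0
  rw [e, MvPolynomial.eval_eq_eval_mv_eval', AlgEquiv.apply_symm_apply, Polynomial.eval_map]
  exact hz

/-- **The exceptional vectors are pronull.** -/
theorem badD_null {h G : (MvPolynomial (Fin s) ℤ)[X]} (hdeg : 0 < h.natDegree)
    (hG : CoprimeTo h G) (D : ℕ) : ProNull (BadD h G D) := by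
  classical
  obtain ⟨L, iL, nL, p₀, hp₀⟩ := many_points hdeg hG
  have h1 := t_CRIT (Fin (s + 1)) (fun p => p) (fun p hp => hp.pos)
    (fun p p' hp hp' hne => (Nat.coprime_primes hp hp').2 hne)
    (fun p => {ρ : Fin (s + 1) → ZMod p | evm p ρ h = 0 ∧ evm p ρ G ≠ 0}) (max D p₀)
    (fun p => if Nonempty (𝓞 L →+* ZMod p) then 1 / 2 * (1 / (p : ℝ)) else 0)
    (fun p => by split_ifs <;> positivity)
    (not_summable_w L (δ := 1 / 2) (by norm_num) (fun p => by split_ifs <;> positivity)
      (fun p _ hne => by rw [if_pos hne]))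
    (fun p hp hlt => by
      have : Fact p.Prime := ⟨hp⟩
      by_cases hne : Nonempty (𝓞 L →+* ZMod p)
      · rw [if_pos hne, Fintype.card_fin]
        have h2 := hp₀ p (lt_of_le_of_lt (le_max_right _ _) hlt) hne
        refine le_trans (le_of_eq ?_) h2
        have hp0 : (p : ℝ) ≠ 0 := by exact_mod_cast hp.ne_zero
        rw [pow_succ]
        field_simp
      · rw [if_neg hne, zero_mul]
        positivity)
  have hh : h ≠ 0 := by
    rintro rfl
    rw [natDegree_zero] at hdeg
    exact lt_irrefl _ hdeg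
  refine Clo.mono ?_ (Clo.union (zero_null hh) h1)
  intro z hz
  by_cases h0 : ev (z 0) (fun i => z i.succ) h = 0
  · exact Or.inl h0
  right
  intro p hp hlt hin
  apply hz
  refine ⟨h0, p, hp, ?_, lt_of_le_of_lt (le_max_left _ _) hlt, ?_⟩
  · rw [← ZMod.intCast_zmod_eq_zero_iff_dvd, ev_cast]
    exact hin.1
  · rw [← ZMod.intCast_zmod_eq_zero_iff_dvd, ev_cast]
    exact hin.2

end Pool.Agent.P8H32.LW
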