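import Pool.Agent.W723.SecC.D1d
import Pool.Agent.N676.OR.FD

/-!
# Many rational primes below which a polynomial over a number field has no root (helper32)

For a separable polynomial over a number field `K` and an automorphism which fixes none of its roots, the
primes `p` with a given Frobenius element (in a Galois field `L` over `ℚ`, `frobSet`) have a divisor `v` in
`K` with `v ∥ p`, modulo which the polynomial has no root. The proof follows
`Pool.Agent.W723.SecC.partD1`. The sets `frobSet` form a countable set of sets of primes.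
-/

set_option autoImplicit false
set_option linter.all false

namespace Pool.Agent.P8H32.LW

open Polynomial NumberField IsDedekindDomain
open Pool.Agent.W401.Cheb Pool.Agent.W723.SecC

theorem supply (K : Type) [Field K] [NumberField K] (g : (𝓞 K)[X]) (c : 𝓞 K) (hc : c ≠ 0)
    (hsep : (g.map (algebraMap (𝓞 K) K)).Separable)
    (hσ : ∃ σ : AlgebraicClosure K ≃ₐ[K] AlgebraicClosure K,
      ∀ θ : AlgebraicClosure K, aeval θ (g.map (algebraMap (𝓞 K) K)) = 0 → σ θ ≠ θ) :
    ∃ (L : Type) (_ : Field L) (_ : NumberField L) (_ : IsGalois ℚ L) (τ : Gal(L/ℚ)) (m : ℕ),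
      0 < m ∧ ∀ p ∈ frobSet L τ m, ∃ v : HeightOneSpectrum (𝓞 K),
        (p : 𝓞 K) ∈ v.asIdeal ∧ (p : 𝓞 K) ∉ v.asIdeal ^ 2 ∧
        c ∉ v.asIdeal ∧ g.leadingCoeff ∉ v.asIdeal ∧
        (g.map (Ideal.Quotient.mk v.asIdeal)).Separable ∧
        ∀ r : 𝓞 K ⧸ v.asIdeal, (g.map (Ideal.Quotient.mk v.asIdeal)).eval r ≠ 0 := by
  classical
  obtain ⟨σ, hσ⟩ := hσ
  obtain ⟨L, _, _, _, i, τ, hτi, hτθ, hspl⟩ :=
    exists_L K (g.map (algebraMap (𝓞 K) K)) hsep.ne_zero σ hσ
  let iO : 𝓞 K →+* 𝓞 L := RingOfIntegers.mapRingHom i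
  have hiO : ∀ x, ((iO x : 𝓞 L) : L) = i x := fun x => rfl
  have hiinj : Function.Injective iO := by
    intro x y hxy
    have h1 : (iO x : L) = iO y := by rw [hxy]
    rw [hiO, hiO] at h1
    exact RingOfIntegers.coe_injective (i.injective h1)
  have hsmul : ∀ x : 𝓞 L, ((τ • x : 𝓞 L) : L) = τ x := fun x => rfl
  have hτO : ∀ x, τ • (iO x) = iO x := by
    intro x
    apply RingOfIntegers.ext
    rw [hsmul, hiO, hτi]
  obtain ⟨u, w, D, hD, huw⟩ := sep_int K g hsep
  have hg0 : g ≠ 0 := by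
    rintro rfl
    exact hsep.ne_zero (Polynomial.map_zero _)
  set lc := g.leadingCoeff with hlc
  have hlc0 : lc ≠ 0 := leadingCoeff_ne_zero.mpr hg0
  -- the image of `g` over `L`
  set gL : L[X] := (g.map (algebraMap (𝓞 K) K)).map i with hgL
  have hgL0 : gL ≠ 0 := by
    rw [hgL, Ne, Polynomial.map_eq_zero]
    exact hsep.ne_zero
  have hgLeval : ∀ a : 𝓞 K, gL.eval (i a) = i (g.eval a : 𝓞 K) := by
    intro a
    rw [hgL, Polynomial.map_map, eval_map]
    have h1 := Polynomial.hom_eval₂ g (RingHom.id (𝓞 K)) (i.comp (algebraMap (𝓞 K) K)) a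
    rw [RingHom.comp_id] at h1
    exact h1.symm
  have hgLlc : gL.leadingCoeff = i (lc : K) := by
    rw [hgL, leadingCoeff_map, leadingCoeff_map_of_injective
      (FaithfulSMul.algebraMap_injective (𝓞 K) K)]
  have hroot : ∀ θ ∈ gL.roots, gL.eval θ = 0 := fun θ hθ => (mem_roots hgL0).mp hθ
  have hint : ∀ θ ∈ gL.roots, IsIntegral ℤ (i (lc : K) * θ) := by
    intro θ hθ
    have h1 : (i.comp (algebraMap (𝓞 K) K)).IsIntegralElem
        ((i.comp (algebraMap (𝓞 K) K)) lc * θ) := by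
      refine (i.comp (algebraMap (𝓞 K) K)).isIntegralElem_leadingCoeff_mul g θ ?_
      have h2 := hroot θ hθ
      rw [hgL, Polynomial.map_map, eval_map] at h2
      exact h2
    let _ : Algebra (𝓞 K) L := (i.comp (algebraMap (𝓞 K) K)).toAlgebra
    exact isIntegral_trans (R := ℤ) (A := 𝓞 K) _ h1
  have hηex : ∀ θ : L, ∃ y : 𝓞 L, θ ∈ gL.roots → ((y : 𝓞 L) : L) = i (lc : K) * θ := by
    intro θ
    by_cases hθ : θ ∈ gL.roots
    · exact ⟨⟨_, hint θ hθ⟩, fun _ => rfl⟩
    · exact ⟨0, fun h => absurd h hθ⟩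
  choose η hη using hηex
  have hδ : ∀ θ ∈ gL.roots, τ • (η θ) - η θ ≠ 0 := by
    intro θ hθ h0
    have h1 : ((τ • (η θ) - η θ : 𝓞 L) : L) = 0 := by rw [h0]; rfl
    have h2 : ((τ • (η θ) - η θ : 𝓞 L) : L) = i (lc : K) * (τ θ - θ) := by
      have h3 : ((τ • (η θ) - η θ : 𝓞 L) : L) = τ (η θ) - η θ := rfl
      rw [h3, hη θ hθ, map_mul, hτi]
      ring
    rw [h2, mul_eq_zero] at h1
    rcases h1 with h1 | h1
    · apply hlc0
      apply RingOfIntegers.coe_injective
      apply i.injective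
      rw [h1]
      simp
    · refine hτθ θ ?_ (sub_eq_zero.mp h1)
      have h2 := hroot θ hθ
      rw [hgL, eval_map] at h2
      exact h2
  -- the bad primes
  have hE1 : iO (c * 2 * lc * D) ≠ 0 := by
    rw [Ne, map_eq_zero_iff iO hiinj]
    exact mul_ne_zero (mul_ne_zero (mul_ne_zero hc two_ne_zero) hlc0) hD
  obtain ⟨m1, hm1, hm1'⟩ := nz L _ hE1
  choose mθ hmθ hmθ' using fun θ : {θ // θ ∈ gL.roots.toFinset} =>
    nz L _ (hδ θ.1 (Multiset.mem_toFinset.mp θ.2))
  set md : ℕ := Ideal.absNorm (differentIdeal ℤ (𝓞 K)) with hmd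
  have hmd0 : 0 < md := by
    rw [Nat.pos_iff_ne_zero, hmd, Ne, Ideal.absNorm_eq_zero_iff]
    exact differentIdeal_ne_bot
  set m : ℕ := m1 * (∏ θ, mθ θ) * md with hm
  have hmpos : 0 < m := Nat.mul_pos (Nat.mul_pos hm1 (Finset.prod_pos fun θ _ => hmθ θ)) hmd0
  refine ⟨L, inferInstance, inferInstance, inferInstance, τ, m, hmpos, ?_⟩
  intro p hp
  obtain ⟨hpp, hpm, hxp⟩ := hp
  have : Fact p.Prime := ⟨hpp⟩
  have hex : ∃ φ : 𝓞 L →+* AlgebraicClosure (ZMod p), HasFrob p φ τ := by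
    unfold xp at hxp
    rw [dif_pos hpp] at hxp
    by_contra h
    push Not at h
    apply hxp
    rw [Nat.card_eq_zero]
    left
    exact ⟨fun x => h x.1 x.2⟩
  obtain ⟨φ, hφ⟩ := hex
  have hcast : ∀ n : ℕ, n ∣ m → (n : AlgebraicClosure (ZMod p)) ≠ 0 := by
    intro n hn h
    rw [CharP.cast_eq_zero_iff (AlgebraicClosure (ZMod p)) p] at h
    exact hpm (h.trans hn)
  have hφE1 : φ (iO (c * 2 * lc * D)) ≠ 0 :=
    hm1' _ φ (hcast m1 ((Dvd.intro _ rfl).trans (Dvd.intro _ rfl)))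
  have hφθ : ∀ θ ∈ gL.roots, φ (τ • (η θ) - η θ) ≠ 0 := by
    intro θ hθ
    have hθ' : θ ∈ gL.roots.toFinset := Multiset.mem_toFinset.mpr hθ
    refine hmθ' ⟨θ, hθ'⟩ _ φ (hcast _ ?_)
    exact ((Finset.dvd_prod_of_mem mθ (Finset.mem_univ _)).trans (Dvd.intro_left _ rfl)).trans
      (Dvd.intro _ rfl)
  let ψ : 𝓞 K →+* AlgebraicClosure (ZMod p) := φ.comp iO
  have hψ : ∀ x, ψ x ^ p = ψ x := by
    intro x
    have h1 := hφ (iO x)
    rw [hτO] at h1
    exact h1.symm
  have hnorm := absNorm_ker K p (AlgebraicClosure (ZMod p)) ψ hψ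
  have hmem : ∀ x, x ∈ RingHom.ker ψ ↔ φ (iO x) = 0 := fun x => RingHom.mem_ker
  have hprime : (RingHom.ker ψ).IsPrime := RingHom.ker_isPrime ψ
  have hbot : RingHom.ker ψ ≠ ⊥ := by
    intro h
    rw [h, Ideal.absNorm_bot] at hnorm
    exact hpp.ne_zero hnorm.symm
  have hmax : (RingHom.ker ψ).IsMaximal := hprime.isMaximal hbot
  have hφ4 : φ (iO c) ≠ 0 ∧ φ (iO 2) ≠ 0 ∧ φ (iO lc) ≠ 0 ∧ φ (iO D) ≠ 0 := by
    rw [map_mul, map_mul, map_mul, map_mul, map_mul, map_mul] at hφE1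
    refine ⟨?_, ?_, ?_, ?_⟩ <;> intro h <;> apply hφE1 <;> rw [h] <;> ring
  obtain ⟨h4c, h42, h4lc, h4D⟩ := hφ4
  refine ⟨⟨RingHom.ker ψ, hprime, hbot⟩, ?_, ?_, ?_, ?_, ?_, ?_⟩
  · have h1 := Ideal.absNorm_mem (RingHom.ker ψ)
    rw [hnorm] at h1
    exact h1
  · intro h
    have hP : (RingHom.ker ψ) ^ 2 ∣
        (Ideal.span {(p : ℤ)}).map (algebraMap ℤ (𝓞 K)) := by
      rw [Ideal.map_span, Set.image_singleton, Ideal.dvd_span_singleton]
      rw [map_natCast]
      exact h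
    have hpm' : (Ideal.span {(p : ℤ)}).IsMaximal :=
      Int.ideal_span_isMaximal_of_prime p
    have hp0 : Ideal.span {(p : ℤ)} ≠ ⊥ := by
      rw [Ne, Ideal.span_singleton_eq_bot]
      exact_mod_cast hpp.ne_zero
    have h2 := pow_sub_one_dvd_differentIdeal ℤ (p := Ideal.span {(p : ℤ)}) (RingHom.ker ψ) 2 hp0 hP
    have h3 : p ∣ md := by
      have h4 := map_dvd Ideal.absNorm h2
      rw [pow_one, hnorm] at h4
      exact h4
    exact hpm (h3.trans (Dvd.intro_left _ rfl))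
  · exact fun h => h4c ((hmem _).mp h)
  · exact fun h => h4lc ((hmem _).mp h)
  · obtain ⟨y, hy⟩ : ∃ y : 𝓞 K, (Ideal.Quotient.mk (RingHom.ker ψ)) (y * D) = 1 := by
      obtain ⟨y, z, hz, hy⟩ := hmax.exists_inv (fun h => h4D ((hmem _).mp h))
      refine ⟨y, ?_⟩
      have h6 := congrArg (Ideal.Quotient.mk (RingHom.ker ψ)) hy
      rw [map_add, Ideal.Quotient.eq_zero_iff_mem.mpr hz, add_zero, map_one] at h6
      exact h6
    refine ⟨C (Ideal.Quotient.mk _ y) * u.map (Ideal.Quotient.mk _),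
      C (Ideal.Quotient.mk _ y) * w.map (Ideal.Quotient.mk _), ?_⟩
    have h5 := congrArg (Polynomial.map (Ideal.Quotient.mk (RingHom.ker ψ))) huw
    rw [Polynomial.map_add, Polynomial.map_mul, Polynomial.map_mul, map_C] at h5
    rw [derivative_map, mul_assoc, mul_assoc, ← mul_add, h5, ← C_mul, ← map_mul, hy, C_1]
  · intro a ha
    obtain ⟨x, rfl⟩ := Ideal.Quotient.mk_surjective a
    rw [eval_map_apply, Ideal.Quotient.eq_zero_iff_mem] at ha
    have h1 : φ (iO (g.eval x)) = 0 := (hmem _).mp ha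
    have hfac : gL = C gL.leadingCoeff * (gL.roots.map fun θ => X - C θ).prod :=
      hspl.eq_prod_roots
    have h2 : iO lc ^ (Multiset.card gL.roots) * iO (g.eval x) =
        iO lc * (gL.roots.map fun θ => iO lc * iO x - η θ).prod := by
      apply RingOfIntegers.coe_injective
      rw [map_mul, map_mul, map_pow, map_multiset_prod, Multiset.map_map]
      have h7 : (algebraMap (𝓞 L) L) (iO (g.eval x)) = gL.eval (i x) := (hgLeval x).symm
      have h8 : (algebraMap (𝓞 L) L) (iO lc) = i (lc : K) := rfl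
      have h9 : gL.eval (i x) = i (lc : K) * (gL.roots.map fun θ => i x - θ).prod := by
        conv_lhs => rw [hfac]
        rw [eval_mul, eval_C, hgLlc, eval_multiset_prod, Multiset.map_map]
        congr 2
        refine Multiset.map_congr rfl fun θ _ => ?_
        simp
      have h10 : gL.roots.map ((algebraMap (𝓞 L) L) ∘ fun θ => iO lc * iO x - η θ) =
          gL.roots.map (fun θ => i (lc : K) * (i x - θ)) := by
        refine Multiset.map_congr rfl fun θ hθ => ?_
        have h11 := hη θ hθ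
        change (algebraMap (𝓞 L) L) (iO lc * iO x - η θ) = _
        rw [map_sub, map_mul, h8]
        change i (lc : K) * i x - ((η θ : 𝓞 L) : L) = _
        rw [h11]
        ring
      rw [h7, h8, h9, h10, Multiset.prod_map_mul, Multiset.map_const', Multiset.prod_replicate]
      ring
    have h3 := congrArg φ h2
    rw [map_mul, map_mul, h1, mul_zero, map_multiset_prod, Multiset.map_map] at h3
    have h4 : ((gL.roots.map (φ ∘ fun θ => iO lc * iO x - η θ))).prod = 0 := by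
      rcases mul_eq_zero.mp h3.symm with h | h
      · exact absurd h h4lc
      · exact h
    rw [Multiset.prod_eq_zero_iff, Multiset.mem_map] at h4
    obtain ⟨θ, hθ, h5⟩ := h4
    have h6 : φ (iO (lc * x)) = φ (η θ) := by
      have h7 : φ (iO lc * iO x - η θ) = 0 := h5
      rw [map_sub, sub_eq_zero] at h7
      rw [map_mul iO, h7]
    apply hφθ θ hθ
    rw [map_sub, hφ (η θ), ← h6]
    have h8 := hψ (lc * x)
    change φ (iO (lc * x)) ^ p = φ (iO (lc * x)) at h8
    rw [h8, sub_self]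

/-- an isomorphism of fields with automorphisms gives the same set of primes -/
theorem frobSet_congr {L L' : Type} [Field L] [NumberField L] [Field L'] [NumberField L']
    (e : L ≃+* L') (τ : Gal(L/ℚ)) (τ' : Gal(L'/ℚ)) (h : ∀ x, e (τ x) = τ' (e x)) (m : ℕ) :
    frobSet L τ m ⊆ frobSet L' τ' m := by
  rintro p ⟨hp, hm, hx⟩
  refine ⟨hp, hm, ?_⟩
  haveI : Fact p.Prime := ⟨hp⟩
  unfold xp at hx ⊢
  rw [dif_pos hp] at hx ⊢
  let eO : 𝓞 L ≃+* 𝓞 L' := RingOfIntegers.mapRingEquiv e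
  have heO : ∀ x : 𝓞 L, ((eO x : 𝓞 L') : L') = e x := fun x => rfl
  have hcomm : ∀ x : 𝓞 L, eO (τ • x) = τ' • eO x := by
    intro x
    apply RingOfIntegers.ext
    have h1 : ((τ • x : 𝓞 L) : L) = τ x := rfl
    have h2 : ((τ' • eO x : 𝓞 L') : L') = τ' (eO x : L') := rfl
    rw [heO, h1, h2, heO, h]
  let Φ : {φ : 𝓞 L →+* AlgebraicClosure (ZMod p) // HasFrob p φ τ} ≃
      {φ : 𝓞 L' →+* AlgebraicClosure (ZMod p) // HasFrob p φ τ'} :=
    { toFun := fun φ => ⟨φ.1.comp (eO.symm : 𝓞 L' →+* 𝓞 L), by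
        intro x
        have h3 : eO.symm (τ' • x) = τ • eO.symm x := by
          apply eO.injective
          rw [hcomm, eO.apply_symm_apply, eO.apply_symm_apply]
        change φ.1 (eO.symm (τ' • x)) = φ.1 (eO.symm x) ^ p
        rw [h3]
        exact φ.2 _⟩
      invFun := fun φ => ⟨φ.1.comp (eO : 𝓞 L →+* 𝓞 L'), by
        intro x
        change φ.1 (eO (τ • x)) = φ.1 (eO x) ^ p
        rw [hcomm]
        exact φ.2 _⟩
      left_inv := by
        intro φ
        apply Subtype.ext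
        ext x
        change φ.1 (eO.symm (eO x)) = φ.1 x
        rw [eO.symm_apply_apply]
      right_inv := by
        intro φ
        apply Subtype.ext
        ext x
        change φ.1 (eO (eO.symm x)) = φ.1 x
        rw [eO.apply_symm_apply] }
  rw [← Nat.card_congr Φ]
  exact hx

/-- the sets of primes with a given Frobenius element -/
def frobSets : Set (Set ℕ) :=
  {Q | ∃ (L : Type) (_ : Field L) (_ : NumberField L) (_ : IsGalois ℚ L) (τ : Gal(L/ℚ)) (m : ℕ),
    0 < m ∧ Q = frobSet L τ m}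

/-- the codes of fields with an automorphism and a natural number -/
def Code : Type := Σ n : ℕ, (Fin n → Fin n → Fin n → ℚ) × (Fin n → Fin n → ℚ) × ℕ

instance : Countable Code := by
  unfold Code
  infer_instance

/-- the code describes `Q` -/
def Describes (x : Code) (Q : Set ℕ) : Prop :=
  ∃ (L : Type) (_ : Field L) (_ : NumberField L) (τ : Gal(L/ℚ)) (b : Module.Basis (Fin x.1) ℚ L),
    (∀ i j k, b.repr (b i * b j) k = x.2.1 i j k) ∧ (∀ i j, b.repr (τ (b i)) j = x.2.2.1 i j) ∧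
    Q = frobSet L τ x.2.2.2

theorem describes_le {x : Code} {Q Q' : Set ℕ} (h : Describes x Q) (h' : Describes x Q') :
    Q ⊆ Q' := by
  obtain ⟨L, _, _, τ, b, hb, hτ, rfl⟩ := h
  obtain ⟨L', _, _, τ', b', hb', hτ', rfl⟩ := h'
  let e₀ : L ≃ₗ[ℚ] L' := b.equiv b' (Equiv.refl _)
  have he : ∀ i, e₀ (b i) = b' i := fun i => by simp [e₀]
  have hbb : ∀ i j, e₀ (b i * b j) = b' i * b' j := by
    intro i j
    rw [← b.sum_repr (b i * b j), map_sum, ← b'.sum_repr (b' i * b' j)]
    refine Finset.sum_congr rfl fun k _ => ?_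
    rw [map_smul, he, hb, hb']
  have hmul : ∀ x y, e₀ (x * y) = e₀ x * e₀ y := by
    intro x y
    have h1 : (LinearMap.mul ℚ L).compr₂ (e₀ : L →ₗ[ℚ] L') =
        (LinearMap.mul ℚ L').compl₁₂ (e₀ : L →ₗ[ℚ] L') (e₀ : L →ₗ[ℚ] L') := by
      refine b.ext fun i => b.ext fun j => ?_
      simp only [LinearMap.compr₂_apply, LinearMap.mul_apply', LinearMap.compl₁₂_apply,
        LinearEquiv.coe_coe]
      rw [hbb, he, he]
    have h2 := LinearMap.congr_fun (LinearMap.congr_fun h1 x) y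
    simpa using h2
  let e : L ≃+* L' := { e₀ with map_mul' := hmul, map_add' := map_add e₀ }
  refine frobSet_congr e τ τ' ?_ _
  intro y
  have h1 : (e₀ : L →ₗ[ℚ] L').comp (τ : L →ₐ[ℚ] L).toLinearMap =
      (τ' : L' →ₐ[ℚ] L').toLinearMap.comp (e₀ : L →ₗ[ℚ] L') := by
    refine b.ext fun i => ?_
    change e₀ (τ (b i)) = τ' (e₀ (b i))
    rw [he, ← b.sum_repr (τ (b i)), map_sum, ← b'.sum_repr (τ' (b' i))]
    refine Finset.sum_congr rfl fun k _ => ?_
    rw [map_smul, he, hτ, hτ']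
  exact LinearMap.congr_fun h1 y

theorem frobSets_countable : frobSets.Countable := by
  have hex : ∀ Q : frobSets, ∃ x : Code, Describes x Q.1 := by
    rintro ⟨Q, L, _, _, _, τ, m, hm, rfl⟩
    let b := Module.finBasis ℚ L
    exact ⟨⟨Module.finrank ℚ L, fun i j k => b.repr (b i * b j) k, fun i j => b.repr (τ (b i)) j, m⟩,
      L, inferInstance, inferInstance, τ, b, fun _ _ _ => rfl, fun _ _ => rfl, rfl⟩
  choose F hF using hex
  have hinj : Function.Injective F := by
    intro Q Q' h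
    apply Subtype.ext
    have h1 := hF Q
    have h2 := hF Q'
    rw [h] at h1
    exact (describes_le h1 h2).antisymm (describes_le h2 h1)
  have : Countable frobSets := hinj.countable
  exact Set.countable_coe_iff.1 this

theorem frobSets_big {Q : Set ℕ} (hQ : Q ∈ frobSets) : Pool.Agent.N676.OR.Big Q := by
  obtain ⟨L, _, _, _, τ, m, hm, rfl⟩ := hQ
  exact Pool.Agent.N676.OR.frob_big L τ m hm

end Pool.Agent.P8H32.LW
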