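import Pool.Agent.P8H32.LW.SecDef
import Pool.Agent.P8H32.LW.SecP
import Pool.Agent.Y157.PS.SupN
import Pool.Agent.Y157.PS.All
import Pool.Agent.Y674.PS.Fun
import Pool.Agent.W52.SecC.D3

/-!
# Sections of superelliptic twists by the values of polynomials with a simple factor (helper32)
-/

set_option autoImplicit false
set_option linter.all false

namespace Pool.Agent.P8H32.LW.Sec

open Polynomial NumberField IsDedekindDomain
open Pool.Agent.N24.RW
open Pool.Agent.Y157.PS (FineP fineP num_loc)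
open Pool.Agent.N676.OR (DensityZero Big Hit)
open Pool.Agent.N24.KM (Rarely)

/-- a prime of a set of Frobenius primes which divides `a` exactly once excludes points and sections -/
theorem fine_supply {K : Type} [Field K] [NumberField K] (f : K[X])
    (hf : f.Separable) (h3 : 3 ≤ f.natDegree) (hσ : HasDerangement f) :
    ∃ Q ∈ frobSets, ∀ a : ℤ, Hit Q a →
      ∀ ℓ : ℕ, ℓ.Prime → ℓ ∣ f.natDegree → FineP ℓ (a : K) f := by
  classical
  obtain ⟨c, hc, hcf⟩ := IsLocalization.integerNormalization_spec (nonZeroDivisors (𝓞 K)) f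
  set g := IsLocalization.integerNormalization (nonZeroDivisors (𝓞 K)) f with hg
  have hc0 : c ≠ 0 := nonZeroDivisors.ne_zero hc
  have hinj : Function.Injective (algebraMap (𝓞 K) K) := IsFractionRing.injective (𝓞 K) K
  have hcK : algebraMap (𝓞 K) K c ≠ 0 := by
    rw [Ne, map_eq_zero_iff _ hinj]
    exact hc0
  have hgf : g.map (algebraMap (𝓞 K) K) = C (algebraMap (𝓞 K) K c) * f := by
    rw [hcf]
    ext i
    rw [coeff_smul, coeff_C_mul, Algebra.smul_def]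
  have hdeg : g.natDegree = f.natDegree := by
    rw [← natDegree_map_eq_of_injective hinj g, hgf, natDegree_C_mul hcK]
  have hgs : (g.map (algebraMap (𝓞 K) K)).Separable := by
    rw [hgf]
    exact Separable.unit_mul (isUnit_C.2 hcK.isUnit) hf
  have hgσ : ∃ σ : AlgebraicClosure K ≃ₐ[K] AlgebraicClosure K,
      ∀ θ : AlgebraicClosure K, aeval θ (g.map (algebraMap (𝓞 K) K)) = 0 → σ θ ≠ θ := by
    obtain ⟨σ, hσ⟩ := hσ
    refine ⟨σ, fun θ hθ => hσ θ ?_⟩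
    rw [hgf, map_mul, aeval_C] at hθ
    exact (mul_eq_zero.1 hθ).resolve_left ((_root_.map_ne_zero _).2 hcK)
  have hdc : c * (f.natDegree : 𝓞 K) ≠ 0 := by
    refine mul_ne_zero hc0 ?_
    rw [Nat.cast_ne_zero]
    omega
  obtain ⟨L, _, _, _, τ, m, hm, hsup⟩ := supply K g (c * (f.natDegree : 𝓞 K)) hdc hgs hgσ
  refine ⟨_, ⟨L, inferInstance, inferInstance, inferInstance, τ, m, hm, rfl⟩, ?_⟩
  rintro a ⟨p, hpQ, hpp, hpa, hpa2⟩ ℓ hℓ hℓd
  obtain ⟨v, hpv, hpv2, hcv', hlcv, hsv, hrv⟩ := hsup p hpQ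
  have hvp : v.asIdeal.IsPrime := v.isPrime
  have hvm : v.asIdeal.IsMaximal := v.isMaximal
  have hcv : c ∉ v.asIdeal := fun h => hcv' (Ideal.mul_mem_right _ _ h)
  have hℓv : (ℓ : 𝓞 K) ∉ v.asIdeal := by
    intro h
    apply hcv'
    obtain ⟨n, hn⟩ := hℓd
    rw [hn]
    push_cast
    exact Ideal.mul_mem_left _ _ (Ideal.mul_mem_right _ _ h)
  obtain ⟨b, rfl⟩ := hpa
  have hpb : ¬ (p : ℤ) ∣ b := by
    rintro ⟨b', rfl⟩
    exact hpa2 ⟨b', by ring⟩
  have hbv : (b : 𝓞 K) ∉ v.asIdeal := by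
    intro h
    have hcop : IsCoprime (p : ℤ) b :=
      (Prime.coprime_iff_not_dvd (Nat.prime_iff_prime_int.1 hpp)).2 hpb
    obtain ⟨u, w, huw⟩ := hcop
    apply hvp.ne_top
    rw [Ideal.eq_top_iff_one]
    have h1 : (1 : 𝓞 K) = (u : 𝓞 K) * (p : 𝓞 K) + (w : 𝓞 K) * (b : 𝓞 K) := by
      have h2 := congrArg (Int.cast : ℤ → 𝓞 K) huw
      push_cast at h2
      exact h2.symm
    rw [h1]
    exact add_mem (Ideal.mul_mem_left _ _ hpv) (Ideal.mul_mem_left _ _ h)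
  have hav : (((p : ℤ) * b : ℤ) : 𝓞 K) = (p : 𝓞 K) * (b : 𝓞 K) := by push_cast; ring
  have hb : c * (((p : ℤ) * b : ℤ) : 𝓞 K) ∈ v.asIdeal ^ 1 := by
    rw [pow_one, hav]
    exact Ideal.mul_mem_left _ _ (Ideal.mul_mem_right _ _ hpv)
  have hb' : c * (((p : ℤ) * b : ℤ) : 𝓞 K) ∉ v.asIdeal ^ (1 + 1) := by
    intro h
    rcases Ideal.IsMaximal.mul_mem_pow _ h with h1 | h1
    · exact hcv h1
    · rw [hav, mul_comm] at h1
      rcases Ideal.IsMaximal.mul_mem_pow _ h1 with h2 | h2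
      · exact hbv h2
      · exact hpv2 h2
  have hfact : Fact ℓ.Prime := ⟨hℓ⟩
  obtain ⟨A, _, _, _, _, hfin, hfr, hℓA, fA, hfK, hdegA, hlcA, hsA, hrA, ϖ, t, hϖ, ht, hbt⟩ :=
    num_loc v ℓ hℓv g hlcv hsv hrv (c * (((p : ℤ) * b : ℤ) : 𝓞 K)) 1 hb hb'
  have key := fineP (Pool.Agent.Y674.PS.funct Pool.Agent.Y157.PS.a_inrt) hℓA fA hlcA hsA
    (by rw [hdegA, hdeg]; exact hℓd) (by rw [hdegA, hdeg]; exact h3)
    hrA ϖ hϖ (algebraMap (𝓞 K) K (c * (((p : ℤ) * b : ℤ) : 𝓞 K))) 1 (by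
      intro h
      have h5 : (ℓ : ℤ) = 1 ∨ (ℓ : ℤ) = -1 := Int.natAbs_eq_iff.1 (by
        have := Int.natAbs_dvd_natAbs.2 h
        simpa using this)
      rcases h5 with h5 | h5
      · exact hℓ.one_lt.ne' (by exact_mod_cast h5)
      · omega) t ht (by rw [hbt]; norm_num)
  rw [hfK, hgf, map_mul] at key
  have h9 : algebraMap (𝓞 K) K (((p : ℤ) * b : ℤ) : 𝓞 K) = (((p : ℤ) * b : ℤ) : K) :=
    map_intCast _ _
  rw [h9] at key
  exact key.scale hcK

lemma iSup_congr_prop {α : Type} [CompleteLattice α] {P Q : α → Prop} (h : ∀ L, P L ↔ Q L) :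
    (⨆ L : {L // P L}, L.1) = ⨆ L : {L // Q L}, L.1 := by
  have h1 : P = Q := funext fun L => propext (h L)
  subst h1
  rfl

lemma proEll_eq (ℓ : ℕ) (k F Ω : Type) [Field k] [Field F] [Field Ω] [Algebra k F] [Algebra F Ω]
    [Algebra k Ω] : proEllField ℓ k F Ω = Pool.Agent.Y157.PS.geomPro ℓ k F Ω := by
  unfold proEllField Pool.Agent.Y157.PS.geomPro maxProEll Pool.Agent.Y157.PS.maxPro
  congr 1
  refine iSup_congr_prop fun L => ?_
  constructor
  · rintro ⟨⟨h1, h2, h3⟩, h4⟩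
    refine ⟨⟨h1, h2, h3⟩, fun W hW z hz hz0 => ?_⟩
    obtain ⟨t, ht, h5, h6⟩ := h4 W hW z hz hz0
    exact ⟨t, ht, div_ne_zero hz0 ((_root_.map_ne_zero _).2 ht), h5, h6⟩
  · rintro ⟨⟨h1, h2, h3⟩, h4⟩
    refine ⟨⟨h1, h2, h3⟩, fun W hW z hz hz0 => ?_⟩
    obtain ⟨t, ht, -, h5, h6⟩ := h4 W hW z hz hz0
    exact ⟨t, ht, h5, h6⟩

lemma of_fine {k : Type} [Field k] (l : ℕ) (a : k) (f : k[X])
    (h : FineP l a f) (n : ℕ) (hn : l ∣ n) (hd : l ∣ f.natDegree) :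
    NoPoint n a f ∧ NoSection n a f := by
  obtain ⟨-, h1, h2, h3⟩ := h
  obtain ⟨n', rfl⟩ := hn
  refine ⟨⟨?_, ?_⟩, ?_⟩
  · rintro ⟨x, y, hxy⟩
    apply h2 x (y ^ n')
    rw [← hxy, ← pow_mul, mul_comm n' l]
  · rintro ⟨r, hr⟩
    obtain ⟨e, he⟩ := Nat.dvd_gcd (Dvd.intro n' rfl : l ∣ l * n') hd
    apply h3 (r ^ e)
    rw [← hr, ← pow_mul, mul_comm e l, he]
  · intro F Ω _ _ _ _ _ _ _ x y U hxy hU
    have hcl : IsAlgClosed Ω := IsAlgClosure.isAlgClosed F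
    have halg : Algebra.IsAlgebraic F Ω := IsAlgClosure.isAlgebraic
    have h4 := h1 F Ω U hU x (y ^ n') (by rw [← hxy, ← pow_mul, mul_comm n' l])
    exact ⟨fun s => h4.false ⟨s.toHom, s.cont, s.compat⟩⟩

theorem noSections_of {k : Type} [Field k] (f : k[X]) (a : ℤ)
    (h : ∀ ℓ : ℕ, ℓ.Prime → ℓ ∣ f.natDegree → FineP ℓ (a : k) f) : NoSections f a := by
  refine ⟨fun n hn hnd => ?_, fun ℓ hℓ hℓd => ?_⟩
  · obtain ⟨l, hl, hln, hld⟩ := Nat.Prime.not_coprime_iff_dvd.1 hnd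
    exact of_fine l _ f (h l hl hld) n hln hld
  · intro F Ω _ _ _ _ _ _ _ x y hx hxy hF N hN
    have hcl : IsAlgClosed Ω := IsAlgClosure.isAlgClosed F
    have halg : Algebra.IsAlgebraic F Ω := IsAlgClosure.isAlgebraic
    rw [proEll_eq] at hN
    exact ⟨fun s => (h ℓ hℓ hℓd).1 F Ω x y hx hxy hF N hN s.toHom s.cont s.compat⟩

/-- the prime supply for the curves -/
theorem supply_of {K : Type} [Field K] [NumberField K] {f : K[X]} (hf : Admissible f) :
    ∃ Q ∈ frobSets, ∀ a : ℤ, Hit Q a → NoSections f a := by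
  obtain ⟨h1, h3, h⟩ := hf
  have hσ : HasDerangement f := by
    rcases h with h | h
    · exact Pool.Agent.W52.SecC.D3.partD3 K f h (by omega)
    · exact h
  obtain ⟨Q, hQ, hall⟩ := fine_supply f h1 h3 hσ
  exact ⟨Q, hQ, fun a ha => noSections_of f a (hall a ha)⟩

section
variable {ι : Type} [Fintype ι]

/-- the exceptional vectors for one curve and one polynomial are a pronull set -/
theorem sec_null {K : Type} [Field K] [NumberField K] {f : K[X]} (hf : Admissible f)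
    {F : MvPolynomial ι ℤ} (hF : GoodFactor F) :
    ProNull {c : ι → ℤ | ¬ NoSections f (MvPolynomial.eval c F)} := by
  obtain ⟨Q, hQ, hall⟩ := supply_of hf
  refine vals_null (good := NoSections f) ⟨{Q}, Set.finite_singleton _, ?_, ?_⟩ hF
  · rintro P hP
    rw [Set.mem_singleton_iff.1 hP]
    exact frobSets_big hQ
  · intro a ha
    exact hall a (ha Q (Set.mem_singleton _))

instance : Countable frobSets := frobSets_countable.to_subtype

/-- the condition: a prime of the set divides `a` exactly once -/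
def goodQ (Q : frobSets) (a : ℤ) : Prop := Hit Q.1 a

theorem goodQ_of (Q : frobSets) : ∃ PP : Set (Set ℕ), PP.Finite ∧ (∀ P ∈ PP, Big P) ∧
    ∀ a : ℤ, (∀ P ∈ PP, Hit P a) → goodQ Q a := by
  refine ⟨{Q.1}, Set.finite_singleton _, ?_, fun a ha => ha Q.1 (Set.mem_singleton _)⟩
  rintro P hP
  rw [Set.mem_singleton_iff.1 hP]
  exact frobSets_big Q.2

theorem goodSequence_of {c : ℕ → ι → ℤ} (hc : ∀ x : DatV ι frobSets, Rarely c (BadV goodQ x)) :
    GoodSequence c := by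
  obtain ⟨E, hE, hall⟩ := vals_master hc
  refine ⟨E, hE, fun F hF K _ _ f hf => ?_⟩
  obtain ⟨Q, hQ, hsup⟩ := supply_of hf
  refine (hall F hF ⟨Q, hQ⟩).subset ?_
  rintro n ⟨hn, hno⟩
  exact ⟨hn, fun hgood => hno (hsup _ hgood)⟩

end

end Pool.Agent.P8H32.LW.Sec
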