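import Pool.Agent.P8H32.LW.Ord
import Pool.Agent.N763.RO.Torus
import Pool.Agent.N18.KM.Base

/-!
# Families of subvarieties of tori, ARBITRARY hypersurfaces of the space of parameters (helper32)

The local criterion of the starting library (`localGen`, `localT` of `N763.RO.Torus`) for families
over `ℤ[t_i]`, `i ∈ ι`, and orders along arbitrary irreducible hypersurfaces.
-/

set_option autoImplicit false
set_option linter.all false

namespace Pool.Agent.P8H32.LW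

open MvPolynomial Pool.Agent.R424.TG Pool.Agent.R424.MP Pool.Agent.N24.RW MeasureTheory Filter Topology
open Pool.Agent.Y152.RP.FamM (NoAtypical)
open Pool.Agent.N24.KM (Rarely)

section
variable {ι : Type} [Fintype ι]

/-- the condition on the parameter: `f l` has a prime factor above `P₀` which does not divide `G l` -/
def HitG {M : ℕ} (f G : Fin M → MvPolynomial ι ℤ) (P₀ : ℕ) (v : ι → ℤ) : Prop :=
  ∀ l, eval v (f l) ≠ 0 ∧ ∃ p : ℕ, p.Prime ∧ (p : ℤ) ∣ eval v (f l) ∧ P₀ < p ∧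
    ¬ (p : ℤ) ∣ eval v (G l)

theorem localGenG {κ : Type} [Finite κ] {n k N m M : ℕ}
    (supp : κ → Finset (((Fin n ⊕ Fin k) ⊕ Fin N) →₀ ℕ))
    (c : κ → (((Fin n ⊕ Fin k) ⊕ Fin N) →₀ ℕ) → MvPolynomial ι ℤ)
    (f : Fin M → MvPolynomial ι ℤ) (hf : ∀ l, Irreducible ((f l).map (Int.castRingHom ℚ)))
    (e : Fin M → κ → (((Fin n ⊕ Fin k) ⊕ Fin N) →₀ ℕ) → ℕ)
    (he : ∀ l q, ∀ β ∈ supp q, OrderAlong (f l) (c q β) (e l q β)) (hgen : GenericOrders m supp e) :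
    ∃ G : Fin M → MvPolynomial ι ℤ,
      (∀ l, ¬ (f l).map (Int.castRingHom ℚ) ∣ (G l).map (Int.castRingHom ℚ)) ∧
      ∀ (K : Subfield ℂ) [Countable K] (Γ : Finset ℂ), (∀ γ ∈ Γ, IsAlgebraic ℚ γ) →
        (∀ γ ∈ Γ, γ ∈ K) → ∃ P₀ : ℕ, ∀ v : ι → ℤ, HitG f G P₀ v →
          NoAtypical (algebraMap (Algebra.adjoin ℤ (Γ : Set ℂ)) ℂ) K m
            (solutions supp (fun q β => ((eval v (c q β) : ℤ) : ℂ)) :
              Set (Fin n ⊕ Fin k → ℂ)) := by
  classical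
  have := Fintype.ofFinite κ
  let X := Σ q : κ, {β // β ∈ supp q}
  choose G hG hG2 using fun l : Fin M => common_cofactor (X := X) (hf l) (fun x => c x.1 x.2)
    (fun x => e l x.1 x.2) (fun x => he l x.1 _ x.2.2)
  refine ⟨G, hG, fun K _ Γ hΓ hΓK => ?_⟩
  obtain ⟨D₀, hD₀, halg⟩ := Pool.Agent.W466.ZP.alg_mem (fun z : Γ => (z : ℂ)) fun z => hΓ z z.2
  refine ⟨D₀, fun v hgood => ?_⟩
  have hK : ∀ a : Algebra.adjoin ℤ (Γ : Set ℂ),
      algebraMap (Algebra.adjoin ℤ (Γ : Set ℂ)) ℂ a ∈ K := by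
    intro a
    have hle : Algebra.adjoin ℤ (Γ : Set ℂ) ≤ subalgebraOfSubring K.toSubring :=
      Algebra.adjoin_le fun γ hγ => hΓK γ hγ
    exact hle a.2
  refine coreB (algebraMap (Algebra.adjoin ℤ (Γ : Set ℂ)) ℂ) K hK supp _
    fun r cls d L hd hr => ?_
  obtain ⟨l, hl⟩ := hgen r cls d L hd hr
  refine ⟨e l, hl, fun ρ x hx => ?_⟩
  obtain ⟨h0, p, hp, hph, hpP, hpG⟩ := hgood l
  have hxQ : AlgebraicIndependent ℚ x := hx.restrictScalars (algebraMap ℚ K).injective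
  obtain ⟨V, hV, hVx⟩ := place x hxQ hp
  have hp1 : V.valuation (p : ℂ) < 1 := by rwa [ValuationSubring.mem_nonunits_iff] at hV
  have hint : ∀ w : ℤ, V.valuation (w : ℂ) ≤ 1 := fun w => by
    rw [ValuationSubring.valuation_le_one_iff]
    exact intCast_mem V w
  refine ⟨V, V.valuation ((eval v (f l) : ℤ) : ℂ), ?_, ?_, fun q β hβ => ?_, fun a => ?_, hVx⟩
  · rw [Valuation.ne_zero_iff]
    exact_mod_cast h0
  · obtain ⟨w, hw⟩ := hph
    rw [hw]
    push_cast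
    rw [map_mul]
    exact (mul_le_of_le_one_right' (hint w)).trans_lt hp1
  · obtain ⟨d', g, h1, h2, h3⟩ := hG2 l v p hp hpG ⟨q, β, hβ⟩
    have h4 : ((d' : ℤ) : ℂ) * ((eval v (c q β) : ℤ) : ℂ) =
        ((eval v (f l) : ℤ) : ℂ) ^ e l q β * ((g : ℤ) : ℂ) := by
      exact_mod_cast h1
    have h5 := congrArg V.valuation h4
    rw [map_mul, map_mul, map_pow, Pool.Agent.W466.ZP.int_unit V hp hV _ h2,
      Pool.Agent.W466.ZP.int_unit V hp hV _ h3, one_mul, mul_one] at h5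
    exact h5
  · rw [ValuationSubring.valuation_le_one_iff]
    have hpD : ¬ p ∣ D₀ := fun h1 => by
      have := Nat.le_of_dvd hD₀ h1
      omega
    have hle : Algebra.adjoin ℤ (Γ : Set ℂ) ≤ subalgebraOfSubring V.toSubring :=
      Algebra.adjoin_le fun γ hγ => halg p hp hpD V hV ⟨γ, hγ⟩
    exact hle a.2

theorem localTG {k N : ℕ} {κ : Type} [Finite κ] {m M : ℕ}
    (supp : κ → Finset ((Fin k ⊕ Fin N) →₀ ℕ))
    (c : κ → ((Fin k ⊕ Fin N) →₀ ℕ) → MvPolynomial ι ℤ)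
    (f : Fin M → MvPolynomial ι ℤ) (hf : ∀ l, Irreducible ((f l).map (Int.castRingHom ℚ)))
    (e : Fin M → κ → ((Fin k ⊕ Fin N) →₀ ℕ) → ℕ)
    (he : ∀ l q, ∀ β ∈ supp q, OrderAlong (f l) (c q β) (e l q β)) (hgen : GenericT m supp e) :
    ∃ G : Fin M → MvPolynomial ι ℤ,
      (∀ l, ¬ (f l).map (Int.castRingHom ℚ) ∣ (G l).map (Int.castRingHom ℚ)) ∧
      ∀ (K : Subfield ℂ) [Countable K] (Γ : Finset ℂ), (∀ γ ∈ Γ, IsAlgebraic ℚ γ) →
        (∀ γ ∈ Γ, γ ∈ K) → ∃ P₀ : ℕ, ∀ v : ι → ℤ, HitG f G P₀ v →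
          NoAtypicalT (algebraMap (Algebra.adjoin ℤ (Γ : Set ℂ)) ℂ) K m
            (solT supp (fun q β => ((eval v (c q β) : ℤ) : ℂ))) := by
  classical
  obtain ⟨G, hG, hloc⟩ := localGenG (n := 0) (m := m) (fun q => (supp q).map (renE k N).toEmbedding)
    (fun q β => c q ((renE k N).symm β)) f hf (fun l q β => e l q ((renE k N).symm β))
    (fun l q β hβ => by
      obtain ⟨β', hβ', rfl⟩ := Finset.mem_map.1 hβ
      simp only [Equiv.coe_toEmbedding, Equiv.symm_apply_apply]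
      exact he l q β' hβ') (fun r cls d L _ hr => by
      obtain ⟨l, hl⟩ := hgen L (by omega)
      refine ⟨l, fun w hw hc => ?_⟩
      obtain ⟨-, -, u, hu, hwu⟩ := hc
      refine hl (w ∘ (ren k N).symm) (fun q => trop_ren _ _ _ (hw q)) ⟨u, hu, fun j => ?_⟩
      exact hwu j)
  refine ⟨G, hG, fun K _ Γ hΓ hΓK => ?_⟩
  obtain ⟨P₀, hP₀⟩ := hloc K Γ hΓ hΓK
  refine ⟨P₀, fun z hz => ?_⟩
  refine noAtypicalT_of (fun x hx => hx.1) (hP₀ z hz) ?_
  rintro x ⟨hx0, y, hy⟩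
  refine ⟨fun j => hx0 j, y, fun q => ?_⟩
  rw [Finset.sum_map]
  rw [← hy q]
  refine Finset.sum_congr rfl fun β _ => ?_
  simp only [Equiv.coe_toEmbedding, Equiv.symm_apply_apply]
  congr 1
  rw [← Equiv.prod_comp (ren k N) (fun i => (Sum.elim x y : Fin k ⊕ Fin N → ℂ) i ^ β i)]
  refine Finset.prod_congr rfl fun i _ => ?_
  rw [ren_elim, renE_apply]

/-- the exceptional parameters of one family are a pronull set -/
theorem torusG_null {k N : ℕ} {κ : Type} [Finite κ] {m M : ℕ}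
    (supp : κ → Finset ((Fin k ⊕ Fin N) →₀ ℕ))
    (c : κ → ((Fin k ⊕ Fin N) →₀ ℕ) → MvPolynomial ι ℤ)
    (f : Fin M → MvPolynomial ι ℤ) (hf : ∀ l, Irreducible ((f l).map (Int.castRingHom ℚ)))
    (e : Fin M → κ → ((Fin k ⊕ Fin N) →₀ ℕ) → ℕ)
    (he : ∀ l q, ∀ β ∈ supp q, OrderAlong (f l) (c q β) (e l q β)) (hgen : GenericT m supp e)
    (K : Subfield ℂ) [Countable K] (Γ : Finset ℂ) (hΓ : ∀ γ ∈ Γ, IsAlgebraic ℚ γ)
    (hΓK : ∀ γ ∈ Γ, γ ∈ K) :
    ProNull {v : ι → ℤ | ¬ NoAtypicalT (algebraMap (Algebra.adjoin ℤ (Γ : Set ℂ)) ℂ) K m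
      (solT supp (fun q β => ((eval v (c q β) : ℤ) : ℂ)))} := by
  obtain ⟨G, hG, hloc⟩ := localTG supp c f hf e he hgen
  obtain ⟨P₀, hP₀⟩ := hloc K Γ hΓ hΓK
  refine Clo.mono ?_ (pro_fin' (fun l => BadG (⟨(f l, G l, P₀), hf l, hG l⟩ : DatG ι))
    fun l => badG_null _)
  intro v hv
  by_contra hcon
  apply hv
  refine hP₀ v fun l => ?_
  by_contra hl
  exact hcon ⟨l, hl⟩

end

/-- There is ONE set `E` of natural density zero, such that for ALL finite systems of equations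
`∑ β ∈ supp q, a q β * (x, y) ^ β = 0`, `x ∈ (ℂˣ)^k`, `y ∈ ℂ^N`, whose coefficients `a q β` are polynomials
with integral coefficients in the parameters `t_i`, `i ∈ ι`, all polynomials `f_1, …, f_M` in the parameters
which are irreducible over `ℚ`, such that the coefficients have the orders `e` along the hypersurfaces
`f_l = 0` and the tropicalizations along these hypersurfaces satisfy the condition `GenericT`, all
countable fields `K` and all finite sets `Γ ⊆ K` of algebraic numbers: for all but finitely many `n` outside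
`E` the member of the family with the parameters `c n` has no atypical intersections (`NoAtypicalT`). -/
def TorusGoodAll {ι : Type} [Fintype ι] (c : ℕ → ι → ℤ) : Prop :=
  ∃ E : Set ℕ,
    Tendsto (fun N : ℕ => (({n : ℕ | n < N ∧ n ∈ E}.ncard : ℕ) : ℝ) / (N : ℝ)) atTop (𝓝 0) ∧
    ∀ (k N m M : ℕ) (κ : Type) [Finite κ] (supp : κ → Finset ((Fin k ⊕ Fin N) →₀ ℕ))
      (a : κ → ((Fin k ⊕ Fin N) →₀ ℕ) → MvPolynomial ι ℤ)
      (f : Fin M → MvPolynomial ι ℤ), (∀ l, Irreducible ((f l).map (Int.castRingHom ℚ))) →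
    ∀ (e : Fin M → κ → ((Fin k ⊕ Fin N) →₀ ℕ) → ℕ),
      (∀ l q, ∀ β ∈ supp q, OrderAlong (f l) (a q β) (e l q β)) → GenericT m supp e →
    ∀ (K : Subfield ℂ) [Countable K] (Γ : Finset ℂ), (∀ γ ∈ Γ, IsAlgebraic ℚ γ) →
      (∀ γ ∈ Γ, γ ∈ K) →
      {n : ℕ | n ∉ E ∧ ¬ NoAtypicalT (algebraMap (Algebra.adjoin ℤ (Γ : Set ℂ)) ℂ) K m
        (solT supp (fun q β => ((eval (c n) (a q β) : ℤ) : ℂ)))}.Finite

/-- **Sequences which are rarely in pronull sets are good.** -/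
theorem torusG_master {ι : Type} [Fintype ι] {c : ℕ → ι → ℤ} (hc : ∀ x : DatG ι, Rarely c (BadG x)) :
    TorusGoodAll c := by
  obtain ⟨E, hE, hfin⟩ := Pool.Agent.N18.KM.one_set c (fun x : DatG ι => BadG x) hc
  refine ⟨E, hE, ?_⟩
  intro k N m M κ _ supp a f hf e he hgen K _ Γ hΓ hΓK
  obtain ⟨G, hG, hloc⟩ := localTG supp a f hf e he hgen
  obtain ⟨P₀, hP₀⟩ := hloc K Γ hΓ hΓK
  have h1 : (⋃ l : Fin M, {n : ℕ | n ∉ E ∧ c n ∈
      BadG (⟨(f l, G l, P₀), hf l, hG l⟩ : DatG ι)}).Finite :=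
    Set.finite_iUnion fun l => hfin _
  refine h1.subset ?_
  rintro n ⟨hn, hbad⟩
  by_contra hcon
  apply hbad
  refine hP₀ (c n) fun l => ?_
  by_contra hl
  exact hcon (Set.mem_iUnion.2 ⟨l, hn, hl⟩)

end Pool.Agent.P8H32.LW
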