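import Pool.Agent.P8H32.LW.GenAbs

/-!
# Values of polynomials with a simple factor at sequences which are rarely in pronull sets (helper32)
-/

set_option autoImplicit false
set_option linter.all false

namespace Pool.Agent.P8H32.LW

open MvPolynomial Filter Topology
open Pool.Agent.N24.RW
open Pool.Agent.N676.OR (DensityZero Big Hit)
open Pool.Agent.N24.KM (Rarely)
open Pool.Agent.P8H32.CV (SimpleFactor pro_hits_simple)

section
variable {ι : Type} [Fintype ι]

/-- The polynomial `F` with integral coefficients has a simple factor: over `ℚ` it is the product of a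
polynomial which is irreducible over the algebraic closure of `ℚ` and a polynomial which is not
divisible by it (`AbsFactor`), or the product of a polynomial `A x_l + B`, `A` and `B` without the
variable `x_l`, and of a polynomial which does not vanish identically on `x_l = - B / A`
(`SimpleFactor`). -/
def GoodFactor (F : MvPolynomial ι ℤ) : Prop :=
  AbsFactor F ∨ SimpleFactor F

theorem vals_null {good : ℤ → Prop}
    (h : ∃ PP : Set (Set ℕ), PP.Finite ∧ (∀ P ∈ PP, Big P) ∧
      ∀ a : ℤ, (∀ P ∈ PP, Hit P a) → good a) {F : MvPolynomial ι ℤ} (hF : GoodFactor F) :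
    ProNull {c : ι → ℤ | ¬ good (eval c F)} := by
  obtain ⟨PP, h1, h2, h3⟩ := h
  have h4 : ProNull {c : ι → ℤ | ¬ ∀ P ∈ PP, Hit P (eval c F)} := by
    rcases hF with hF | hF
    · exact pro_hits_abs h1 h2 hF
    · exact pro_hits_simple h1 h2 hF
  refine Clo.mono ?_ h4
  intro c hc hall
  exact hc (h3 _ hall)

/-- the data: a polynomial with a simple factor, and an index of a property -/
def DatV (ι : Type) [Fintype ι] (𝔇 : Type) : Type := {F : MvPolynomial ι ℤ // GoodFactor F} × 𝔇

theorem countable_mvι' : Countable (MvPolynomial ι ℤ) := by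
  have h := Pool.Agent.N618.RO.countable_mv (Fintype.card ι)
  exact Function.Injective.countable
    (f := rename (R := ℤ) (Fintype.equivFin ι)) (rename_injective _ (Fintype.equivFin ι).injective)

instance (𝔇 : Type) [Countable 𝔇] : Countable (DatV ι 𝔇) := by
  have := countable_mvι' (ι := ι)
  unfold DatV
  infer_instance

/-- the vectors at which the value does not have the property -/
def BadV {𝔇 : Type} (good : 𝔇 → ℤ → Prop) (x : DatV ι 𝔇) : Set (ι → ℤ) :=
  {c | ¬ good x.2 (eval c x.1.1)}

theorem badV_null {𝔇 : Type} {good : 𝔇 → ℤ → Prop}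
    (h : ∀ D, ∃ PP : Set (Set ℕ), PP.Finite ∧ (∀ P ∈ PP, Big P) ∧
      ∀ a : ℤ, (∀ P ∈ PP, Hit P a) → good D a) (x : DatV ι 𝔇) : ProNull (BadV good x) :=
  vals_null (h x.2) x.1.2

theorem vals_master {𝔇 : Type} [Countable 𝔇] {good : 𝔇 → ℤ → Prop} {c : ℕ → ι → ℤ}
    (hc : ∀ x : DatV ι 𝔇, Rarely c (BadV good x)) :
    ∃ E : Set ℕ, DensityZero E ∧ ∀ F : MvPolynomial ι ℤ, GoodFactor F → ∀ D,
      {n : ℕ | n ∉ E ∧ ¬ good D (eval (c n) F)}.Finite := by
  obtain ⟨E, e1, e2⟩ := Pool.Agent.N18.KM.one_set c (fun x : DatV ι 𝔇 => BadV good x) hc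
  exact ⟨E, e1, fun F hF D => e2 (⟨F, hF⟩, D)⟩

end

end Pool.Agent.P8H32.LW
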