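import Pool.Agent.P8H32.LW.Vals
import Pool.Agent.Results.MP_f80667_ag.RandomOrbits

/-!
# Twists of cyclic coverings by the values of polynomials with a simple factor (helper32)
-/

set_option autoImplicit false

namespace Pool.Agent.P8H32.LW

open Polynomial MeasureTheory Filter Topology
open Pool.Agent.R925.FD (exg exh)
open Pool.Agent.N24.RW
open Pool.Agent.Results.MP_f80667_ag.DegreeZeroComplexOfTwists (Admissible)
open Pool.Agent.Results.MP_f80667_ag.RandomOrbits (Good AllTrivial good_of adm_ex ex_trivial)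
open Pool.Agent.N676.OR (DensityZero Big Hit)
open Pool.Agent.N24.KM (Rarely)

/-- The twists by the values of ALL polynomials with a simple factor (`GoodFactor`) at the vectors
`c 0, c 1, …` have the property `Good b g h`, for ALL families of curves `(b, g, h)` (`Admissible`), and
the example curves have only orthogonal adelic zero-cycles with trivial values (`AllTrivial`), apart from
the indices in ONE set of density zero and finitely many more, depending on the polynomial and the
family. -/
def ValuesGood {ι : Type} [Fintype ι] (c : ℕ → ι → ℤ) : Prop :=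
  ∃ E : Set ℕ, DensityZero E ∧ ∀ F : MvPolynomial ι ℤ, GoodFactor F →
    (∀ (r : ℕ) (b : ℤ) (g : Fin r → ℤ[X]) (h : ℤ[X]), Admissible b g h →
      {n : ℕ | n ∉ E ∧ ¬ Good b g h (MvPolynomial.eval (c n) F)}.Finite) ∧
    {n : ℕ | n ∉ E ∧ ¬ AllTrivial 1 exg exh (MvPolynomial.eval (c n) F)}.Finite

/-- the data of a family of curves -/
def Fam : Type := Σ r : ℕ, ℤ × (Fin r → ℤ[X]) × ℤ[X]

instance : Countable Fam := by
  have hcp := Pool.Agent.N676.OR.countable_poly
  unfold Fam
  infer_instance

/-- the property `Good` for the families which are admissible -/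
def goodF (D : Fam) (a : ℤ) : Prop :=
  Admissible D.2.1 D.2.2.1 D.2.2.2 → Good D.2.1 D.2.2.1 D.2.2.2 a

theorem goodF_of (D : Fam) : ∃ PP : Set (Set ℕ), PP.Finite ∧ (∀ P ∈ PP, Big P) ∧
    ∀ a : ℤ, (∀ P ∈ PP, Hit P a) → goodF D a := by
  obtain ⟨r, b, g, h⟩ := D
  by_cases hA : Admissible b g h
  · obtain ⟨PP, h1, h2, h3⟩ := good_of hA
    exact ⟨PP, h1, h2, fun a ha _ => h3 a ha⟩
  · exact ⟨∅, Set.finite_empty, fun P hP => absurd hP (Set.notMem_empty _),
      fun a _ hA' => absurd hA' hA⟩

section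
variable {ι : Type} [Fintype ι]

/-- the exceptional vectors of one family and one polynomial are a pronull set -/
theorem zc_null {r : ℕ} {b : ℤ} {g : Fin r → ℤ[X]} {h : ℤ[X]} (hA : Admissible b g h)
    {F : MvPolynomial ι ℤ} (hF : GoodFactor F) :
    ProNull {c : ι → ℤ | ¬ Good b g h (MvPolynomial.eval c F)} :=
  vals_null (good_of hA) hF

theorem valuesGood_of {c : ℕ → ι → ℤ} (hc : ∀ x : DatV ι Fam, Rarely c (BadV goodF x)) :
    ValuesGood c := by
  obtain ⟨E, hE, hall⟩ := vals_master hc
  have hgen : ∀ F : MvPolynomial ι ℤ, GoodFactor F →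
      ∀ (r : ℕ) (b : ℤ) (g : Fin r → ℤ[X]) (h : ℤ[X]), Admissible b g h →
        {n : ℕ | n ∉ E ∧ ¬ Good b g h (MvPolynomial.eval (c n) F)}.Finite := by
    intro F hF r b g h hA
    refine (hall F hF ⟨r, b, g, h⟩).subset ?_
    rintro t ⟨ht, ht'⟩
    exact ⟨ht, fun hgood => ht' (hgood hA)⟩
  refine ⟨E, hE, fun F hF => ⟨hgen F hF, ?_⟩⟩
  refine (hgen F hF 2 1 exg exh adm_ex).subset ?_
  rintro t ⟨ht, hno⟩
  exact ⟨ht, fun hgood => hno (ex_trivial hgood)⟩

end

end Pool.Agent.P8H32.LW
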